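import Pool.Agent.helper95.M4.Exact

/-!
# Project M4: the explicit description of the whole spectrum by the Farey polynomials
-/

set_option autoImplicit false

namespace Pool.Agent.M4

open Complex ComplexConjugate Pool.Agent.FZ Topology Filter

/-- The triples of values at `z` of the Farey polynomials. -/
inductive FT (z : ℂ) : ℂ → ℂ → ℂ → Prop
  | root : FT z z (-I * z ^ 2) (-I * z)
  | left {l n r : ℂ} : FT z l n r → FT z n (n * r - l) r
  | right {l n r : ℂ} : FT z l n r → FT z l (l * n - r) n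

/-- `v` has modulus smaller than one or lies in the real segment `[-2, 2]`. -/
def Sh (v : ℂ) : Prop := ‖v‖ < 1 ∨ (v.im = 0 ∧ |v.re| ≤ 2)

/-- The points with a short entry. -/
def Bs : Set ℂ := {z : ℂ | ∃ l n r : ℂ, FT z l n r ∧ (Sh l ∨ Sh n ∨ Sh r)}

theorem FT_Tr (w : List Bool) (z : ℂ) : FT z (Lf w z) (Nf w z) (Rf w z) := by
  induction w with
  | nil => exact FT.root
  | cons b w ih =>
    cases b
    · exact FT.right ih
    · exact FT.left ih

theorem FT_ex {z l n r : ℂ} (h : FT z l n r) : (l = z ∨ ∃ w, l = Nf w z) ∧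
    (∃ w, Lf w z = l ∧ n = Nf w z ∧ Rf w z = r) ∧ (r = -I * z ∨ ∃ w, r = Nf w z) := by
  induction h with
  | root => exact ⟨Or.inl rfl, ⟨[], rfl, rfl, rfl⟩, Or.inl rfl⟩
  | left h ih =>
    obtain ⟨_, ⟨w, h1, h2, h3⟩, h4⟩ := ih
    refine ⟨Or.inr ⟨w, h2⟩, ⟨true :: w, ?_, ?_, ?_⟩, h4⟩
    · exact h2.symm
    · rw [h2, ← h1, ← h3]
      rfl
    · exact h3
  | right h ih =>
    obtain ⟨h4, ⟨w, h1, h2, h3⟩, _⟩ := ih
    refine ⟨h4, ⟨false :: w, ?_, ?_, ?_⟩, Or.inr ⟨w, h2⟩⟩
    · exact h1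
    · rw [h2, ← h1, ← h3]
      rfl
    · exact h2.symm

/-- A change of two signs. -/
structure Sg (a b c : ℂ) : Prop where
  qa : a ^ 2 = 1
  qb : b ^ 2 = 1
  qc : c ^ 2 = 1
  qm : a * b * c = 1

theorem FT_conj {z l n r : ℂ} (h : FT z l n r) : ∃ a b c : ℂ, Sg a b c ∧
    FT (conj z) (a * conj l) (b * conj n) (c * conj r) := by
  induction h with
  | root =>
    refine ⟨1, -1, -1, ⟨by norm_num, by norm_num, by norm_num, by norm_num⟩, ?_⟩
    have := FT.root (z := conj z)
    simpa using this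
  | @left l n r h ih =>
    obtain ⟨a, b, c, hs, hF⟩ := ih
    refine ⟨b, a, c, ⟨hs.qb, hs.qa, hs.qc, by rw [← hs.qm]; ring⟩, ?_⟩
    have h1 := FT.left hF
    have h2 : b * c = a := by linear_combination a * hs.qm - b * c * hs.qa
    have e : b * conj n * (c * conj r) - a * conj l = a * conj (n * r - l) := by
      rw [map_sub, map_mul]
      linear_combination conj n * conj r * h2
    rwa [e] at h1
  | @right l n r h ih =>
    obtain ⟨a, b, c, hs, hF⟩ := ih
    refine ⟨a, c, b, ⟨hs.qa, hs.qc, hs.qb, by rw [← hs.qm]; ring⟩, ?_⟩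
    have h1 := FT.right hF
    have h2 : a * b = c := by linear_combination c * hs.qm - a * b * hs.qc
    have e : a * conj l * (b * conj n) - c * conj r = c * conj (l * n - r) := by
      rw [map_sub, map_mul]
      linear_combination conj l * conj n * h2
    rwa [e] at h1

theorem FT_neg {z l n r : ℂ} (h : FT z l n r) : ∃ a b c : ℂ, Sg a b c ∧
    FT (-z) (a * l) (b * n) (c * r) := by
  induction h with
  | root =>
    refine ⟨-1, 1, -1, ⟨by norm_num, by norm_num, by norm_num, by norm_num⟩, ?_⟩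
    have := FT.root (z := -z)
    simpa using this
  | @left l n r h ih =>
    obtain ⟨a, b, c, hs, hF⟩ := ih
    refine ⟨b, a, c, ⟨hs.qb, hs.qa, hs.qc, by rw [← hs.qm]; ring⟩, ?_⟩
    have h1 := FT.left hF
    have h2 : b * c = a := by linear_combination a * hs.qm - b * c * hs.qa
    have e : b * n * (c * r) - a * l = a * (n * r - l) := by
      linear_combination n * r * h2
    rwa [e] at h1
  | @right l n r h ih =>
    obtain ⟨a, b, c, hs, hF⟩ := ih
    refine ⟨a, c, b, ⟨hs.qa, hs.qc, hs.qb, by rw [← hs.qm]; ring⟩, ?_⟩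
    have h1 := FT.right hF
    have h2 : a * b = c := by linear_combination c * hs.qm - a * b * hs.qc
    have e : a * l * (b * n) - c * r = c * (l * n - r) := by
      linear_combination l * n * h2
    rwa [e] at h1

theorem Sh_conj {v : ℂ} (h : Sh v) : Sh (conj v) := by
  rcases h with h | ⟨h, h'⟩
  · exact Or.inl (by simpa using h)
  · exact Or.inr ⟨by simp [h], by simpa using h'⟩

theorem Sh_sign {a v : ℂ} (ha : a ^ 2 = 1) (h : Sh v) : Sh (a * v) := by
  rcases (sq_eq_one_iff.mp ha) with rfl | rfl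
  · simpa using h
  · rcases h with h | ⟨h, h'⟩
    · exact Or.inl (by simpa using h)
    · exact Or.inr ⟨by simp [h], by simpa using h'⟩

theorem Bs_conj {z : ℂ} (h : z ∈ Bs) : conj z ∈ Bs := by
  obtain ⟨l, n, r, hF, hs⟩ := h
  obtain ⟨a, b, c, hg, h1⟩ := FT_conj hF
  refine ⟨_, _, _, h1, ?_⟩
  rcases hs with hs | hs | hs
  · exact Or.inl (Sh_sign hg.qa (Sh_conj hs))
  · exact Or.inr (Or.inl (Sh_sign hg.qb (Sh_conj hs)))
  · exact Or.inr (Or.inr (Sh_sign hg.qc (Sh_conj hs)))

theorem Bs_neg {z : ℂ} (h : z ∈ Bs) : -z ∈ Bs := by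
  obtain ⟨l, n, r, hF, hs⟩ := h
  obtain ⟨a, b, c, hg, h1⟩ := FT_neg hF
  refine ⟨_, _, _, h1, ?_⟩
  rcases hs with hs | hs | hs
  · exact Or.inl (Sh_sign hg.qa hs)
  · exact Or.inr (Or.inl (Sh_sign hg.qb hs))
  · exact Or.inr (Or.inr (Sh_sign hg.qc hs))

theorem cl_conj {z : ℂ} (h : z ∈ closure Bs) : conj z ∈ closure Bs :=
  map_mem_closure Complex.continuous_conj h fun _ hy => Bs_conj hy

theorem cl_neg {z : ℂ} (h : z ∈ closure Bs) : -z ∈ closure Bs :=
  map_mem_closure continuous_neg h fun _ hy => Bs_neg hy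

theorem cl_abs {z : ℂ} (h : (⟨|z.re|, |z.im|⟩ : ℂ) ∈ closure Bs) : z ∈ closure Bs := by
  rcases abs_choice z.re with h1 | h1 <;> rcases abs_choice z.im with h2 | h2
  · have e : (⟨|z.re|, |z.im|⟩ : ℂ) = z := by
      apply Complex.ext <;> simp [h1, h2]
    rwa [e] at h
  · have e : (⟨|z.re|, |z.im|⟩ : ℂ) = conj z := by
      apply Complex.ext <;> simp [h1, h2]
    rw [e] at h
    simpa using cl_conj h
  · have e : (⟨|z.re|, |z.im|⟩ : ℂ) = -conj z := by
      apply Complex.ext <;> simp [h1, h2]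
    rw [e] at h
    simpa using cl_conj (cl_neg h)
  · have e : (⟨|z.re|, |z.im|⟩ : ℂ) = -z := by
      apply Complex.ext <;> simp [h1, h2]
    rw [e] at h
    simpa using cl_neg h

theorem Bd_Bs : Bd ⊆ Bs := by
  rintro y ⟨_, _, h | ⟨w, h⟩⟩
  · exact ⟨_, _, _, FT.root, Or.inl (Or.inl h)⟩
  · exact ⟨_, _, _, FT_Tr w y, Or.inr (Or.inl h)⟩

/-- Real points of the spectrum. -/
theorem real_mem {z : ℂ} (h : z.im = 0) (h' : |z.re| ≤ 2) : z ∈ periodicPart := by
  rw [per_eq, mem_hopping_iff]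
  obtain ⟨h1, h2⟩ := abs_le.mp h'
  have hc : Real.cos (Real.arccos (z.re / 2)) = z.re / 2 :=
    Real.cos_arccos (by linarith) (by linarith)
  set t := Real.arccos (z.re / 2)
  have hz : z = Complex.exp (t * I) + Complex.exp (-(t * I)) := by
    have e : z = ((2 * Real.cos t : ℝ) : ℂ) := by
      apply Complex.ext
      · rw [ofReal_re, hc]; ring
      · rw [ofReal_im, h]
    rw [e, ofReal_mul, ofReal_cos, Complex.cos]
    push_cast
    ring_nf
  refine ⟨fun _ => 1, fun m => Complex.exp (m * (t * I)), fun _ => Or.inl rfl, fun m => ?_, ?_,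
    fun m => ?_⟩
  · show Complex.exp (((m + 1 : ℤ) : ℂ) * (t * I)) + 1 * Complex.exp (((m - 1 : ℤ) : ℂ) * (t * I))
      = z * Complex.exp (m * (t * I))
    rw [hz, add_mul, ← Complex.exp_add, ← Complex.exp_add, one_mul]
    congr 2 <;> (push_cast; ring)
  · show Complex.exp (((0 : ℤ) : ℂ) * (t * I)) = 1
    simp
  · show ‖Complex.exp (m * (t * I))‖ ≤ 2
    have e : ((m : ℂ) * (t * I)) = ((m * t : ℝ) : ℂ) * I := by push_cast; ring
    rw [e, Complex.norm_exp_ofReal_mul_I]
    norm_num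

/-- Imaginary points of the spectrum. -/
theorem imag_mem {z : ℂ} (h : z.re = 0) (h' : |z.im| ≤ 2) : z ∈ periodicPart := by
  rw [per_eq, mem_hopping_iff]
  obtain ⟨h1, h2⟩ := abs_le.mp h'
  have hc : Real.sin (Real.arcsin (z.im / 2)) = z.im / 2 :=
    Real.sin_arcsin (by linarith) (by linarith)
  set t := Real.arcsin (z.im / 2)
  have hz : z = Complex.exp (t * I) - Complex.exp (-(t * I)) := by
    have e : z = ((2 * Real.sin t : ℝ) : ℂ) * I := by
      apply Complex.ext
      · simp [h]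
      · rw [hc]; simp; ring
    rw [e, ofReal_mul, ofReal_sin, Complex.sin]
    push_cast
    have hI : I * I = -1 := Complex.I_mul_I
    have e1 : -(t : ℂ) * I = -(t * I) := by ring
    rw [e1]
    linear_combination (Complex.exp (-(t * I)) - Complex.exp (t * I)) * hI
  refine ⟨fun _ => -1, fun m => Complex.exp (m * (t * I)), fun _ => Or.inr rfl, fun m => ?_, ?_,
    fun m => ?_⟩
  · show Complex.exp (((m + 1 : ℤ) : ℂ) * (t * I)) + -1 * Complex.exp (((m - 1 : ℤ) : ℂ) * (t * I))
      = z * Complex.exp (m * (t * I))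
    rw [hz, sub_mul, ← Complex.exp_add, ← Complex.exp_add, neg_one_mul, ← sub_eq_add_neg]
    congr 2 <;> (push_cast; ring)
  · show Complex.exp (((0 : ℤ) : ℂ) * (t * I)) = 1
    simp
  · show ‖Complex.exp (m * (t * I))‖ ≤ 2
    have e : ((m : ℂ) * (t * I)) = ((m * t : ℝ) : ℂ) * I := by push_cast; ring
    rw [e, Complex.norm_exp_ofReal_mul_I]
    norm_num

theorem Bs_sub : Bs ⊆ periodicPart := by
  rintro z ⟨l, n, r, hF, hs⟩
  by_contra hp
  obtain ⟨g1, g2, g3⟩ := W66.good_all hp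
  have key : ∀ w, ¬ Sh (Nf w z) := by
    rintro w (h | ⟨h, h'⟩)
    · exact absurd (g2 w) (not_le.mpr h)
    · exact absurd (g3 w h) (not_lt.mpr h')
  obtain ⟨e1, ⟨w, _, e2, _⟩, e3⟩ := FT_ex hF
  rcases hs with hs | hs | hs
  · rcases e1 with e1 | ⟨w, e1⟩
    · rw [e1] at hs
      rcases hs with h | ⟨h, h'⟩
      · exact absurd g1 (not_le.mpr h)
      · exact hp (real_mem h h')
    · rw [e1] at hs
      exact key w hs
  · rw [e2] at hs
    exact key w hs
  · rcases e3 with e3 | ⟨w, e3⟩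
    · rw [e3] at hs
      rcases hs with h | ⟨h, h'⟩
      · exact absurd g1 (not_le.mpr (by simpa using h))
      · refine hp (imag_mem ?_ ?_)
        · simpa using h
        · simpa using h'
    · rw [e3] at hs
      exact key w hs

/-- The periodic part is the closure of the set of the points with a short entry. -/
theorem per_eq_cl : periodicPart = closure Bs := by
  refine Set.Subset.antisymm (fun z hz => ?_) (closure_minimal Bs_sub isClosed_closure)
  by_cases h1 : z.re = 0
  · refine subset_closure ⟨_, _, _, FT.root, Or.inr (Or.inr (Or.inr ⟨?_, ?_⟩))⟩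
    · simpa using h1
    · have : ¬ 2 < |z.re| + |z.im| := fun h => WIDE z h hz
      have e : (-I * z).re = z.im := by simp
      rw [e]
      rw [h1, abs_zero, zero_add] at this
      exact not_lt.mp this
  by_cases h2 : z.im = 0
  · refine subset_closure ⟨_, _, _, FT.root, Or.inl (Or.inr ⟨h2, ?_⟩)⟩
    have : ¬ 2 < |z.re| + |z.im| := fun h => WIDE z h hz
    rw [h2, abs_zero, add_zero] at this
    exact not_lt.mp this
  apply cl_abs
  apply closure_mono Bd_Bs
  rw [← mem_per_iff ⟨abs_pos.mpr h1, abs_pos.mpr h2⟩, per_abs]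
  exact hz

end Pool.Agent.M4
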