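import Pool.Agent.helper95.M4.VDefs
import Pool.Agent.helper8.M4.ADM

/-!
# Project M4, block V: words, centres, involutions, reduction formulas
-/

set_option autoImplicit false

namespace Pool.Agent.M4

open Complex ComplexConjugate Matrix

theorem ev_nil (z : ℂ) : ev z [] = 1 := rfl

theorem ev_cons (z : ℂ) (a : Lt) (g : List Lt) : ev z (a :: g) = lm z a * ev z g := rfl

theorem ev_append (z : ℂ) (g h : List Lt) : ev z (g ++ h) = ev z g * ev z h := by
  induction g with
  | nil => simp [ev_nil]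
  | cons a g ih => simp only [List.cons_append, ev_cons, ih, Matrix.mul_assoc]

theorem det_lm {z : ℂ} (hz : z ≠ 0) (a : Lt) : (lm z a).det = 1 := by
  cases a <;> simp [lm, Matrix.det_fin_two_of, hz]

theorem det_ev {z : ℂ} (hz : z ≠ 0) (g : List Lt) : (ev z g).det = 1 := by
  induction g with
  | nil => simp [ev_nil]
  | cons a g ih => rw [ev_cons, Matrix.det_mul, det_lm hz, ih, one_mul]

theorem det_ev' {z : ℂ} (hz : z ≠ 0) (g : List Lt) :
    ev z g 0 0 * ev z g 1 1 - ev z g 0 1 * ev z g 1 0 = 1 := by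
  rw [← Matrix.det_fin_two]; exact det_ev hz g

/-- The words of the translations. -/
def Tw : ℤ → List Lt
  | Int.ofNat n => List.replicate n .T
  | Int.negSucc n => List.replicate (n + 1) .Ti

theorem ev_rT (z : ℂ) (n : ℕ) : ev z (List.replicate n .T) = !![1, (n : ℂ); 0, 1] := by
  induction n with
  | zero => simp [ev_nil, Matrix.one_fin_two]
  | succ n ih =>
    rw [List.replicate_succ, ev_cons, ih]
    ext i j
    fin_cases i <;> fin_cases j <;> simp [lm, Matrix.mul_apply, Fin.sum_univ_two]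

theorem ev_rTi (z : ℂ) (n : ℕ) : ev z (List.replicate n .Ti) = !![1, -(n : ℂ); 0, 1] := by
  induction n with
  | zero => simp [ev_nil, Matrix.one_fin_two]
  | succ n ih =>
    rw [List.replicate_succ, ev_cons, ih]
    ext i j
    fin_cases i <;> fin_cases j <;> simp [lm, Matrix.mul_apply, Fin.sum_univ_two]
    ring

theorem ev_Tw (z : ℂ) (m : ℤ) : ev z (Tw m) = !![1, (m : ℂ); 0, 1] := by
  cases m with
  | ofNat n => simp only [Tw, ev_rT]; simp
  | negSucc n =>
    simp only [Tw, ev_rTi, Int.cast_negSucc]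

theorem Pm_00 (X c : ℂ) : Pm X c 0 0 = X * c := rfl
theorem Pm_01 (X c : ℂ) : Pm X c 0 1 = -X⁻¹ - X * c ^ 2 := rfl
theorem Pm_10 (X c : ℂ) : Pm X c 1 0 = X := rfl
theorem Pm_11 (X c : ℂ) : Pm X c 1 1 = -X * c := rfl

/-- The involution shifted by an integer. -/
def shw (m : ℤ) (p : List Lt) : List Lt := Tw m ++ (p ++ Tw (-m))

theorem ev_shw {z X c : ℂ} {p : List Lt} (hp : ev z p = Pm X c) (m : ℤ) :
    ev z (shw m p) = Pm X (c + m) := by
  rw [shw, ev_append, ev_append, hp, ev_Tw, ev_Tw]
  ext i j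
  fin_cases i <;> fin_cases j <;>
    simp [Pm, Matrix.mul_apply, Fin.sum_univ_two] <;> ring

/-- The involution conjugated by `x ↦ -x`. -/
def ngw (p : List Lt) : List Lt := .N :: (p ++ [.N, .N, .N])

theorem ev_ngw {z X c : ℂ} {p : List Lt} (hp : ev z p = Pm X c) :
    ev z (ngw p) = Pm (-X) (-c) := by
  have hI : ev z [.N, .N, .N] = !![-I, 0; 0, I] := by
    simp only [ev_cons, ev_nil, mul_one]
    ext i j
    fin_cases i <;> fin_cases j <;> simp [lm, Matrix.mul_apply, Fin.sum_univ_two]
  rw [ngw, ev_cons, ev_append, hp, hI]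
  ext i j
  fin_cases i <;> fin_cases j <;>
    simp [Pm, lm, Matrix.mul_apply, Fin.sum_univ_two] <;> ring_nf <;>
    simp [I_sq] <;> ring

/-! ## Reduction formulas -/

theorem cc_mul {z X c : ℂ} {p g : List Lt} (hp : ev z p = Pm X c) (hg : cc g z ≠ 0) :
    cc (p ++ g) z = X * (aa g z - c) * cc g z := by
  have h1 : aa g z * cc g z = ev z g 0 0 := by
    rw [aa]; exact div_mul_cancel₀ _ hg
  have h2 : cc (p ++ g) z = X * ev z g 0 0 + -X * c * ev z g 1 0 := by
    rw [cc, ev_append, hp, Matrix.mul_apply, Fin.sum_univ_two, Pm_10, Pm_11]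
  rw [h2]
  have h3 : ev z g 1 0 = cc g z := rfl
  rw [h3]
  linear_combination (-X) * h1

theorem norm_cc_mul {z X c : ℂ} {p g : List Lt} (hp : ev z p = Pm X c) (hg : cc g z ≠ 0) :
    ‖cc (p ++ g) z‖ = ‖aa g z - c‖ * ‖X‖ * ‖cc g z‖ := by
  rw [cc_mul hp hg, norm_mul, norm_mul, mul_comm ‖X‖]

theorem aa_mul {z X c : ℂ} {p g : List Lt} (hX : X ≠ 0) (hp : ev z p = Pm X c)
    (hg : cc g z ≠ 0) (ha : aa g z ≠ c) :
    aa (p ++ g) z = c - 1 / (X ^ 2 * (aa g z - c)) := by
  have h1 : aa g z * cc g z = ev z g 0 0 := by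
    rw [aa]; exact div_mul_cancel₀ _ hg
  have h2 := cc_mul hp hg
  have h3 : ev z (p ++ g) 0 0 = (X * c * aa g z + (-X⁻¹ - X * c ^ 2)) * cc g z := by
    rw [ev_append, hp, Matrix.mul_apply, Fin.sum_univ_two, Pm_00, Pm_01]
    have h4 : ev z g 1 0 = cc g z := rfl
    rw [h4, ← h1]; ring
  have h5 : aa g z - c ≠ 0 := sub_ne_zero.mpr ha
  rw [aa]
  have h6 : ev z (p ++ g) 1 0 = cc (p ++ g) z := rfl
  rw [h6, h2, h3]
  field_simp
  ring

/-- If the product is a stabiliser word then the orbit point is the centre. -/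
theorem aa_of_stb {z X c : ℂ} {p g : List Lt} (hz : z ≠ 0) (hX : X ≠ 0)
    (hp : ev z p = Pm X c) (hs : Stb (p ++ g)) : aa g z = c ∧ ‖cc g z‖ = ‖X‖ := by
  obtain ⟨u, m, hu, h⟩ := hs
  have h1 := h z hz
  rw [ev_append, hp] at h1
  have hu0 : u ≠ 0 := by rintro rfl; simp at hu
  have hsq : Pm X c * Pm X c = -1 := by
    ext i j
    fin_cases i <;> fin_cases j <;>
      simp [Pm, Matrix.mul_apply, Fin.sum_univ_two] <;> field_simp <;> ring
  have h2 : ev z g = -(Pm X c * !![u, m / u; 0, 1 / u]) := by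
    rw [← h1, ← Matrix.mul_assoc, hsq]; simp
  have h00 : ev z g 0 0 = -(X * c * u) := by
    rw [h2, Matrix.neg_apply, Matrix.mul_apply, Fin.sum_univ_two]; simp [Pm]
  have h10 : ev z g 1 0 = -(X * u) := by
    rw [h2, Matrix.neg_apply, Matrix.mul_apply, Fin.sum_univ_two]; simp [Pm]
  constructor
  · rw [aa, h00, h10]; field_simp
  · rw [cc, h10, norm_neg, norm_mul, hu, mul_one]

/-! ## Nonvanishing and centres -/

theorem NZ_of_Ch {w : List Bool} {z : ℂ} (h : Ch w z) : NZ w z := by
  induction w with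
  | nil =>
    obtain ⟨⟨h1, _⟩, _⟩ := h
    rintro rfl
    simp at h1
  | cons b w ih =>
    refine ⟨ih h.1, ?_⟩
    have hA := ADM (b :: w) z h
    intro h0
    have := hA.lo
    rw [h0, norm_zero] at this
    exact absurd this (not_lt.mpr (norm_nonneg _))

theorem NZ.all {w : List Bool} {z : ℂ} (h : NZ w z) :
    z ≠ 0 ∧ Lf w z ≠ 0 ∧ Nf w z ≠ 0 ∧ Rf w z ≠ 0 := by
  induction w with
  | nil =>
    have hz : z ≠ 0 := h
    refine ⟨hz, hz, ?_, ?_⟩
    · simp only [Nf, Tr, root]; exact mul_ne_zero (neg_ne_zero.mpr I_ne_zero) (pow_ne_zero 2 hz)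
    · simp only [Rf, Tr, root]; exact mul_ne_zero (neg_ne_zero.mpr I_ne_zero) hz
  | cons b w ih =>
    obtain ⟨h1, h2, h3, h4⟩ := ih h.1
    cases b with
    | true => exact ⟨h1, h3, h.2, h4⟩
    | false => exact ⟨h1, h2, h.2, h3⟩

theorem Lf_true (w : List Bool) (z : ℂ) : Lf (true :: w) z = Nf w z := rfl
theorem Rf_true (w : List Bool) (z : ℂ) : Rf (true :: w) z = Rf w z := rfl
theorem Nf_true (w : List Bool) (z : ℂ) : Nf (true :: w) z = Nf w z * Rf w z - Lf w z := rfl
theorem Lf_false (w : List Bool) (z : ℂ) : Lf (false :: w) z = Lf w z := rfl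
theorem Rf_false (w : List Bool) (z : ℂ) : Rf (false :: w) z = Nf w z := rfl
theorem Nf_false (w : List Bool) (z : ℂ) : Nf (false :: w) z = Lf w z * Nf w z - Rf w z := rfl
theorem cL_true (w : List Bool) (z : ℂ) : cL (true :: w) z = cN w z := rfl
theorem cR_true (w : List Bool) (z : ℂ) : cR (true :: w) z = cR w z := rfl
theorem cN_true (w : List Bool) (z : ℂ) :
    cN (true :: w) z = cN w z + Rf w z / (Nf w z * Nf (true :: w) z) := rfl
theorem cL_false (w : List Bool) (z : ℂ) : cL (false :: w) z = cL w z := rfl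
theorem cR_false (w : List Bool) (z : ℂ) : cR (false :: w) z = cN w z := rfl
theorem cN_false (w : List Bool) (z : ℂ) :
    cN (false :: w) z = cL w z + Nf w z / (Lf w z * Nf (false :: w) z) := rfl

/-- The steps of the chain. -/
theorem CEN {w : List Bool} {z : ℂ} (h : NZ w z) :
    cN w z - cL w z = Rf w z / (Lf w z * Nf w z) ∧
    cR w z - cN w z = Lf w z / (Nf w z * Rf w z) ∧
    cL w z + 1 - cR w z = Nf w z / (Lf w z * Rf w z) := by
  induction w with
  | nil =>
    have hz : z ≠ 0 := h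
    have hI : I ≠ 0 := I_ne_zero
    simp only [cL, cN, cR, cen, Lf, Nf, Rf, Tr, root]
    refine ⟨?_, ?_, ?_⟩
    · field_simp
      ring
    · field_simp
      linear_combination -I_sq
    · field_simp
      ring
  | cons b w ih =>
    obtain ⟨hz, hL, hN, hR⟩ := h.1.all
    obtain ⟨h1, h2, h3⟩ := ih h.1
    have hM := Mk_Tr w z
    unfold Mk at hM
    cases b with
    | true =>
      have hN' : Nf w z * Rf w z - Lf w z ≠ 0 := h.2
      rw [cN_true, cL_true, cR_true, Lf_true, Rf_true, Nf_true]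
      have e2 : cR w z = cN w z + Lf w z / (Nf w z * Rf w z) := by linear_combination h2
      refine ⟨by ring, ?_, ?_⟩
      · rw [e2]
        field_simp
        linear_combination -hM
      · rw [e2]
        field_simp
        ring
    | false =>
      have hN' : Lf w z * Nf w z - Rf w z ≠ 0 := h.2
      rw [cN_false, cL_false, cR_false, Lf_false, Rf_false, Nf_false]
      have e1 : cN w z = cL w z + Rf w z / (Lf w z * Nf w z) := by linear_combination h1
      refine ⟨by ring, ?_, ?_⟩
      · rw [e1]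
        field_simp
        linear_combination -hM
      · rw [e1]
        field_simp
        ring

/-- Product of two involutions with a translation in between: the involution of the new entry. -/
theorem Pm_prod {A B a b : ℂ} (hA : A ≠ 0) (hB : B ≠ 0) {C c : ℂ}
    (hC : C = A * B * (b + 1 - a)) (hC0 : C ≠ 0) (hc : c = a - B / (A * C))
    (hc2 : c = b + A / (B * C)) :
    Pm A a * (!![1, 1; 0, 1] * Pm B b) = Pm C c := by
  have e1 : C * c = C * a - B / A := by rw [hc]; field_simp
  have e2 : C * c = C * b + A / B := by rw [hc2]; field_simp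
  have h00 : A * a * (B * b + B) + (-A⁻¹ - A * a ^ 2) * B = C * c := by
    rw [e1, hC]; field_simp; ring
  have h10 : A * (B * b + B) + -A * a * B = C := by rw [hC]; ring
  have h11 : A * (-B⁻¹ - B * b ^ 2 + -B * b) + -A * a * (-B * b) = -C * c := by
    have : -C * c = -(C * c) := by ring
    rw [this, e2, hC]; field_simp; ring
  have hdet : (C * c) * (-C * c) - (-C⁻¹ - C * c ^ 2) * C = 1 := by field_simp; ring
  have hdet2 : (A * a * (B * b + B) + (-A⁻¹ - A * a ^ 2) * B) *
      (A * (-B⁻¹ - B * b ^ 2 + -B * b) + -A * a * (-B * b)) -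
      (A * a * (-B⁻¹ - B * b ^ 2 + -B * b) + (-A⁻¹ - A * a ^ 2) * (-B * b)) *
      (A * (B * b + B) + -A * a * B) = 1 := by field_simp; ring
  rw [h00, h11, h10] at hdet2
  have h01 : A * a * (-B⁻¹ - B * b ^ 2 + -B * b) + (-A⁻¹ - A * a ^ 2) * (-B * b)
      = -C⁻¹ - C * c ^ 2 := by
    have := mul_right_cancel₀ hC0 (show
      (A * a * (-B⁻¹ - B * b ^ 2 + -B * b) + (-A⁻¹ - A * a ^ 2) * (-B * b)) * C
        = (-C⁻¹ - C * c ^ 2) * C by linear_combination hdet - hdet2)
    exact this
  ext i j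
  fin_cases i <;> fin_cases j
  · simp only [Pm, Matrix.mul_apply, Fin.sum_univ_two]
    simp
    linear_combination h00
  · simp only [Pm, Matrix.mul_apply, Fin.sum_univ_two]
    simp
    linear_combination h01
  · simp only [Pm, Matrix.mul_apply, Fin.sum_univ_two]
    simp
    linear_combination h10
  · simp only [Pm, Matrix.mul_apply, Fin.sum_univ_two]
    simp
    linear_combination h11

/-- The words `pw w` represent the involutions. -/
theorem ev_pw {w : List Bool} {z : ℂ} (h : NZ w z) :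
    ev z (pw w).L = Pm (Lf w z) (cL w z) ∧ ev z (pw w).N = Pm (Nf w z) (cN w z) ∧
      ev z (pw w).R = Pm (Rf w z) (cR w z) := by
  induction w with
  | nil =>
    have hz : z ≠ 0 := h
    have hI : I ≠ 0 := I_ne_zero
    have hI2 : I * I = -1 := I_mul_I
    simp only [pw, ev_cons, ev_nil, mul_one, cL, cN, cR, cen, Lf, Nf, Rf, Tr, root]
    refine ⟨?_, ?_, ?_⟩
    · ext i j
      fin_cases i <;> fin_cases j <;> simp [lm, Pm]
    · ext i j
      fin_cases i <;> fin_cases j <;>
        simp [lm, Pm, Matrix.mul_apply, Fin.sum_univ_two] <;> field_simp <;>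
        ring_nf <;> simp [I_sq, show I ^ 3 = -I from by rw [pow_succ, I_sq]; ring,
          show I ^ 4 = 1 from I_pow_four] <;> ring
    · ext i j
      fin_cases i <;> fin_cases j <;>
        simp [lm, Pm, Matrix.mul_apply, Fin.sum_univ_two] <;> ring
  | cons b w ih =>
    obtain ⟨hz, hL, hN, hR⟩ := h.1.all
    obtain ⟨p1, p2, p3⟩ := ih h.1
    obtain ⟨h1, h2, h3⟩ := CEN h.1
    obtain ⟨h1', h2', h3'⟩ := CEN h
    cases b with
    | true =>
      have hN' : Nf (true :: w) z ≠ 0 := h.2
      refine ⟨p2, ?_, p3⟩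
      show ev z ((pw w).R ++ .T :: (pw w).N) = _
      rw [ev_append, ev_cons, p2, p3]
      refine Pm_prod hR hN (C := Nf (true :: w) z) ?_ hN' ?_ ?_
      · rw [Nf_true]
        have : cN w z + 1 - cR w z = 1 - Lf w z / (Nf w z * Rf w z) := by
          linear_combination -h2
        rw [this]
        field_simp
      · rw [Lf_true, Rf_true, cR_true] at h2'
        linear_combination (-1) * h2' - (by ring : Nf w z / (Nf (true :: w) z * Rf w z)
          = Nf w z / (Rf w z * Nf (true :: w) z))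
      · rw [cN_true]
    | false =>
      have hN' : Nf (false :: w) z ≠ 0 := h.2
      refine ⟨p1, ?_, p2⟩
      show ev z ((pw w).N ++ .T :: (pw w).L) = _
      rw [ev_append, ev_cons, p1, p2]
      refine Pm_prod hN hL (C := Nf (false :: w) z) ?_ hN' ?_ ?_
      · rw [Nf_false]
        have : cL w z + 1 - cN w z = 1 - Rf w z / (Lf w z * Nf w z) := by
          linear_combination -h1
        rw [this]
        field_simp
      · rw [Lf_false, Rf_false, cR_false] at h2'
        linear_combination (-1) * h2' - (by ring : Lf w z / (Nf (false :: w) z * Nf w z)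
          = Lf w z / (Nf w z * Nf (false :: w) z))
      · rw [cN_false]

end Pool.Agent.M4
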