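import Pool.Agent.helper95.M4.LT4

/-!
# Project M4, block V: consequences of the limit lemmas (compactness modulo integers)
-/

set_option autoImplicit false

namespace Pool.Agent.M4

open Complex ComplexConjugate Topology Filter Metric

section per

variable {X c v : ℤ → ℂ} {d y : ℂ}

theorem Chn.add_one_mem (h : Chn X c v d) (hy : y ∈ Er X c v d) : y + 1 ∈ Er X c v d := by
  obtain ⟨j, ⟨h1, h2⟩, h3, h4⟩ := mem_Er.mp hy
  refine mem_Er.mpr ⟨j + 3, ⟨?_, ?_⟩, ?_, ?_⟩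
  · rw [show j + 3 - 1 = j - 1 + 3 by ring, h.perv, xi_add, xi_add]; linarith
  · rw [h.perv, xi_add, xi_add]; linarith
  · rw [h.perc, dn_add, dn_add]; linarith
  · unfold qd at h4 ⊢
    rw [h.perc, h.perX, show y + 1 - (c j + 1) = y - c j by ring]
    exact h4

theorem Chn.sub_one_mem (h : Chn X c v d) (hy : y ∈ Er X c v d) : y - 1 ∈ Er X c v d := by
  obtain ⟨j, ⟨h1, h2⟩, h3, h4⟩ := mem_Er.mp hy
  have e1 := h.perv (j - 3)
  have e2 := h.perv (j - 3 - 1)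
  have e3 := h.perc (j - 3)
  have e4 := h.perX (j - 3)
  rw [sub_add_cancel] at e1 e3 e4
  rw [show j - 3 - 1 + 3 = j - 1 by ring] at e2
  refine mem_Er.mpr ⟨j - 3, ⟨?_, ?_⟩, ?_, ?_⟩
  · rw [e2, xi_add] at h1; rw [xi_sub]; linarith
  · rw [e1, xi_add] at h2; rw [xi_sub]; linarith
  · rw [e3, dn_add] at h3; rw [dn_sub]; linarith
  · unfold qd at h4 ⊢
    rw [e3, e4] at h4
    rw [show y - 1 - c (j - 3) = y - (c (j - 3) + 1) by ring]
    exact h4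

theorem Chn.add_int_mem (h : Chn X c v d) (hy : y ∈ Er X c v d) (m : ℤ) :
    y + m ∈ Er X c v d := by
  induction m using Int.induction_on with
  | zero => simpa using hy
  | succ n ih =>
    have := h.add_one_mem ih
    push_cast at this ⊢
    rwa [add_assoc] at this
  | pred n ih =>
    have := h.sub_one_mem ih
    push_cast at this ⊢
    rwa [add_sub_assoc] at this

theorem Chn.add_int_iff (h : Chn X c v d) (m : ℤ) : y + m ∈ Er X c v d ↔ y ∈ Er X c v d := by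
  constructor
  · intro hy
    have := h.add_int_mem hy (-m)
    push_cast at this
    rwa [add_neg_cancel_right] at this
  · intro hy
    exact h.add_int_mem hy m

theorem im_coord {d : ℂ} (hd : ‖d‖ = 1) (x : ℂ) : x.im = dn d x * d.im + xi d x * d.re := by
  have h1 : x * conj d * d = x := by
    rw [mul_assoc, mul_comm (conj d), Complex.mul_conj', hd]; simp
  have h2 : x.im = (x * conj d * d).im := by rw [h1]
  rw [h2, mul_im]
  unfold dn xi
  rw [re_conj_I]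

/-- Bounds for a chain. -/
structure CB (X c v : ℤ → ℂ) (d : ℂ) (B : ℝ) : Prop where
  v1 : |xi d (v (-1))| ≤ B
  v0 : |xi d (v 0)| ≤ B
  v2 : |xi d (v 1)| ≤ B
  v3 : |xi d (v 2)| ≤ B
  c0 : |dn d (c 0)| ≤ B
  c1 : |dn d (c 1)| ≤ B
  c2 : |dn d (c 2)| ≤ B
  x0 : 1 ≤ B * ‖X 0‖
  x1 : 1 ≤ B * ‖X 1‖
  x2 : 1 ≤ B * ‖X 2‖

/-- Reduction of the slab index modulo three. -/
theorem Chn.slab3 (h : Chn X c v d) (y : ℂ) : ∃ (m j : ℤ), (j = 0 ∨ j = 1 ∨ j = 2) ∧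
    InS v d j (y + m) := by
  obtain ⟨j, hj⟩ := h.exists_slab y
  have key : ∀ n : ℤ, InS v d (j + 3 * n) (y + n) := by
    intro n
    induction n using Int.induction_on with
    | zero => simpa using hj
    | succ n ih =>
      obtain ⟨h1, h2⟩ := ih
      have e1 := h.perv (j + 3 * n)
      have e2 := h.perv (j + 3 * n - 1)
      rw [show j + 3 * (n : ℤ) - 1 + 3 = j + 3 * ((n : ℤ) + 1) - 1 by ring] at e2
      rw [show j + 3 * (n : ℤ) + 3 = j + 3 * ((n : ℤ) + 1) by ring] at e1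
      have f1 := xi_add d (v (j + 3 * (n : ℤ))) 1
      have f2 := xi_add d (v (j + 3 * (n : ℤ) - 1)) 1
      have f3 := xi_add d (y + ((n : ℤ) : ℂ)) 1
      rw [← e1] at f1
      rw [← e2] at f2
      have e3 : y + (((n : ℤ) + 1 : ℤ) : ℂ) = y + ((n : ℤ) : ℂ) + 1 := by push_cast; ring
      rw [← e3] at f3
      exact ⟨by linarith, by linarith⟩
    | pred n ih =>
      obtain ⟨h1, h2⟩ := ih
      have e1 := h.perv (j + 3 * (-(n : ℤ) - 1))
      have e2 := h.perv (j + 3 * (-(n : ℤ) - 1) - 1)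
      rw [show j + 3 * (-(n : ℤ) - 1) - 1 + 3 = j + 3 * (-(n : ℤ)) - 1 by ring] at e2
      rw [show j + 3 * (-(n : ℤ) - 1) + 3 = j + 3 * (-(n : ℤ)) by ring] at e1
      have f1 := xi_add d (v (j + 3 * (-(n : ℤ) - 1))) 1
      have f2 := xi_add d (v (j + 3 * (-(n : ℤ) - 1) - 1)) 1
      have f3 := xi_add d (y + ((-(n : ℤ) - 1 : ℤ) : ℂ)) 1
      rw [← e1] at f1
      rw [← e2] at f2
      have e3 : y + ((-(n : ℤ) - 1 : ℤ) : ℂ) + 1 = y + ((-(n : ℤ) : ℤ) : ℂ) := by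
        push_cast; ring
      rw [e3] at f3
      exact ⟨by linarith, by linarith⟩
  refine ⟨-(j / 3), j + 3 * (-(j / 3)), ?_, key _⟩
  omega

theorem CB.sl {B : ℝ} (hB : CB X c v d B) {j : ℤ} (hj : j = 0 ∨ j = 1 ∨ j = 2)
    (hs : InS v d j y) : |xi d y| ≤ B ∧ |dn d (c j)| ≤ B ∧ 1 ≤ B * ‖X j‖ := by
  obtain ⟨h1, h2⟩ := hs
  have a1 := abs_le.mp hB.v1
  have a2 := abs_le.mp hB.v0
  have a3 := abs_le.mp hB.v2
  have a4 := abs_le.mp hB.v3
  rcases hj with rfl | rfl | rfl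
  · rw [show (0 : ℤ) - 1 = -1 by ring] at h1
    exact ⟨abs_le.mpr ⟨by linarith, by linarith⟩, hB.c0, hB.x0⟩
  · rw [show (1 : ℤ) - 1 = 0 by ring] at h1
    exact ⟨abs_le.mpr ⟨by linarith, by linarith⟩, hB.c1, hB.x1⟩
  · rw [show (2 : ℤ) - 1 = 1 by ring] at h1
    exact ⟨abs_le.mpr ⟨by linarith, by linarith⟩, hB.c2, hB.x2⟩

theorem Chn.d_bds (h : Chn X c v d) : |d.re| ≤ 1 ∧ 0 < -d.im ∧ -d.im ≤ 1 := by
  have h1 := Complex.abs_re_le_norm d
  have h2 := Complex.abs_im_le_norm d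
  rw [h.d1] at h1 h2
  exact ⟨h1, by linarith [h.dim], by linarith [(abs_le.mp h2).1]⟩

/-- Low points are in the region. -/
theorem Chn.low (h : Chn X c v d) {B : ℝ} (hB : CB X c v d B) (hy : y.im < -(3 * B)) :
    y ∈ Er X c v d := by
  obtain ⟨m, j, hj, hs⟩ := h.slab3 y
  obtain ⟨b1, b2, b3⟩ := hB.sl hj hs
  obtain ⟨d1, d2, d3⟩ := h.d_bds
  have e := im_coord h.d1 (y + m)
  rw [add_im, intCast_im, add_zero] at e
  have hB0 : 0 ≤ B := le_trans (abs_nonneg _) b1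
  have f1 : |xi d (y + m) * d.re| ≤ B := by
    rw [abs_mul]
    nlinarith [abs_nonneg (xi d (y + m)), abs_nonneg d.re]
  have f2 := abs_le.mp f1
  have f3 : 2 * B < dn d (y + m) * (-d.im) := by nlinarith
  have f4 : 0 < dn d (y + m) := by
    by_contra hcon
    have := mul_nonpos_of_nonpos_of_nonneg (not_lt.mp hcon) d2.le
    linarith
  have f5 : 2 * B < dn d (y + m) := by nlinarith
  have f6 := abs_le.mp b2
  have hmem : y + m ∈ Er X c v d := by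
    refine mem_Er.mpr ⟨j, hs, by linarith, ?_⟩
    have g1 : B ≤ ‖y + m - c j‖ := by
      have e1 := norm_sq_coord h.d1 (y + m - c j)
      rw [dn_sub] at e1
      refine le_of_sq_le_sq' ?_ (norm_nonneg _)
      rw [e1]
      nlinarith [sq_nonneg (xi d (y + m - c j))]
    unfold qd
    exact b3.trans (mul_le_mul_of_nonneg_right g1 (norm_nonneg _))
  exact (h.add_int_iff m).mp hmem

/-- The region is bounded above. -/
theorem Chn.upp (h : Chn X c v d) {B : ℝ} (hB : CB X c v d B) (hy : y ∈ Er X c v d) :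
    y.im ≤ 2 * B := by
  obtain ⟨m, j, hj, hs⟩ := h.slab3 y
  obtain ⟨b1, b2, b3⟩ := hB.sl hj hs
  obtain ⟨d1, d2, d3⟩ := h.d_bds
  have e := im_coord h.d1 (y + m)
  rw [add_im, intCast_im, add_zero] at e
  have hB0 : 0 ≤ B := le_trans (abs_nonneg _) b1
  have hb := h.bel_of_mem (h.add_int_mem hy m) hs
  have f6 := abs_le.mp b2
  have f7 := hb.1
  have f1 : |xi d (y + m) * d.re| ≤ B := by
    rw [abs_mul]
    nlinarith [abs_nonneg (xi d (y + m)), abs_nonneg d.re]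
  have f2 := abs_le.mp f1
  nlinarith

end per

section lim

variable {ι : Type*} {l : Filter ι} {X c v : ι → ℤ → ℂ} {d : ι → ℂ} {X0 c0 v0 : ℤ → ℂ} {d0 : ℂ}

theorem Cvg.mono {l' : Filter ι} (h : Cvg l X c v d X0 c0 v0 d0) (hl : l' ≤ l) :
    Cvg l' X c v d X0 c0 v0 d0 :=
  ⟨h.hn.filter_mono hl, h.h0, fun j => (h.tX j).mono_left hl, fun j => (h.tc j).mono_left hl,
    fun j => (h.tv j).mono_left hl, h.td.mono_left hl⟩

theorem Cvg.comp {κ : Type*} {l' : Filter κ} {φ : κ → ι} (h : Cvg l X c v d X0 c0 v0 d0)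
    (hφ : Tendsto φ l' l) : Cvg l' (fun k => X (φ k)) (fun k => c (φ k)) (fun k => v (φ k))
      (fun k => d (φ k)) X0 c0 v0 d0 :=
  ⟨hφ.eventually h.hn, h.h0, fun j => (h.tX j).comp hφ, fun j => (h.tc j).comp hφ,
    fun j => (h.tv j).comp hφ, h.td.comp hφ⟩

theorem Cvg.const (h : ChS X0 c0 v0 d0) : Cvg l (fun _ => X0) (fun _ => c0) (fun _ => v0)
    (fun _ => d0) X0 c0 v0 d0 :=
  ⟨Eventually.of_forall fun _ => h, h, fun _ => tendsto_const_nhds, fun _ => tendsto_const_nhds,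
    fun _ => tendsto_const_nhds, tendsto_const_nhds⟩

/-- Uniform bounds. -/
theorem Cvg.cb (h : Cvg l X c v d X0 c0 v0 d0) :
    ∃ B : ℝ, CB X0 c0 v0 d0 B ∧ ∀ᶠ i in l, CB (X i) (c i) (v i) (d i) B := by
  have tb : ∀ (f : ι → ℝ) (a : ℝ), Tendsto f l (𝓝 a) → ∀ B : ℝ, |a| + 1 ≤ B →
      |a| ≤ B ∧ ∀ᶠ i in l, |f i| ≤ B := by
    intro f a hf B hB
    refine ⟨by linarith, ?_⟩
    filter_upwards [hf.abs.eventually_lt_const (show |a| < |a| + 1 by linarith)] with i hi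
    linarith
  have tx : ∀ j, ∀ B : ℝ, 2 / ‖X0 j‖ ≤ B → 1 ≤ B * ‖X0 j‖ ∧ ∀ᶠ i in l, 1 ≤ B * ‖X i j‖ := by
    intro j B hB
    have h1 : 0 < ‖X0 j‖ := norm_pos_iff.mpr (h.h0.nz j)
    rw [div_le_iff₀ h1] at hB
    refine ⟨by linarith, ?_⟩
    have h2 : Tendsto (fun i => B * ‖X i j‖) l (𝓝 (B * ‖X0 j‖)) := (h.tX j).norm.const_mul B
    filter_upwards [h2.eventually_const_lt (show (1 : ℝ) < B * ‖X0 j‖ by linarith)] with i hi
    exact hi.le
  obtain ⟨B, hB⟩ : ∃ B : ℝ, B = (|xi d0 (v0 (-1))| + 1) + (|xi d0 (v0 0)| + 1) +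
      (|xi d0 (v0 1)| + 1) + (|xi d0 (v0 2)| + 1) + (|dn d0 (c0 0)| + 1) + (|dn d0 (c0 1)| + 1) +
      (|dn d0 (c0 2)| + 1) + 2 / ‖X0 0‖ + 2 / ‖X0 1‖ + 2 / ‖X0 2‖ := ⟨_, rfl⟩
  have p1 : 0 ≤ |xi d0 (v0 (-1))| := abs_nonneg _
  have p2 : 0 ≤ |xi d0 (v0 0)| := abs_nonneg _
  have p3 : 0 ≤ |xi d0 (v0 1)| := abs_nonneg _
  have p4 : 0 ≤ |xi d0 (v0 2)| := abs_nonneg _
  have p5 : 0 ≤ |dn d0 (c0 0)| := abs_nonneg _
  have p6 : 0 ≤ |dn d0 (c0 1)| := abs_nonneg _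
  have p7 : 0 ≤ |dn d0 (c0 2)| := abs_nonneg _
  have p8 : 0 ≤ 2 / ‖X0 0‖ := by positivity
  have p9 : 0 ≤ 2 / ‖X0 1‖ := by positivity
  have p10 : 0 ≤ 2 / ‖X0 2‖ := by positivity
  obtain ⟨a1, b1⟩ := tb _ _ (tendsto_xi h.td (h.tv (-1))) B (by linarith)
  obtain ⟨a2, b2⟩ := tb _ _ (tendsto_xi h.td (h.tv 0)) B (by linarith)
  obtain ⟨a3, b3⟩ := tb _ _ (tendsto_xi h.td (h.tv 1)) B (by linarith)
  obtain ⟨a4, b4⟩ := tb _ _ (tendsto_xi h.td (h.tv 2)) B (by linarith)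
  obtain ⟨a5, b5⟩ := tb _ _ (tendsto_dn h.td (h.tc 0)) B (by linarith)
  obtain ⟨a6, b6⟩ := tb _ _ (tendsto_dn h.td (h.tc 1)) B (by linarith)
  obtain ⟨a7, b7⟩ := tb _ _ (tendsto_dn h.td (h.tc 2)) B (by linarith)
  obtain ⟨a8, b8⟩ := tx 0 B (by linarith)
  obtain ⟨a9, b9⟩ := tx 1 B (by linarith)
  obtain ⟨a10, b10⟩ := tx 2 B (by linarith)
  refine ⟨B, ⟨a1, a2, a3, a4, a5, a6, a7, a8, a9, a10⟩, ?_⟩
  filter_upwards [b1, b2, b3, b4, b5, b6, b7, b8, b9, b10] with i c1 c2 c3 c4 c5 c6 c7 c8 c9 c10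
  exact ⟨c1, c2, c3, c4, c5, c6, c7, c8, c9, c10⟩

/-- The compact rectangle. -/
def Rct (h : ℝ) : Set ℂ := {y : ℂ | (0 ≤ y.re ∧ y.re ≤ 1) ∧ (-h ≤ y.im ∧ y.im ≤ h)}

theorem Rct_compact (h : ℝ) : IsCompact (Rct h) := by
  refine Metric.isCompact_of_isClosed_isBounded ?_ ?_
  · have c1 : IsClosed {y : ℂ | 0 ≤ y.re ∧ y.re ≤ 1} :=
      (isClosed_le continuous_const continuous_re).inter
        (isClosed_le continuous_re continuous_const)
    have c2 : IsClosed {y : ℂ | -h ≤ y.im ∧ y.im ≤ h} :=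
      (isClosed_le continuous_const continuous_im).inter
        (isClosed_le continuous_im continuous_const)
    exact c1.inter c2
  · rw [isBounded_iff_forall_norm_le]
    refine ⟨1 + |h|, ?_⟩
    rintro y ⟨⟨h1, h2⟩, ⟨h3, h4⟩⟩
    refine (Complex.norm_le_abs_re_add_abs_im y).trans ?_
    rw [abs_of_nonneg h1]
    have : |y.im| ≤ |h| := by
      rw [abs_le]
      exact ⟨by linarith [le_abs_self h], by linarith [le_abs_self h]⟩
    linarith

/-- Extraction of a convergent family. -/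
theorem extract {P : ι → ℂ → Prop} {K : Set ℂ} (hK : IsCompact K)
    (h : ∃ᶠ i in l, ∃ y ∈ K, P i y) : ∃ p ∈ K, ∃ (U : Ultrafilter ι) (y : ι → ℂ),
      (U : Filter ι) ≤ l ∧ Tendsto y U (𝓝 p) ∧ ∀ᶠ i in (U : Filter ι), P i (y i) := by
  classical
  obtain ⟨S, hS⟩ : ∃ S : Set ι, S = {i | ∃ y ∈ K, P i y} := ⟨_, rfl⟩
  have hne : (l ⊓ 𝓟 S).NeBot := by
    rw [← frequently_mem_iff_neBot, hS]
    exact h
  obtain ⟨i0, y0, hy0, _⟩ := h.exists
  obtain ⟨y, hy⟩ : ∃ y : ι → ℂ, y = fun i => if h : ∃ y ∈ K, P i y then h.choose else y0 :=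
    ⟨_, rfl⟩
  have hyS : ∀ i ∈ S, y i ∈ K ∧ P i (y i) := by
    intro i hi
    rw [hS] at hi
    have hi' : ∃ y ∈ K, P i y := hi
    have : y i = hi'.choose := by rw [hy]; simp only [dif_pos hi']
    rw [this]
    exact hi'.choose_spec
  have hU := Ultrafilter.of_le (l ⊓ 𝓟 S)
  have hUS : ∀ᶠ i in ((Ultrafilter.of (l ⊓ 𝓟 S) : Ultrafilter ι) : Filter ι), i ∈ S :=
    (le_principal_iff.mp (hU.trans inf_le_right))
  have hmap : ((Ultrafilter.of (l ⊓ 𝓟 S)).map y : Filter ℂ) ≤ 𝓟 K := by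
    rw [le_principal_iff]
    exact hUS.mono fun i hi => (hyS i hi).1
  obtain ⟨p, hp, hp2⟩ := hK.ultrafilter_le_nhds _ hmap
  exact ⟨p, hp, Ultrafilter.of (l ⊓ 𝓟 S), y, hU.trans inf_le_left, hp2,
    hUS.mono fun i hi => (hyS i hi).2⟩

theorem fract_shift (y : ℂ) : 0 ≤ (y + ((-⌊y.re⌋ : ℤ) : ℂ)).re ∧ (y + ((-⌊y.re⌋ : ℤ) : ℂ)).re ≤ 1 ∧
    (y + ((-⌊y.re⌋ : ℤ) : ℂ)).im = y.im := by
  have e1 : (y + ((-⌊y.re⌋ : ℤ) : ℂ)).re = Int.fract y.re := by
    rw [Complex.add_re, Complex.intCast_re, Int.fract]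
    push_cast
    ring
  refine ⟨?_, ?_, by simp⟩
  · rw [e1]; exact Int.fract_nonneg _
  · rw [e1]; exact (Int.fract_lt_one _).le

/-- The nearby regions are close to the limit region. -/
theorem Cvg.near1 (h : Cvg l X c v d X0 c0 v0 d0) {ε : ℝ} (hε : 0 < ε) :
    ∀ᶠ i in l, ∀ y ∈ Er (X i) (c i) (v i) (d i), ∃ y' ∈ Er X0 c0 v0 d0, dist y y' ≤ ε := by
  by_contra hcon
  rw [not_eventually] at hcon
  obtain ⟨B, hB0, hB⟩ := h.cb
  have H := h.h0.toChn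
  have hfr : ∃ᶠ i in l, ∃ y ∈ Rct (3 * B), (y ∈ Er (X i) (c i) (v i) (d i) ∧
      ∀ y' ∈ Er X0 c0 v0 d0, ε < dist y y') := by
    refine (hcon.and_eventually (hB.and h.hn)).mono ?_
    rintro i ⟨h1, h2, h3⟩
    push Not at h1
    obtain ⟨y, hy, hd⟩ := h1
    obtain ⟨s1, s2, s3⟩ := fract_shift y
    have hB1 : 0 ≤ B := le_trans (abs_nonneg _) hB0.v1
    have hd' : ∀ y' ∈ Er X0 c0 v0 d0, ε < dist (y + ((-⌊y.re⌋ : ℤ) : ℂ)) y' := by
      intro y' hy'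
      have := hd _ (H.add_int_mem hy' ⌊y.re⌋)
      rw [dist_eq_norm] at this ⊢
      have e : y + ((-⌊y.re⌋ : ℤ) : ℂ) - y' = y - (y' + (⌊y.re⌋ : ℂ)) := by push_cast; ring
      rw [e]
      exact this
    refine ⟨y + ((-⌊y.re⌋ : ℤ) : ℂ), ⟨⟨s1, s2⟩, ?_, ?_⟩, h3.toChn.add_int_mem hy _, hd'⟩
    · by_contra hc
      have := hd' _ (H.low hB0 (y := y + ((-⌊y.re⌋ : ℤ) : ℂ)) (not_le.mp hc))
      rw [dist_self] at this
      linarith
    · rw [s3]
      have := h3.toChn.upp h2 hy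
      linarith
  obtain ⟨p, _, U, y, hU, hy, hP⟩ := extract (Rct_compact _) hfr
  have hC := h.mono hU
  have hp : p ∈ Er X0 c0 v0 d0 := by
    by_contra hp
    obtain ⟨i, h1, h2, _⟩ := ((hC.closed hy hp).and hP).exists
    exact h1 h2
  obtain ⟨i, h1, _, h2⟩ := ((hy.eventually (Metric.ball_mem_nhds p hε)).and hP).exists
  have := h2 p hp
  have h3 : dist (y i) p < ε := h1
  linarith

/-- The limit region is close to the nearby regions. -/
theorem Cvg.near2 (h : Cvg l X c v d X0 c0 v0 d0) {ε : ℝ} (hε : 0 < ε) :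
    ∀ᶠ i in l, ∀ y ∈ Er X0 c0 v0 d0, ∃ y' ∈ Er (X i) (c i) (v i) (d i), dist y y' ≤ ε := by
  by_contra hcon
  rw [not_eventually] at hcon
  obtain ⟨B, hB0, hB⟩ := h.cb
  have H := h.h0.toChn
  have hfr : ∃ᶠ i in l, ∃ y ∈ Rct (3 * B), (y ∈ Er X0 c0 v0 d0 ∧
      ∀ y' ∈ Er (X i) (c i) (v i) (d i), ε < dist y y') := by
    refine (hcon.and_eventually (hB.and h.hn)).mono ?_
    rintro i ⟨h1, h2, h3⟩
    push Not at h1
    obtain ⟨y, hy, hd⟩ := h1
    obtain ⟨s1, s2, s3⟩ := fract_shift y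
    have hB1 : 0 ≤ B := le_trans (abs_nonneg _) hB0.v1
    have hd' : ∀ y' ∈ Er (X i) (c i) (v i) (d i), ε < dist (y + ((-⌊y.re⌋ : ℤ) : ℂ)) y' := by
      intro y' hy'
      have := hd _ (h3.toChn.add_int_mem hy' ⌊y.re⌋)
      rw [dist_eq_norm] at this ⊢
      have e : y + ((-⌊y.re⌋ : ℤ) : ℂ) - y' = y - (y' + (⌊y.re⌋ : ℂ)) := by push_cast; ring
      rw [e]
      exact this
    refine ⟨y + ((-⌊y.re⌋ : ℤ) : ℂ), ⟨⟨s1, s2⟩, ?_, ?_⟩, H.add_int_mem hy _, hd'⟩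
    · by_contra hc
      have := hd' _ (h3.toChn.low h2 (y := y + ((-⌊y.re⌋ : ℤ) : ℂ)) (not_le.mp hc))
      rw [dist_self] at this
      linarith
    · rw [s3]
      have := H.upp hB0 hy
      linarith
  obtain ⟨p, _, U, y, hU, hy, hP⟩ := extract (Rct_compact _) hfr
  have hC := h.mono hU
  have hp : p ∈ Er X0 c0 v0 d0 := by
    by_contra hp
    obtain ⟨i, h1, h2, _⟩ := (((Cvg.const (l := (U : Filter ι)) h.h0).closed hy hp).and hP).exists
    exact h1 h2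
  -- a point of the interior
  have hq : ∀ᶠ i in (U : Filter ι), p + ((ε / 2 : ℝ) : ℂ) * d0 ∈ Er (X i) (c i) (v i) (d i) := by
    have hε2 : 0 < ε / 2 := by positivity
    obtain ⟨a, b, hJ, _⟩ := hC.slabs (y := fun _ => p + ((ε / 2 : ℝ) : ℂ) * d0) tendsto_const_nhds
    have e1 : ∀ᶠ i in (U : Filter ι), ∀ j ∈ Finset.Ioo a b,
        1 < qd (X i j) (c i j) (p + ((ε / 2 : ℝ) : ℂ) * d0) := by
      rw [Filter.eventually_all_finset]
      intro j hj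
      rw [Finset.mem_Ioo] at hj
      exact (hC.tq (y := fun _ => p + ((ε / 2 : ℝ) : ℂ) * d0) tendsto_const_nhds
        j).eventually_const_lt (H.down hp hε2 ((hJ j).mpr hj)).2
    filter_upwards [e1, hC.mem (y := fun _ => p + ((ε / 2 : ℝ) : ℂ) * d0) tendsto_const_nhds
      fun j hj => (H.down hp hε2 hj).1] with i h1 h2
    exact h2 fun j hj => (h1 j (Finset.mem_Ioo.mpr ((hJ j).mp hj))).le
  obtain ⟨i, h1, ⟨_, h2⟩, h3⟩ := ((hy.eventually (Metric.ball_mem_nhds p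
    (show 0 < ε / 2 by positivity))).and (hP.and hq)).exists
  have h4 := h2 _ h3
  have h5 : dist (y i) p < ε / 2 := h1
  have h6 : dist p (p + ((ε / 2 : ℝ) : ℂ) * d0) = ε / 2 := by
    rw [dist_eq_norm, sub_add_cancel_left, norm_neg, norm_mul, Complex.norm_real, H.d1, mul_one,
      Real.norm_eq_abs, abs_of_pos (by positivity)]
  have h7 := dist_triangle (y i) p (p + ((ε / 2 : ℝ) : ℂ) * d0)
  linarith

/-- LT for points whose distance to the region tends to zero. -/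
theorem Cvg.hit [l.NeBot] (h : Cvg l X c v d X0 c0 v0 d0)
    (nd : ∀ j, v0 (j - 1) = v0 j → v0 j ≠ v0 (j + 1)) {y : ι → ℂ}
    (hy : ∀ᶠ i in l, y i ∉ Er (X i) (c i) (v i) (d i))
    (hd : Tendsto (fun i => infDist (y i) (Er (X i) (c i) (v i) (d i))) l (𝓝 0)) :
    ∃ᶠ i in l, ∃ m : ℤ, HitN (X i) (c i) (v i) (d i) (y i + m) := by
  obtain ⟨B, hB0, hB⟩ := h.cb
  have H := h.h0.toChn
  have hlt : ∀ δ : ℝ, 0 < δ → ∀ᶠ i in l, ∃ x ∈ Er (X i) (c i) (v i) (d i), dist (y i) x < δ := by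
    intro δ hδ
    filter_upwards [hd.eventually_lt_const hδ, h.hn] with i h1 h2
    exact (infDist_lt_iff ⟨_, h2.toChn.vk_mem 0⟩).mp h1
  by_contra hcon
  rw [not_frequently] at hcon
  have hfr : ∃ᶠ i in l, ∃ x ∈ Rct (3 * B + 1), (∃ m : ℤ, x = y i + m) := by
    have hall : ∀ᶠ i in l, ∃ x ∈ Rct (3 * B + 1), (∃ m : ℤ, x = y i + m) := by
      filter_upwards [hy, hlt 1 one_pos, hB, h.hn] with i h1 h2 h3 h4
      obtain ⟨s1, s2, s3⟩ := fract_shift (y i)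
      have hB1 : 0 ≤ B := le_trans (abs_nonneg _) hB0.v1
      refine ⟨y i + ((-⌊(y i).re⌋ : ℤ) : ℂ), ⟨⟨s1, s2⟩, ?_, ?_⟩, _, rfl⟩
      · rw [s3]
        by_contra hc
        refine h1 (h4.toChn.low h3 ?_)
        linarith [not_le.mp hc]
      · rw [s3]
        obtain ⟨x, hx, hdx⟩ := h2
        have g1 := h4.toChn.upp h3 hx
        have g2 := Complex.abs_im_le_norm (y i - x)
        rw [← dist_eq_norm, sub_im] at g2
        have g3 := (abs_le.mp g2).2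
        linarith
    exact hall.frequently
  obtain ⟨p, _, U, x, hU, hx, hP⟩ := extract (Rct_compact _) hfr
  have hC := h.mono hU
  have hp : p ∈ Er X0 c0 v0 d0 := by
    by_contra hp
    have h1 : Cvg ((U : Filter ι) ×ˢ 𝓝 p) (fun q : ι × ℂ => X q.1) (fun q => c q.1)
        (fun q => v q.1) (fun q => d q.1) X0 c0 v0 d0 := hC.comp tendsto_fst
    have h2 := h1.closed (y := fun q : ι × ℂ => q.2) tendsto_snd hp
    rw [eventually_prod_iff] at h2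
    obtain ⟨pa, ha, pb, hb, hab⟩ := h2
    obtain ⟨δ, hδ, hball⟩ := Metric.eventually_nhds_iff_ball.mp hb
    have h3 : ∀ᶠ i in (U : Filter ι), dist (x i) p < δ / 2 :=
      hx.eventually (Metric.ball_mem_nhds p (show 0 < δ / 2 by positivity))
    obtain ⟨i, g1, g2, g3, g4, g5⟩ := (ha.and (h3.and (hP.and
      (((hlt (δ / 2) (by positivity)).filter_mono hU).and hC.hn)))).exists
    obtain ⟨m, hm⟩ := g3
    obtain ⟨u, hu, hdu⟩ := g4
    have k1 : dist (u + m) p < δ := by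
      have k2 : dist (u + m) (x i) < δ / 2 := by
        rw [hm, dist_add_right, dist_comm]; exact hdu
      have := dist_triangle (u + m) (x i) p
      linarith
    exact hab g1 (hball _ k1) (g5.toChn.add_int_mem hu m)
  obtain ⟨i, g1, g2, g3, g4, g5⟩ := ((hC.LT nd hx hp).and (hP.and ((hcon.filter_mono hU).and
    ((hy.filter_mono hU).and hC.hn)))).exists
  obtain ⟨m, hm⟩ := g2
  rw [hm] at g1
  exact g3 ⟨m, g1 fun hmem => g4 ((g5.toChn.add_int_iff m).mp hmem)⟩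

end lim

end Pool.Agent.M4
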