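import Pool.Agent.helper95.M4.Asm
import Pool.Agent.helper66.M4.VPP
import Pool.Agent.helper49.M4F.FAIL2
import Pool.Agent.helper47.M4F.LC1b

/-!
# Project M4: the assembly, everything but the two real rows R1, R2
-/

set_option autoImplicit false

namespace Pool.Agent.M4

/-- The inclusion, from the two real rows. -/
theorem main_of_rows (R1 : Cov.R1_stmt) (R2 : Cov.R2_stmt) :
    Pool.Agent.FZ.hoppingSpectrum ⊆ Pool.Agent.FZ.periodicPart :=
  main_of (M4F.FAIL_of2 M4F.LC1b R1 R2) PP_V

end Pool.Agent.M4
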