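import Pool.Agent.helper95.M4.Defs

/-! Sanity checks of the definitions of project M4. -/

set_option autoImplicit false

namespace Pool.Agent.M4

open Complex ComplexConjugate

theorem Mk_root (z : ℂ) : Mk (root z).L (root z).N (root z).R := by
  simp only [Mk, root]
  ring_nf
  simp only [I_sq]
  ring

theorem Mk_dropL {t : Tri} (h : Mk t.L t.N t.R) : Mk (dropL t).L (dropL t).N (dropL t).R := by
  simp only [Mk, dropL] at h ⊢
  linear_combination h

theorem Mk_dropR {t : Tri} (h : Mk t.L t.N t.R) : Mk (dropR t).L (dropR t).N (dropR t).R := by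
  simp only [Mk, dropR] at h ⊢
  linear_combination h

theorem Mk_Tr (w : List Bool) (z : ℂ) : Mk (Lf w z) (Nf w z) (Rf w z) := by
  induction w with
  | nil => exact Mk_root z
  | cons b w ih =>
    cases b with
    | true => exact Mk_dropL ih
    | false => exact Mk_dropR ih

theorem Adm_root {z : ℂ} (hz : z ∈ Qd) (h2 : ‖z‖ < 2) : Adm (root z).L (root z).N (root z).R := by
  obtain ⟨h0, h1⟩ := hz
  have hz0 : z ≠ 0 := by rintro rfl; simp at h0
  have hn : 0 < ‖z‖ := norm_pos_iff.mpr hz0
  refine ⟨h0, h1, ?_, ?_, ?_, ?_, ?_⟩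
  · simp [root]; exact h1
  · simp [root]; exact h0
  · simp [root]; nlinarith
  · have e : z - I * (-I * z) = 0 := by linear_combination (I_sq) * z
    simp only [root]
    rw [e, norm_zero, norm_mul, norm_pow, norm_neg, norm_I, one_mul]
    positivity
  · have e : z + I * (-I * z) = 2 * z := by linear_combination (-I_sq) * z
    simp only [root]
    rw [e, norm_mul, norm_mul, norm_pow, norm_neg, norm_I, one_mul, Complex.norm_ofNat]
    nlinarith

end Pool.Agent.M4
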