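import Pool.Agent.helper95.M4.LT5
import Pool.Agent.helper66.M4.V5

/-!
# Project M4, block V: the properties of the region from the data of the corners and directions
-/

set_option autoImplicit false

namespace Pool.Agent.M4

open Complex ComplexConjugate Topology Filter Metric

/-- The properties of the corners and of the direction at a limit of top points of the word `w`. -/
structure VLim (vs : List Bool → ℂ → ℤ → ℂ) (ds : List Bool → ℂ → ℂ) (w : List Bool) (z0 : ℂ) :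
    Prop where
  nz : NZ w z0
  chs : ChS (Xs w z0) (cs w z0) (vs w z0) (ds w z0)
  nd : ∀ j, vs w z0 (j - 1) = vs w z0 j → vs w z0 j ≠ vs w z0 (j + 1)
  tv : ∀ j, Tendsto (fun z => vs w z j) (𝓝[{z | InT w z}] z0) (𝓝 (vs w z0 j))
  td : Tendsto (fun z => ds w z) (𝓝[{z | InT w z}] z0) (𝓝 (ds w z0))

/-- The properties of the corners and of the direction (V2). -/
structure VHyp (vs : List Bool → ℂ → ℤ → ℂ) (ds : List Bool → ℂ → ℂ) : Prop where
  lim : ∀ w0 z0, InT w0 z0 → ∀ w, (∃ᶠ z in 𝓝 z0, InT w z) → VLim vs ds w z0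
  er : ∀ w0 z0, InT w0 z0 → ∀ w, (∃ᶠ z in 𝓝 z0, InT w z) →
    Er (Xs w z0) (cs w z0) (vs w z0) (ds w z0) = Er (Xs w0 z0) (cs w0 z0) (vs w0 z0) (ds w0 z0)

/-- The region. -/
def EE (vs : List Bool → ℂ → ℤ → ℂ) (ds : List Bool → ℂ → ℂ) (w : List Bool) (z : ℂ) : Set ℂ :=
  Er (Xs w z) (cs w z) (vs w z) (ds w z)

variable {vs : List Bool → ℂ → ℤ → ℂ} {ds : List Bool → ℂ → ℂ}

theorem freq_self {w : List Bool} {z : ℂ} (h : InT w z) : ∃ᶠ y in 𝓝 z, InT w y := by
  intro hcon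
  exact hcon.self_of_nhds h

theorem VHyp.chn (hV : VHyp vs ds) {w : List Bool} {z : ℂ} (h : InT w z) :
    ChS (Xs w z) (cs w z) (vs w z) (ds w z) := (hV.lim w z h w (freq_self h)).chs

theorem Xs_cont (w : List Bool) (j : ℤ) : Continuous (fun z => Xs w z j) := by
  obtain ⟨dL, dN, dR⟩ := Diff_Tr w
  rcases mod3 j with ⟨a, rfl⟩ | ⟨a, rfl⟩ | ⟨a, rfl⟩
  · simp only [Xs_0]; exact dL.continuous
  · simp only [Xs_1]; exact dN.continuous
  · simp only [Xs_2]; exact dR.continuous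

theorem cs_cont {w : List Bool} {z : ℂ} (h : NZ w z) (j : ℤ) :
    ContinuousAt (fun z => cs w z j) z := by
  obtain ⟨h1, h2, h3⟩ := cen_cont h
  rcases mod3 j with ⟨a, rfl⟩ | ⟨a, rfl⟩ | ⟨a, rfl⟩
  · simp only [cs_0]; exact h1.add continuousAt_const
  · simp only [cs_1]; exact h2.add continuousAt_const
  · simp only [cs_2]; exact h3.add continuousAt_const

/-- Convergence of the chains. -/
theorem VHyp.cvg (hV : VHyp vs ds) {z0 : ℂ} {w : List Bool}
    (hL : VLim vs ds w z0) :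
    Cvg (𝓝[{z | InT w z}] z0) (fun z => Xs w z) (fun z => cs w z) (fun z => vs w z)
      (fun z => ds w z) (Xs w z0) (cs w z0) (vs w z0) (ds w z0) where
  hn := by
    filter_upwards [self_mem_nhdsWithin] with z hz
    exact hV.chn hz
  h0 := hL.chs
  tX := fun j => ((Xs_cont w j).tendsto z0).mono_left nhdsWithin_le_nhds
  tc := fun j => (cs_cont hL.nz j).tendsto.mono_left nhdsWithin_le_nhds
  tv := hL.tv
  td := hL.td

/-- The involutions are words. -/
theorem word_iv {w : List Bool} {z : ℂ} (h : NZ w z) (k : ℤ) :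
    ∃ p : List Lt, ev z p = Pm (Xs w z k) (cs w z k) := by
  obtain ⟨h1, h2, h3⟩ := ev_pw h
  rcases mod3 k with ⟨a, rfl⟩ | ⟨a, rfl⟩ | ⟨a, rfl⟩
  · rw [Xs_0, cs_0]; exact ⟨_, ev_shw h1 a⟩
  · rw [Xs_1, cs_1]; exact ⟨_, ev_shw h2 a⟩
  · rw [Xs_2, cs_2]; exact ⟨_, ev_shw h3 a⟩

theorem Xs_ne {w : List Bool} {z : ℂ} (h : NZ w z) (k : ℤ) : Xs w z k ≠ 0 := by
  obtain ⟨_, h1, h2, h3⟩ := h.all
  rcases mod3 k with ⟨a, rfl⟩ | ⟨a, rfl⟩ | ⟨a, rfl⟩
  · rw [Xs_0]; exact h1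
  · rw [Xs_1]; exact h2
  · rw [Xs_2]; exact h3

/-- `Hit` before an involution. -/
theorem Hit.iv {w : List Bool} {z y : ℂ} {S : Set ℂ} (h : NZ w z) {k : ℤ} (hy : y ≠ cs w z k)
    (hh : Hit z S (iv (Xs w z k) (cs w z k) y)) : Hit z S y := by
  obtain ⟨p, hp⟩ := word_iv h k
  obtain ⟨g, hg1, hg2⟩ := hh
  have hX := Xs_ne h k
  have hy' := sub_ne_zero.mpr hy
  have e1 : (Xs w z k * y + -Xs w z k * cs w z k) = Xs w z k * (y - cs w z k) := by ring
  have hD : Xs w z k * (y - cs w z k) ≠ 0 := mul_ne_zero hX hy'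
  have e2 : M4.iv (Xs w z k) (cs w z k) y = (Xs w z k * cs w z k * y +
      (-(Xs w z k)⁻¹ - Xs w z k * cs w z k ^ 2)) / (Xs w z k * (y - cs w z k)) := by
    unfold M4.iv
    field_simp
    ring
  have d1 : ev z (g ++ p) 1 0 * y + ev z (g ++ p) 1 1 =
      (ev z g 1 0 * M4.iv (Xs w z k) (cs w z k) y + ev z g 1 1) *
        (Xs w z k * (y - cs w z k)) := by
    rw [ev_append, hp, Matrix.mul_apply, Matrix.mul_apply, Fin.sum_univ_two, Fin.sum_univ_two,
      Pm_00, Pm_01, Pm_10, Pm_11, e2]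
    field_simp
    ring
  have d2 : ev z (g ++ p) 0 0 * y + ev z (g ++ p) 0 1 =
      (ev z g 0 0 * M4.iv (Xs w z k) (cs w z k) y + ev z g 0 1) *
        (Xs w z k * (y - cs w z k)) := by
    rw [ev_append, hp, Matrix.mul_apply, Matrix.mul_apply, Fin.sum_univ_two, Fin.sum_univ_two,
      Pm_00, Pm_01, Pm_10, Pm_11, e2]
    field_simp
    ring
  refine ⟨g ++ p, ?_, ?_⟩
  · rw [d1]; exact mul_ne_zero hg1 hD
  · rw [d1, d2, mul_div_mul_right _ _ hD]
    exact hg2

/-- `Hit` before a translation. -/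
theorem Hit.tr {z y : ℂ} {S : Set ℂ} (m : ℤ) (hh : Hit z S (y + m)) : Hit z S y := by
  obtain ⟨g, hg1, hg2⟩ := hh
  have d1 : ev z (g ++ Tw m) 1 0 * y + ev z (g ++ Tw m) 1 1 =
      ev z g 1 0 * (y + m) + ev z g 1 1 := by
    rw [ev_append, ev_Tw, Matrix.mul_apply, Matrix.mul_apply, Fin.sum_univ_two,
      Fin.sum_univ_two]
    simp
    ring
  have d2 : ev z (g ++ Tw m) 0 0 * y + ev z (g ++ Tw m) 0 1 =
      ev z g 0 0 * (y + m) + ev z g 0 1 := by
    rw [ev_append, ev_Tw, Matrix.mul_apply, Matrix.mul_apply, Fin.sum_univ_two,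
      Fin.sum_univ_two]
    simp
    ring
  refine ⟨g ++ Tw m, ?_, ?_⟩
  · rw [d1]; exact hg1
  · rw [d1, d2]; exact hg2

theorem Hit.self {z y : ℂ} {S : Set ℂ} (h : y ∈ S) : Hit z S y := by
  refine ⟨[], ?_, ?_⟩
  · rw [ev_nil]; simp
  · rw [ev_nil]; simpa using h

theorem Hit_of_HitN {w : List Bool} {z y : ℂ} (h : NZ w z)
    (hh : HitN (Xs w z) (cs w z) (vs w z) (ds w z) y) : Hit z (EE vs ds w z) y := by
  rcases hh with ⟨k, h1, h2⟩ | ⟨k, h1, h2, h3⟩
  · exact Hit.iv h h1 (Hit.self h2)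
  · refine Hit.iv h h1 (Hit.tr 1 ?_)
    rw [Int.cast_one]
    exact Hit.iv h h2 (Hit.self h3)

/-- **EHyp for the concrete region.** -/
theorem VHyp.ehyp (hV : VHyp vs ds) : EHyp (EE vs ds) where
  cov := fun w z hw y hy hE => by
    by_contra hU
    exact hE (COV hw.1 (hV.chn hw).toChn hU hy)
  low := fun w z hw => by
    obtain ⟨B, hB, _⟩ := (Cvg.const (l := (pure () : Filter Unit)) (hV.chn hw)).cb
    exact ⟨3 * B, fun y hy => (hV.chn hw).toChn.low hB hy⟩
  lt := by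
    intro w0 z0 h0 w u y hu hw hy hd
    have hu' : Tendsto u atTop (𝓝[{z | InT w z}] z0) :=
      tendsto_nhdsWithin_iff.mpr ⟨hu, Eventually.of_forall hw⟩
    have hfr : ∃ᶠ z in 𝓝 z0, InT w z := hu.frequently (Eventually.of_forall hw).frequently
    have hL := hV.lim w0 z0 h0 w hfr
    have hC := (hV.cvg hL).comp hu'
    obtain ⟨n, m, hn⟩ := (hC.hit hL.nd (Eventually.of_forall hy) hd).exists
    exact ⟨n, Hit.tr m (Hit_of_HitN (NZ_of_Ch (hw n).1) hn)⟩
  cont1 := by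
    intro w0 z0 h0 ε hε
    have key : ∀ w, ∀ᶠ z in 𝓝 z0, InT w z → ∀ y ∈ EE vs ds w z, ∃ y' ∈ EE vs ds w0 z0,
        dist y y' ≤ ε := by
      intro w
      by_cases hfr : ∃ᶠ z in 𝓝 z0, InT w z
      · have hL := hV.lim w0 z0 h0 w hfr
        have h1 := (hV.cvg hL).near1 hε
        rw [hV.er w0 z0 h0 w hfr, eventually_nhdsWithin_iff] at h1
        exact h1
      · rw [not_frequently] at hfr
        filter_upwards [hfr] with z hz h
        exact absurd h hz
    filter_upwards [InT_near h0, key w0, key (true :: w0), key (false :: w0)] with z h1 h2 h3 h4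
    intro w hw
    rcases h1 w hw with rfl | ⟨rfl, _⟩ | ⟨rfl, _⟩
    · exact h2 hw
    · exact h3 hw
    · exact h4 hw
  cont2 := by
    intro w0 z0 h0 ε hε
    have key : ∀ w, ∀ᶠ z in 𝓝 z0, InT w z → ∀ y ∈ EE vs ds w0 z0, ∃ y' ∈ EE vs ds w z,
        dist y y' ≤ ε := by
      intro w
      by_cases hfr : ∃ᶠ z in 𝓝 z0, InT w z
      · have hL := hV.lim w0 z0 h0 w hfr
        have h1 := (hV.cvg hL).near2 hε
        rw [hV.er w0 z0 h0 w hfr, eventually_nhdsWithin_iff] at h1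
        exact h1
      · rw [not_frequently] at hfr
        filter_upwards [hfr] with z hz h
        exact absurd h hz
    filter_upwards [InT_near h0, key w0, key (true :: w0), key (false :: w0)] with z h1 h2 h3 h4
    intro w hw
    rcases h1 w hw with rfl | ⟨rfl, _⟩ | ⟨rfl, _⟩
    · exact h2 hw
    · exact h3 hw
    · exact h4 hw

end Pool.Agent.M4
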