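import Pool.Agent.helper95.M4.Chk
import Pool.Agent.helper30.FZ.Main
import Pool.Agent.helper81.FZ.SpecBP

/-!
# Project M4: assembly.  The interfaces of the blocks are the definitions `XX_stmt`; the theorem
`finalM4` deduces `Sigma = Sigma_pi` from them.
-/

set_option autoImplicit false

namespace Pool.Agent.M4

open Complex ComplexConjugate Pool.Agent.FZ Topology Filter

/-! ## Interfaces -/

/-- The pointwise hypothesis on `z` used by the local lemmas: no Farey polynomial is smaller than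
one, and none of them takes a value in the real segment `[-2, 2]`. -/
structure Good (z : ℂ) : Prop where
  q : z ∈ Qd
  lt : ‖z‖ < 2
  one : 1 ≤ ‖z‖
  big : ∀ w, 1 ≤ ‖Nf w z‖
  nonreal : ∀ w, (Nf w z).im = 0 → 2 < |(Nf w z).re|

/-- (block VI, WORD + REAL) Farey polynomials are words. -/
def GOOD_stmt : Prop := ∀ z ∈ Qd, ‖z‖ < 2 → z ∉ periodicPart → Good z

/-- (block I, Lemma 1 along the chain.) -/
def ADM_stmt : Prop := ∀ w z, Ch w z → Adm (Lf w z) (Nf w z) (Rf w z)

/-- (block I, RULE, left) -/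
def RULEL_stmt : Prop := ∀ L N R : ℂ, Mk L N R → Adm L N R → 0 < N.im → 0 < (N * conj R).re →
  ‖L‖ ≤ ‖N - I * R‖ → Top L N R

/-- (block I, RULE, right) -/
def RULER_stmt : Prop := ∀ L N R : ℂ, Mk L N R → Adm L N R → N.im < 0 → 0 < (L * conj N).re →
  ‖R‖ ≤ ‖L - I * N‖ → Top L N R

/-- (block I, REAL) -/
def REAL_stmt : Prop := ∀ L N R : ℂ, Mk L N R → Adm L N R → N.im = 0 → 2 < |N.re| → Top L N R

/-- (block I) the set of top points is open. -/
def OPEN_stmt : Prop := IsOpen TT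

/-- (block II, FAIL lemma) -/
def FAIL_stmt : Prop := ∀ w z, Good z → Ch w z →
  ¬ FailL (Nf w z) (Rf w z) ∧ ¬ FailR (Lf w z) (Nf w z)

/-- (block III, no infinite chain) -/
def INF_stmt : Prop := ∀ (U : Set ℂ) (z : ℂ), IsOpen U → z ∈ U → (∀ y ∈ U, Good y) →
  ¬ ∀ n : ℕ, ∃ w : List Bool, w.length = n ∧ Ch w z

/-- (block IV) -/
def CLOPEN_stmt : Prop := ∀ B : Set ℂ, B ⊆ TT → IsOpen B → closure B ∩ TT ⊆ B →
  (∀ z ∈ closure B, z ∈ Qd → ‖z‖ ≠ 2) → B = ∅

/-- (block V) the strong property of the orbit, `P`, is open and closed in `TT`, holds near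
`‖z‖ = 2` and implies `PPc`. -/
structure PP_stmt (P : ℂ → Prop) : Prop where
  opn : ∀ z ∈ TT, P z → ∀ᶠ y in 𝓝 z, y ∈ TT → P y
  cls : ∀ z ∈ TT, (∃ᶠ y in 𝓝 z, y ∈ TT ∧ P y) → P z
  base : ∀ z ∈ Qd, ‖z‖ = 2 → ∀ᶠ y in 𝓝 z, y ∈ TT → P y
  ppc : ∀ z ∈ TT, P z → PPc z

/-- (block VI) no periodic point where the group is nice. -/
def END_stmt : Prop := ∀ U : Set ℂ, IsOpen U → (∀ y ∈ U, y ∈ Qd ∧ PPc y) →
  ∀ y ∈ U, y ∉ periodicPart

/-- (block VI) numerical range -/
def WIDE_stmt : Prop := ∀ z : ℂ, 2 < |z.re| + |z.im| → z ∉ periodicPart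

/-- (block VI) symmetries -/
def SYM_stmt : Prop := (∀ z : ℂ, z ∈ periodicPart → -z ∈ periodicPart) ∧
  ∀ z : ℂ, z ∈ periodicPart → conj z ∈ periodicPart

/-! ## Assembly -/

/-- One step of the algorithm. -/
theorem step_alg (hadm : ADM_stmt) (hl : RULEL_stmt) (hr : RULER_stmt) (hreal : REAL_stmt)
    (hf : FAIL_stmt) {w : List Bool} {z : ℂ} (hg : Good z) (hc : Ch w z) (hT : z ∉ TT) :
    ∃ b, Ch (b :: w) z := by
  have hA := hadm w z hc
  have hM := Mk_Tr w z
  have hnT : ¬ Top (Lf w z) (Nf w z) (Rf w z) := fun h => hT ⟨w, hc, h⟩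
  rcases lt_trichotomy (Nf w z).im 0 with h | h | h
  · refine ⟨false, hc, h, ?_, ?_⟩
    · by_contra hcon
      exact (hf w z hg hc).2 ⟨h, not_lt.mp hcon⟩
    · by_contra hcon
      refine hnT (hr _ _ _ hM hA h ?_ (not_lt.mp hcon))
      by_contra hcon2
      exact (hf w z hg hc).2 ⟨h, not_lt.mp hcon2⟩
  · exact absurd (hreal _ _ _ hM hA h (hg.nonreal w h)) hnT
  · refine ⟨true, hc, h, ?_, ?_⟩
    · by_contra hcon
      exact (hf w z hg hc).1 ⟨h, not_lt.mp hcon⟩
    · by_contra hcon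
      refine hnT (hl _ _ _ hM hA h ?_ (not_lt.mp hcon))
      by_contra hcon2
      exact (hf w z hg hc).1 ⟨h, not_lt.mp hcon2⟩

/-- Every point of the small quadrant outside the periodic part is a top point. -/
theorem alg (hG : GOOD_stmt) (hadm : ADM_stmt) (hl : RULEL_stmt) (hr : RULER_stmt)
    (hreal : REAL_stmt) (hf : FAIL_stmt) (hinf : INF_stmt) {z : ℂ} (hz : z ∈ Qd)
    (h2 : ‖z‖ < 2) (hp : z ∉ periodicPart) : z ∈ TT := by
  by_contra hT
  have hop : IsOpen (periodicPartᶜ ∩ (Qd ∩ Metric.ball (0 : ℂ) 2)) := by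
    refine isClosed_closure.isOpen_compl.inter (IsOpen.inter ?_ Metric.isOpen_ball)
    exact (isOpen_lt continuous_const continuous_re).inter
      (isOpen_lt continuous_const continuous_im)
  refine hinf _ z hop ⟨hp, hz, by simpa using h2⟩ (fun y hy => hG y hy.2.1 ?_ hy.1) ?_
  · simpa using hy.2.2
  intro n
  induction n with
  | zero => exact ⟨[], rfl, hz, h2⟩
  | succ n ih =>
    obtain ⟨w, hw, hc⟩ := ih
    obtain ⟨b, hb⟩ := step_alg hadm hl hr hreal hf (hG z hz h2 hp) hc hT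
    exact ⟨b :: w, by simp [hw], hb⟩

/-- The strong property holds on all of `TT`. -/
theorem pp_all (ho : OPEN_stmt) (hcl : CLOPEN_stmt) {P : ℂ → Prop} (hP : PP_stmt P) :
    ∀ z ∈ TT, P z := by
  have hB : {z : ℂ | z ∈ TT ∧ ¬ P z} = ∅ := by
    refine hcl _ (fun z hz => hz.1) ?_ ?_ ?_
    · rw [isOpen_iff_mem_nhds]
      rintro z ⟨hz, hnP⟩
      have h1 : ¬ ∃ᶠ y in 𝓝 z, y ∈ TT ∧ P y := fun h => hnP (hP.cls z hz h)
      rw [not_frequently] at h1
      filter_upwards [h1, ho.mem_nhds hz] with y hy hyT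
      exact ⟨hyT, fun h => hy ⟨hyT, h⟩⟩
    · rintro z ⟨hzc, hz⟩
      refine ⟨hz, fun h => ?_⟩
      have h1 := hP.opn z hz h
      obtain ⟨y, hy, hyB⟩ := (mem_closure_iff_frequently.mp hzc).and_eventually h1 |>.exists
      exact hy.2 (hyB hy.1)
    · intro z hzc hq h2
      have h1 := hP.base z hq h2
      obtain ⟨y, hy, hyB⟩ := (mem_closure_iff_frequently.mp hzc).and_eventually h1 |>.exists
      exact hy.2 (hyB hy.1)
  intro z hz
  by_contra h
  have : z ∈ {z : ℂ | z ∈ TT ∧ ¬ P z} := ⟨hz, h⟩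
  rw [hB] at this
  exact this

theorem Ch_Qd {w : List Bool} {z : ℂ} (h : Ch w z) : z ∈ Qd ∧ ‖z‖ < 2 := by
  induction w with
  | nil => exact h
  | cons b w ih => exact ih h.1

theorem TT_sub {z : ℂ} (h : z ∈ TT) : z ∈ Qd ∧ ‖z‖ < 2 := by
  obtain ⟨w, hw⟩ := h
  exact Ch_Qd hw.1

/-- No point of `TT` lies in the periodic part. -/
theorem tt_disj (ho : OPEN_stmt) (hcl : CLOPEN_stmt) {P : ℂ → Prop} (hP : PP_stmt P)
    (he : END_stmt) : ∀ z ∈ TT, z ∉ periodicPart :=
  he TT ho fun y hy => ⟨(TT_sub hy).1, hP.ppc y hy (pp_all ho hcl hP y hy)⟩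

/-- The wide part of the quadrant. -/
def Wd : Set ℂ := {z : ℂ | 0 < z.re ∧ 0 < z.im ∧ 2 < z.re + z.im}

theorem Wd_convex : Convex ℝ Wd := by
  have e : Wd = {z : ℂ | 0 < Complex.reCLM z} ∩ ({z : ℂ | 0 < Complex.imCLM z} ∩
      {z : ℂ | 2 < (Complex.reCLM + Complex.imCLM) z}) := by
    ext z; simp [Wd]
  rw [e]
  exact (convex_halfSpace_gt Complex.reCLM.isLinear 0).inter
    ((convex_halfSpace_gt Complex.imCLM.isLinear 0).inter
      (convex_halfSpace_gt (Complex.reCLM + Complex.imCLM).isLinear 2))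

theorem Wd_unbounded : ¬ Bornology.IsBounded Wd := by
  intro h
  obtain ⟨C, hC⟩ := h.exists_norm_le
  have h1 : (⟨|C| + 2, 1⟩ : ℂ) ∈ Wd := by
    refine ⟨?_, ?_, ?_⟩
    · show (0 : ℝ) < |C| + 2
      positivity
    · show (0 : ℝ) < 1
      norm_num
    · show (2 : ℝ) < |C| + 2 + 1
      linarith [abs_nonneg C]
  have h2 := hC _ h1
  have h3 := Complex.abs_re_le_norm (⟨|C| + 2, 1⟩ : ℂ)
  have h4 : |(|C| + 2)| ≤ C := le_trans h3 h2
  rw [abs_of_nonneg (by positivity)] at h4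
  linarith [le_abs_self C]

theorem Wd_disj (hw : WIDE_stmt) : Wd ⊆ periodicPartᶜ := by
  rintro z ⟨h1, h2, h3⟩
  exact hw z (by rw [abs_of_pos h1, abs_of_pos h2]; exact h3)

theorem Wd_of_norm {z : ℂ} (hz : z ∈ Qd) (h : 2 ≤ ‖z‖) : z ∈ Wd := by
  obtain ⟨h1, h2⟩ := hz
  refine ⟨h1, h2, ?_⟩
  have e : ‖z‖ ^ 2 = z.re ^ 2 + z.im ^ 2 := by
    rw [← Complex.normSq_eq_norm_sq, Complex.normSq_apply]; ring
  have : 4 ≤ z.re ^ 2 + z.im ^ 2 := by rw [← e]; nlinarith
  nlinarith [mul_pos h1 h2]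

/-- A component of the complement of the periodic part which meets the wide part of the quadrant
is unbounded. -/
theorem comp_wd (hw : WIDE_stmt) {z y : ℂ} (hy : y ∈ connectedComponentIn periodicPartᶜ z)
    (hyW : y ∈ Wd) : ¬ Bornology.IsBounded (connectedComponentIn periodicPartᶜ z) := by
  intro hb
  rw [connectedComponentIn_eq hy] at hb
  exact Wd_unbounded (hb.subset
    (Wd_convex.isPreconnected.subset_connectedComponentIn hyW (Wd_disj hw)))

/-- No bounded component of the complement of the periodic part meets the open quadrant. -/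
theorem no_bounded (hG : GOOD_stmt) (hadm : ADM_stmt) (hl : RULEL_stmt) (hr : RULER_stmt)
    (hreal : REAL_stmt) (ho : OPEN_stmt) (hf : FAIL_stmt) (hinf : INF_stmt) (hcl : CLOPEN_stmt)
    {P : ℂ → Prop} (hP : PP_stmt P) (he : END_stmt) (hw : WIDE_stmt) {z : ℂ} (hz : z ∈ Qd)
    (hp : z ∉ periodicPart) : ¬ Bornology.IsBounded (connectedComponentIn periodicPartᶜ z) := by
  intro hb
  have hzV : z ∈ connectedComponentIn periodicPartᶜ z := mem_connectedComponentIn hp
  have h2 : ‖z‖ < 2 := by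
    by_contra h
    exact comp_wd hw hzV (Wd_of_norm hz (not_lt.mp h)) hb
  have hzT : z ∈ TT := alg hG hadm hl hr hreal hf hinf hz h2 hp
  have hVo : IsOpen (connectedComponentIn periodicPartᶜ z) :=
    isClosed_closure.isOpen_compl.connectedComponentIn
  have hB : TT ∩ connectedComponentIn periodicPartᶜ z = ∅ := by
    refine hcl _ Set.inter_subset_left (IsOpen.inter ho hVo) ?_ ?_
    · rintro y ⟨hyc, hyT⟩
      refine ⟨hyT, ?_⟩
      have hyp : y ∉ periodicPart := tt_disj ho hcl hP he y hyT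
      have hyo : IsOpen (connectedComponentIn periodicPartᶜ y) :=
        isClosed_closure.isOpen_compl.connectedComponentIn
      obtain ⟨u, hu1, hu2⟩ := mem_closure_iff.mp hyc _ hyo (mem_connectedComponentIn hyp)
      rw [connectedComponentIn_eq hu2.2, ← connectedComponentIn_eq hu1]
      exact mem_connectedComponentIn hyp
    · intro y hyc hyq hy2
      have hyW : y ∈ Wd := Wd_of_norm hyq hy2.ge
      have hWo : IsOpen Wd := (isOpen_lt continuous_const continuous_re).inter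
        ((isOpen_lt continuous_const continuous_im).inter
          (isOpen_lt continuous_const (continuous_re.add continuous_im)))
      obtain ⟨u, hu1, hu2⟩ := mem_closure_iff.mp hyc _ hWo hyW
      exact comp_wd hw hu2.2 hu1 hb
  have : z ∈ TT ∩ connectedComponentIn periodicPartᶜ z := ⟨hzT, hzV⟩
  rw [hB] at this
  exact this

/-- A symmetry of the periodic part carries bounded components to bounded components. -/
theorem comp_sym (h : ℂ ≃ₜ ℂ) (hn : ∀ z, ‖h z‖ = ‖z‖)
    (hs : h '' periodicPartᶜ = periodicPartᶜ) {z : ℂ} (hz : z ∉ periodicPart)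
    (hb : Bornology.IsBounded (connectedComponentIn periodicPartᶜ z)) :
    h z ∉ periodicPart ∧ Bornology.IsBounded (connectedComponentIn periodicPartᶜ (h z)) := by
  have h1 : h z ∈ periodicPartᶜ := by
    rw [← hs]; exact ⟨z, hz, rfl⟩
  refine ⟨h1, ?_⟩
  have h2 := h.image_connectedComponentIn (s := periodicPartᶜ) (x := z) hz
  rw [hs] at h2
  rw [← h2]
  obtain ⟨C, hC⟩ := hb.exists_norm_le
  rw [isBounded_iff_forall_norm_le]
  refine ⟨C, ?_⟩
  rintro _ ⟨y, hy, rfl⟩
  rw [hn]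
  exact hC y hy

theorem compl_neg (hsym : SYM_stmt) : (Homeomorph.neg ℂ) '' periodicPartᶜ = periodicPartᶜ := by
  ext z
  constructor
  · rintro ⟨y, hy, rfl⟩ h
    exact hy (by simpa using hsym.1 _ h)
  · intro h
    exact ⟨-z, fun h' => h (by simpa using hsym.1 _ h'), by simp⟩

theorem compl_conj (hsym : SYM_stmt) :
    (Complex.conjLIE.toHomeomorph) '' periodicPartᶜ = periodicPartᶜ := by
  ext z
  constructor
  · rintro ⟨y, hy, rfl⟩ h
    refine hy ?_
    have := hsym.2 _ h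
    simpa using this
  · intro h
    refine ⟨conj z, fun h' => h (by simpa using hsym.2 _ h'), ?_⟩
    simp

/-- A nonempty open set contains a point off the axes. -/
theorem off_axes {V : Set ℂ} (hV : IsOpen V) {z : ℂ} (hz : z ∈ V) :
    ∃ y ∈ V, y.re ≠ 0 ∧ y.im ≠ 0 := by
  obtain ⟨ε, hε, hb⟩ := Metric.isOpen_iff.mp hV z hz
  have key : ∀ s t : ℝ, |s| < ε / 2 → |t| < ε / 2 → (⟨z.re + s, z.im + t⟩ : ℂ) ∈ V := by
    intro s t hs ht
    apply hb
    rw [Metric.mem_ball, dist_eq_norm]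
    have h1 : (⟨z.re + s, z.im + t⟩ : ℂ) - z = ⟨s, t⟩ := by
      apply Complex.ext <;> simp
    rw [h1]
    have h2 := Complex.norm_le_abs_re_add_abs_im (⟨s, t⟩ : ℂ)
    simp only at h2
    linarith
  obtain ⟨s, hs, hs'⟩ : ∃ s : ℝ, |s| < ε / 2 ∧ z.re + s ≠ 0 := by
    by_cases h : z.re = 0
    · exact ⟨ε / 4, by rw [abs_of_pos (by positivity)]; linarith, by rw [h]; simp; positivity⟩
    · exact ⟨0, by simp; positivity, by simpa using h⟩
  obtain ⟨t, ht, ht'⟩ : ∃ t : ℝ, |t| < ε / 2 ∧ z.im + t ≠ 0 := by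
    by_cases h : z.im = 0
    · exact ⟨ε / 4, by rw [abs_of_pos (by positivity)]; linarith, by rw [h]; simp; positivity⟩
    · exact ⟨0, by simp; positivity, by simpa using h⟩
  exact ⟨_, key s t hs ht, hs', ht'⟩

/-- The main theorem of the project, from the interfaces of the blocks. -/
theorem finalM4 (hG : GOOD_stmt) (hadm : ADM_stmt) (hl : RULEL_stmt) (hr : RULER_stmt)
    (hreal : REAL_stmt) (ho : OPEN_stmt) (hf : FAIL_stmt) (hinf : INF_stmt) (hcl : CLOPEN_stmt)
    {P : ℂ → Prop} (hP : PP_stmt P) (he : END_stmt) (hw : WIDE_stmt) (hsym : SYM_stmt) :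
    hoppingSpectrum ⊆ periodicPart := by
  intro z hz
  by_contra hp
  obtain ⟨hVS, hVb⟩ := dichotomy hz hp
  have hVo : IsOpen (connectedComponentIn periodicPartᶜ z) :=
    isClosed_closure.isOpen_compl.connectedComponentIn
  obtain ⟨y, hyV, hyr, hyi⟩ := off_axes hVo (mem_connectedComponentIn hp)
  have hyp : y ∉ periodicPart := connectedComponentIn_subset _ _ hyV
  have hyb : Bornology.IsBounded (connectedComponentIn periodicPartᶜ y) := by
    rw [← connectedComponentIn_eq hyV]; exact hVb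
  have hno : ∀ u : ℂ, 0 < u.re → 0 < u.im → u ∉ periodicPart →
      ¬ Bornology.IsBounded (connectedComponentIn periodicPartᶜ u) := fun u h1 h2 h3 =>
    no_bounded hG hadm hl hr hreal ho hf hinf hcl hP he hw ⟨h1, h2⟩ h3
  have hneg : ∀ u : ℂ, u ∉ periodicPart →
      Bornology.IsBounded (connectedComponentIn periodicPartᶜ u) →
      -u ∉ periodicPart ∧ Bornology.IsBounded (connectedComponentIn periodicPartᶜ (-u)) := by
    intro u h1 h2
    exact comp_sym (Homeomorph.neg ℂ) (fun z => by simp) (compl_neg hsym) h1 h2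
  have hcj : ∀ u : ℂ, u ∉ periodicPart →
      Bornology.IsBounded (connectedComponentIn periodicPartᶜ u) →
      conj u ∉ periodicPart ∧
        Bornology.IsBounded (connectedComponentIn periodicPartᶜ (conj u)) := by
    intro u h1 h2
    exact comp_sym Complex.conjLIE.toHomeomorph (fun z => by simp) (compl_conj hsym) h1 h2
  have hup : ∀ u : ℂ, 0 < u.re → u.im ≠ 0 → u ∉ periodicPart →
      ¬ Bornology.IsBounded (connectedComponentIn periodicPartᶜ u) := by
    intro u h1 h2 h3 h4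
    rcases lt_or_gt_of_ne h2 with h | h
    · obtain ⟨h5, h6⟩ := hcj u h3 h4
      exact hno _ (by simpa using h1) (by simpa using h) h5 h6
    · exact hno u h1 h h3 h4
  rcases lt_or_gt_of_ne hyr with h | h
  · obtain ⟨h5, h6⟩ := hneg y hyp hyb
    exact hup (-y) (by simpa using h) (by simpa using hyi) h5 h6
  · exact hup y h hyi hyp hyb

end Pool.Agent.M4
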