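import Pool.Agent.helper95.M4.COV

/-!
# Project M4, block V: local tiling (LT) for abstract chains, sequence form.
-/

set_option autoImplicit false

namespace Pool.Agent.M4

open Complex ComplexConjugate Topology Filter

/-- Chain whose involutions exchange the corners. -/
structure ChS (X c v : ℤ → ℂ) (d : ℂ) : Prop extends Chn X c v d where
  sw : ∀ j, (v (j - 1) - c j) * (v j - c j) = -1 / (X j) ^ 2

/-- The involution with centre `c` and multiplier `X`. -/
noncomputable def iv (X c y : ℂ) : ℂ := c - 1 / (X ^ 2 * (y - c))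

/-- The normalised distance to the centre. -/
noncomputable def qd (X c y : ℂ) : ℝ := ‖y - c‖ * ‖X‖

/-- the right coordinate -/
noncomputable def xi (d y : ℂ) : ℝ := (y * conj (I * d)).re

/-- the down coordinate -/
noncomputable def dn (d y : ℂ) : ℝ := (y * conj d).re

/-- `y` is in the closed slab `j`. -/
def InS (v : ℤ → ℂ) (d : ℂ) (j : ℤ) (y : ℂ) : Prop := xi d (v (j - 1)) ≤ xi d y ∧ xi d y ≤ xi d (v j)

/-- `y` is below the circle `j`. -/
def Bel (X c : ℤ → ℂ) (d : ℂ) (j : ℤ) (y : ℂ) : Prop := dn d (c j) ≤ dn d y ∧ 1 ≤ qd (X j) (c j) y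

theorem mem_Er {X c v : ℤ → ℂ} {d y : ℂ} : y ∈ Er X c v d ↔ ∃ j, InS v d j y ∧ Bel X c d j y := by
  constructor
  · rintro ⟨j, h1, h2, h3, h4⟩; exact ⟨j, ⟨h1, h2⟩, h3, h4⟩
  · rintro ⟨j, ⟨h1, h2⟩, h3, h4⟩; exact ⟨j, h1, h2, h3, h4⟩

theorem xi_sub (d x y : ℂ) : xi d (x - y) = xi d x - xi d y := by
  unfold xi; rw [sub_mul, sub_re]

theorem dn_sub (d x y : ℂ) : dn d (x - y) = dn d x - dn d y := by
  unfold dn; rw [sub_mul, sub_re]

theorem norm_sq_coord {d : ℂ} (hd : ‖d‖ = 1) (x : ℂ) : ‖x‖ ^ 2 = xi d x ^ 2 + dn d x ^ 2 := by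
  have h1 : ‖x * conj d‖ ^ 2 = ‖x‖ ^ 2 := by rw [norm_mul, Complex.norm_conj, hd, mul_one]
  rw [← h1, ← normSq_eq_norm_sq, normSq_apply]
  unfold xi dn
  rw [re_conj_I]; ring

section one

variable {X c v : ℤ → ℂ} {d y : ℂ}

theorem Chn.dnr (h : Chn X c v d) (j : ℤ) : dn d (c j) < dn d (v j) := by
  have := h.dr j
  rw [sub_mul, sub_re] at this
  unfold dn; linarith

theorem Chn.dnl (h : Chn X c v d) (j : ℤ) : dn d (c j) < dn d (v (j - 1)) := by
  have := h.dl' j
  rw [sub_mul, sub_re] at this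
  unfold dn; linarith

theorem Chn.ximono (h : Chn X c v d) {i j : ℤ} (hij : i ≤ j) : xi d (v i) ≤ xi d (v j) := by
  have h1 : Monotone (fun k : ℤ => xi d (v k)) := by
    refine monotone_int_of_le_succ fun k => ?_
    have := h.mono (k + 1)
    rw [add_sub_cancel_right] at this
    exact this
  exact h1 hij

/-- `xi` of one. -/
theorem Chn.xi1 (h : Chn X c v d) : 0 < xi d 1 := by
  unfold xi
  rw [re_conj_I, one_mul, conj_im]
  linarith [h.dim]

theorem xi_add (d x y : ℂ) : xi d (x + y) = xi d x + xi d y := by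
  unfold xi; rw [add_mul, add_re]

theorem dn_add (d x y : ℂ) : dn d (x + y) = dn d x + dn d y := by
  unfold dn; rw [add_mul, add_re]

theorem xi_nat (d : ℂ) (n : ℕ) : xi d (n : ℂ) = n * xi d 1 := by
  unfold xi; rw [one_mul, mul_re, natCast_re, natCast_im, zero_mul, sub_zero]

theorem Chn.xiv_n (h : Chn X c v d) (j : ℤ) (n : ℕ) :
    xi d (v (j + 3 * n)) = xi d (v j) + n * xi d 1 := by
  rw [h.perv_n, xi_add, xi_nat]

theorem Chn.xiv_m (h : Chn X c v d) (j : ℤ) (n : ℕ) :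
    xi d (v (j - 3 * n)) = xi d (v j) - n * xi d 1 := by
  rw [h.perv_m, xi_sub, xi_nat]

/-- Every point is in some slab. -/
theorem Chn.exists_slab (h : Chn X c v d) (y : ℂ) : ∃ j, InS v d j y := by
  have hpos := h.xi1
  obtain ⟨n, hn⟩ := exists_nat_gt ((xi d y - xi d (v 0)) / xi d 1)
  obtain ⟨m, hm⟩ := exists_nat_gt ((xi d (v 0) - xi d y) / xi d 1)
  rw [div_lt_iff₀ hpos] at hn hm
  have h1 : xi d y ≤ xi d (v (3 * (n : ℤ))) := by
    have := h.xiv_n 0 n
    rw [zero_add] at this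
    rw [this]; linarith
  have h2 : ∀ j : ℤ, xi d y ≤ xi d (v j) → -(3 * (m : ℤ)) ≤ j := by
    intro j hj
    by_contra hcon
    have h3 := h.ximono (le_of_lt (not_le.mp hcon))
    have h4 := h.xiv_m 0 m
    rw [zero_sub] at h4
    rw [h4] at h3
    linarith
  obtain ⟨j, hj1, hj2⟩ := Int.exists_least_of_bdd (P := fun j => xi d y ≤ xi d (v j))
    ⟨-(3 * (m : ℤ)), h2⟩ ⟨_, h1⟩
  refine ⟨j, ?_, hj1⟩
  by_contra hcon
  have := hj2 (j - 1) (le_of_lt (not_le.mp hcon))
  linarith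

theorem le_of_sq_le_sq' {a b : ℝ} (h : a ^ 2 ≤ b ^ 2) (hb : 0 ≤ b) : a ≤ b := by
  by_contra hcon
  have h1 := not_le.mp hcon
  nlinarith

/-- On the vertical line through a point `p` of the lower half circle. -/
theorem low_iff {C p : ℂ} {r : ℝ} (hd : ‖d‖ = 1) (hr : 0 < r) (hp : ‖p - C‖ * r = 1)
    (hdp : dn d C < dn d p) (hx : xi d y = xi d p) :
    (dn d C ≤ dn d y ∧ 1 ≤ ‖y - C‖ * r) ↔ dn d p ≤ dn d y := by
  have e1 := norm_sq_coord hd (p - C)
  have e2 := norm_sq_coord hd (y - C)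
  rw [xi_sub, dn_sub] at e1 e2
  rw [hx] at e2
  constructor
  · rintro ⟨h1, h2⟩
    have h3 : ‖p - C‖ ≤ ‖y - C‖ := by
      by_contra hcon
      have := mul_lt_mul_of_pos_right (not_le.mp hcon) hr
      linarith
    have h4 : ‖p - C‖ ^ 2 ≤ ‖y - C‖ ^ 2 := pow_le_pow_left₀ (norm_nonneg _) h3 2
    nlinarith
  · intro h1
    refine ⟨by linarith, ?_⟩
    rw [← hp]
    refine mul_le_mul_of_nonneg_right ?_ hr.le
    have h5 : ‖p - C‖ ^ 2 ≤ ‖y - C‖ ^ 2 := by nlinarith
    exact le_of_sq_le_sq' h5 (norm_nonneg _)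

theorem low_iff' {C p : ℂ} {r : ℝ} (hd : ‖d‖ = 1) (hr : 0 < r) (hp : ‖p - C‖ * r = 1)
    (hdp : dn d C < dn d p) (hx : xi d y = xi d p) :
    (dn d C ≤ dn d y ∧ 1 < ‖y - C‖ * r) ↔ dn d p < dn d y := by
  have e1 := norm_sq_coord hd (p - C)
  have e2 := norm_sq_coord hd (y - C)
  rw [xi_sub, dn_sub] at e1 e2
  rw [hx] at e2
  constructor
  · rintro ⟨h1, h2⟩
    have h3 : ‖p - C‖ < ‖y - C‖ := by
      by_contra hcon
      have := mul_le_mul_of_nonneg_right (not_lt.mp hcon) hr.le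
      linarith
    have h4 : ‖p - C‖ ^ 2 < ‖y - C‖ ^ 2 := pow_lt_pow_left₀ h3 (norm_nonneg _) (by norm_num)
    nlinarith
  · intro h1
    refine ⟨by linarith, ?_⟩
    rw [← hp]
    refine mul_lt_mul_of_pos_right ?_ hr
    have h5 : ‖p - C‖ ^ 2 < ‖y - C‖ ^ 2 := by nlinarith
    exact lt_of_pow_lt_pow_left₀ 2 (norm_nonneg _) h5

theorem Chn.bel_r (h : Chn X c v d) {j : ℤ} (hx : xi d y = xi d (v j)) :
    Bel X c d j y ↔ dn d (v j) ≤ dn d y :=
  low_iff h.d1 (norm_pos_iff.mpr (h.nz j)) (h.vr j) (h.dnr j) hx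

theorem Chn.bel_l (h : Chn X c v d) {j : ℤ} (hx : xi d y = xi d (v (j - 1))) :
    Bel X c d j y ↔ dn d (v (j - 1)) ≤ dn d y :=
  low_iff h.d1 (norm_pos_iff.mpr (h.nz j)) (h.vl' j) (h.dnl j) hx

/-- Slabs containing a point are consecutive. -/
theorem InS.between (h : Chn X c v d) {i j k : ℤ} (hi : InS v d i y) (hk : InS v d k y)
    (h1 : i ≤ j) (h2 : j ≤ k) : InS v d j y := by
  refine ⟨?_, ?_⟩
  · exact (h.ximono (by linarith : j - 1 ≤ k - 1)).trans hk.1
  · exact hi.2.trans (h.ximono h1)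

theorem Chn.bel_succ (h : Chn X c v d) {j : ℤ} (h1 : InS v d j y) (h2 : InS v d (j + 1) y) :
    Bel X c d j y ↔ Bel X c d (j + 1) y := by
  have hx : xi d y = xi d (v j) := by
    have := h2.1
    rw [add_sub_cancel_right] at this
    exact le_antisymm h1.2 this
  rw [h.bel_r hx, h.bel_l (by rw [add_sub_cancel_right]; exact hx), add_sub_cancel_right]

theorem Chn.bel_indep (h : Chn X c v d) {i k : ℤ} (hi : InS v d i y) (hk : InS v d k y) :
    Bel X c d i y ↔ Bel X c d k y := by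
  wlog hik : i ≤ k generalizing i k
  · exact (this hk hi (le_of_not_ge hik)).symm
  obtain ⟨n, rfl⟩ := Int.le.dest hik
  clear hik
  induction n with
  | zero => simp
  | succ n ih =>
    have hn : InS v d (i + n) y := InS.between h hi hk (by linarith) (by push_cast; linarith)
    rw [ih hn]
    have e : i + ((n + 1 : ℕ) : ℤ) = (i + n) + 1 := by push_cast; ring
    rw [e] at hk ⊢
    exact h.bel_succ hn hk

/-- A point of the region is below the circle of each of its slabs. -/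
theorem Chn.bel_of_mem (h : Chn X c v d) (hy : y ∈ Er X c v d) {j : ℤ} (hj : InS v d j y) :
    Bel X c d j y := by
  obtain ⟨i, hi, hb⟩ := mem_Er.mp hy
  exact (h.bel_indep hi hj).mp hb

/-- In a slab the horizontal distance to the centre is less than the radius. -/
theorem Chn.xi_lt (h : Chn X c v d) {j : ℤ} (hj : InS v d j y) :
    (xi d y - xi d (c j)) ^ 2 * ‖X j‖ ^ 2 < 1 := by
  have e1 := norm_sq_coord h.d1 (v j - c j)
  have e2 := norm_sq_coord h.d1 (v (j - 1) - c j)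
  rw [xi_sub, dn_sub] at e1 e2
  have d1 := h.dnr j
  have d2 := h.dnl j
  have r1 := h.vr j
  have r2 := h.vl' j
  have hX : 0 < ‖X j‖ := norm_pos_iff.mpr (h.nz j)
  have f1 : ‖v j - c j‖ ^ 2 * ‖X j‖ ^ 2 = 1 := by rw [← mul_pow, r1, one_pow]
  have f2 : ‖v (j - 1) - c j‖ ^ 2 * ‖X j‖ ^ 2 = 1 := by rw [← mul_pow, r2, one_pow]
  have hX2 : 0 < ‖X j‖ ^ 2 := by positivity
  rw [e1] at f1
  rw [e2] at f2
  obtain ⟨h1, h2⟩ := hj
  rcases le_total (xi d y) (xi d (c j)) with h3 | h3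
  · have h4 : (xi d y - xi d (c j)) ^ 2 ≤ (xi d (v (j - 1)) - xi d (c j)) ^ 2 := by nlinarith
    have h5 : 0 < (dn d (v (j - 1)) - dn d (c j)) ^ 2 * ‖X j‖ ^ 2 := by
      have : 0 < dn d (v (j - 1)) - dn d (c j) := by linarith
      positivity
    nlinarith [mul_le_mul_of_nonneg_right h4 hX2.le]
  · have h4 : (xi d y - xi d (c j)) ^ 2 ≤ (xi d (v j) - xi d (c j)) ^ 2 := by nlinarith
    have h5 : 0 < (dn d (v j) - dn d (c j)) ^ 2 * ‖X j‖ ^ 2 := by
      have : 0 < dn d (v j) - dn d (c j) := by linarith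
      positivity
    nlinarith [mul_le_mul_of_nonneg_right h4 hX2.le]

theorem Chn.bel_strict (h : Chn X c v d) {j : ℤ} (hj : InS v d j y) (hb : Bel X c d j y) :
    dn d (c j) < dn d y := by
  have h1 := h.xi_lt hj
  obtain ⟨h2, h3⟩ := hb
  unfold qd at h3
  have e := norm_sq_coord h.d1 (y - c j)
  rw [xi_sub, dn_sub] at e
  have f : 1 ≤ ‖y - c j‖ ^ 2 * ‖X j‖ ^ 2 := by
    rw [← mul_pow]; exact one_le_pow₀ h3
  rw [e] at f
  by_contra hcon
  have h4 : dn d y - dn d (c j) = 0 := by linarith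
  rw [h4] at f
  nlinarith

/-! ### Algebra of the involutions -/

theorem qd_iv_self {A C y : ℂ} (hA : A ≠ 0) (hy : y ≠ C) : qd A C (iv A C y) = 1 / qd A C y := by
  have h1 : y - C ≠ 0 := sub_ne_zero.mpr hy
  unfold qd iv
  have e : C - 1 / (A ^ 2 * (y - C)) - C = -(1 / (A ^ 2 * (y - C))) := by ring
  rw [e, norm_neg, norm_div, norm_one, norm_mul, norm_pow]
  have hA' : ‖A‖ ≠ 0 := norm_ne_zero_iff.mpr hA
  have h1' : ‖y - C‖ ≠ 0 := norm_ne_zero_iff.mpr h1
  field_simp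

theorem Chn.stn (h : Chn X c v d) (j : ℤ) :
    ‖c (j + 1) - c j‖ * (‖X j‖ * ‖X (j + 1)‖) = ‖X (j + 2)‖ := by
  rw [h.st, norm_div, norm_mul]
  have h1 : ‖X j‖ ≠ 0 := norm_ne_zero_iff.mpr (h.nz _)
  have h2 : ‖X (j + 1)‖ ≠ 0 := norm_ne_zero_iff.mpr (h.nz _)
  field_simp

theorem Chn.ss (h : Chn X c v d) (j : ℤ) : (c j - c (j - 1)) * (c (j + 1) - c j) = 1 / X j ^ 2 := by
  have h1 := h.st (j - 1)
  have h2 := h.st j
  have h3 : X (j - 1) = X (j + 2) := by
    have := h.perX (j - 1)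
    rw [← this]; congr 1; ring
  rw [show j - 1 + 1 = j by ring, show j - 1 + 2 = j + 1 by ring, h3] at h1
  rw [h1, h2]
  have e1 := h.nz j
  have e2 := h.nz (j + 1)
  have e3 := h.nz (j + 2)
  field_simp

/-- the next circle -/
theorem Chn.qd_succ (h : Chn X c v d) {k : ℤ} (hy : y ≠ c k) :
    qd (X (k + 1)) (c (k + 1)) (iv (X k) (c k) y) * qd (X k) (c k) y =
      qd (X (k - 1)) (c (k - 1)) y := by
  have h1 : y - c k ≠ 0 := sub_ne_zero.mpr hy
  have hss := h.ss k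
  have hs : c (k + 1) - c k ≠ 0 := by
    intro h0
    rw [h0, mul_zero] at hss
    have h5 := h.nz k
    have h6 : (1 : ℂ) / X k ^ 2 ≠ 0 := div_ne_zero one_ne_zero (pow_ne_zero 2 h5)
    exact h6 hss.symm
  have e : iv (X k) (c k) y - c (k + 1) =
      -(c (k + 1) - c k) * (y - c (k - 1)) / (y - c k) := by
    unfold iv
    have hX := h.nz k
    have h2 : 1 / (X k ^ 2 * (y - c k)) = ((c k - c (k - 1)) * (c (k + 1) - c k)) / (y - c k) := by
      rw [hss]; field_simp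
    rw [h2]
    field_simp
    ring
  unfold qd
  rw [e, norm_div, norm_mul, norm_neg]
  have h3 := h.stn k
  have h4 : ‖X (k - 1)‖ = ‖X (k + 2)‖ := by
    have := h.perX (k - 1)
    rw [← this]; congr 2; ring
  have h1' : ‖y - c k‖ ≠ 0 := norm_ne_zero_iff.mpr h1
  rw [h4, ← h3]
  field_simp

/-- the previous circle -/
theorem Chn.qd_pred (h : Chn X c v d) {k : ℤ} (hy : y ≠ c k) :
    qd (X (k - 1)) (c (k - 1)) (iv (X k) (c k) y) * qd (X k) (c k) y =
      qd (X (k + 1)) (c (k + 1)) y := by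
  have h1 : y - c k ≠ 0 := sub_ne_zero.mpr hy
  have hss := h.ss k
  have e : iv (X k) (c k) y - c (k - 1) =
      (c k - c (k - 1)) * (y - c (k + 1)) / (y - c k) := by
    unfold iv
    have hX := h.nz k
    have h2 : 1 / (X k ^ 2 * (y - c k)) = ((c k - c (k - 1)) * (c (k + 1) - c k)) / (y - c k) := by
      rw [hss]; field_simp
    rw [h2]
    field_simp
    ring
  unfold qd
  rw [e, norm_div, norm_mul]
  have h3 := h.stn (k - 1)
  rw [show k - 1 + 1 = k by ring, show k - 1 + 2 = k + 1 by ring] at h3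
  have h1' : ‖y - c k‖ ≠ 0 := norm_ne_zero_iff.mpr h1
  rw [← h3]
  field_simp

/-- The function of the flipped circle, centred at the circles `k` and `k + 1`; the flipped
circle is that of `k - 1`. -/
noncomputable def Qf (X c : ℤ → ℂ) (k : ℤ) (y : ℂ) : ℝ :=
  ‖X (k - 2)‖ * ‖X k‖ * ‖(c k - c (k - 2)) * (y - c k) - 1 / X k ^ 2‖

theorem Chn.qd_pp (h : Chn X c v d) {k : ℤ} (hy : y ≠ c k) :
    qd (X (k - 2)) (c (k - 2)) (iv (X k) (c k) y) * qd (X k) (c k) y = Qf X c k y := by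
  have h1 : y - c k ≠ 0 := sub_ne_zero.mpr hy
  have hX := h.nz k
  have e : iv (X k) (c k) y - c (k - 2) =
      ((c k - c (k - 2)) * (y - c k) - 1 / X k ^ 2) / (y - c k) := by
    unfold iv
    field_simp
    ring
  unfold qd Qf
  rw [e, norm_div]
  have h1' : ‖y - c k‖ ≠ 0 := norm_ne_zero_iff.mpr h1
  field_simp

/-- The flipped circle seen from its other neighbour. -/
theorem Chn.qd_ss (h : Chn X c v d) {k : ℤ} (hy : y ≠ c (k + 1)) :
    qd (X (k + 3)) (c (k + 3)) (iv (X (k + 1)) (c (k + 1)) y) * qd (X (k + 1)) (c (k + 1)) y =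
      Qf X c k y := by
  have h1 : y - c (k + 1) ≠ 0 := sub_ne_zero.mpr hy
  have hX := h.nz k
  have hX1 := h.nz (k + 1)
  have hX2 := h.nz (k + 2)
  have p1 : X (k - 2) = X (k + 1) := by
    have := h.perX (k - 2)
    rw [← this]; congr 1; ring
  have p2 : X (k + 3) = X k := h.perX k
  have p3 : c (k + 3) = c k + 1 := h.perc k
  have p4 : c (k - 2) = c (k + 1) - 1 := by
    have := h.perc (k - 2)
    rw [show k - 2 + 3 = k + 1 by ring] at this
    rw [this]; ring
  have s1 := h.st k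
  have s2 := h.st (k + 1)
  have s3 := h.st (k + 2)
  rw [show k + 1 + 1 = k + 2 by ring, show k + 1 + 2 = k + 3 by ring, p2] at s2
  rw [show k + 2 + 1 = k + 3 by ring, show k + 2 + 2 = (k + 1) + 3 by ring, h.perX (k + 1), p2,
    p3] at s3
  unfold qd Qf iv
  rw [p1, p2, p3, p4]
  have e : c (k + 1) - 1 / (X (k + 1) ^ 2 * (y - c (k + 1))) - (c k + 1) =
      -(((c k - (c (k + 1) - 1)) * (y - c k) - 1 / X k ^ 2)) / (y - c (k + 1)) := by
    have hk : c k = c (k + 1) - X (k + 2) / (X k * X (k + 1)) := by linear_combination -s1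
    have hsum : X (k + 2) / (X k * X (k + 1)) + X k / (X (k + 1) * X (k + 2)) +
        X (k + 1) / (X (k + 2) * X k) = 1 := by
      linear_combination -s1 - s2 - s3
    have hP : X (k + 2) / (X k * X (k + 1)) * (X k / (X (k + 1) * X (k + 2))) =
        1 / X (k + 1) ^ 2 := by field_simp
    have hQ : X (k + 2) / (X k * X (k + 1)) * (X (k + 1) / (X (k + 2) * X k)) =
        1 / X k ^ 2 := by field_simp
    rw [hk, ← hQ]
    have hW : 1 / (X (k + 1) ^ 2 * (y - c (k + 1))) =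
        X (k + 2) / (X k * X (k + 1)) * (X k / (X (k + 1) * X (k + 2))) / (y - c (k + 1)) := by
      rw [hP]; field_simp
    rw [hW]
    generalize X (k + 2) / (X k * X (k + 1)) = s at *
    generalize X k / (X (k + 1) * X (k + 2)) = t at *
    generalize X (k + 1) / (X (k + 2) * X k) = u at *
    have hu : u = 1 - s - t := by linear_combination hsum
    subst hu
    rw [eq_div_iff h1]
    field_simp
    ring
  rw [e, norm_div, norm_neg]
  have h1' : ‖y - c (k + 1)‖ ≠ 0 := norm_ne_zero_iff.mpr h1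
  field_simp

end one

end Pool.Agent.M4
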