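import Pool.Agent.helper95.M4.Closed
import Pool.Agent.helper66.M4.VI
import Pool.Agent.helper8.M4.TTO
import Pool.Agent.helper30.M4.Alg
import Pool.Agent.helper30.M4.Cls
import Pool.Agent.helper74.M4.INF

/-!
# Project M4: the assembly with everything but block II and block V
-/

set_option autoImplicit false

namespace Pool.Agent.M4

/-- Everything except blocks II and V. -/
theorem main_of (hF : FAIL_stmt) {P : ℂ → Prop} (hP : PP_stmt P) :
    Pool.Agent.FZ.hoppingSpectrum ⊆ Pool.Agent.FZ.periodicPart :=
  finalM4 GOOD ADM (fun _ _ _ hM h him hre hth => RULEL hM h him hre hth)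
    (fun _ _ _ hM h him hre hth => RULER hM h him hre hth) REALT TT_open hF INF
    (CLOPEN CLS) hP END WIDE SYM

end Pool.Agent.M4
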