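import Pool.Agent.helper95.M4.Asm
import Pool.Agent.helper66.M4.VStmt
import Pool.Agent.helper74.M4.BASEE

/-!
# Project M4: the assembly, everything but block II
-/

set_option autoImplicit false

namespace Pool.Agent.M4

/-- The inclusion, from block II. -/
theorem main_of_fail (hF : FAIL_stmt) :
    Pool.Agent.FZ.hoppingSpectrum ⊆ Pool.Agent.FZ.periodicPart :=
  main_of hF (PP_of fun _ hq h2 _ hη => BASE_E hq h2 hη)

end Pool.Agent.M4
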