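import Pool.Agent.helper95.M4.COVa
import Pool.Agent.helper95.M4.V1

/-!
# Project M4, block V, COV: outside the discs of the chain and below the real line one is in the
region below the bottom chain.
-/

set_option autoImplicit false

namespace Pool.Agent.M4

open Complex ComplexConjugate Topology Filter

/-! ## Corner polygon -/

section corner

variable {X c v : ℤ → ℂ} {d y : ℂ}

theorem Chn.perv_n (h : Chn X c v d) (j : ℤ) (n : ℕ) : v (j + 3 * n) = v j + n := by
  induction n with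
  | zero => simp
  | succ n ih =>
    have : j + 3 * ((n + 1 : ℕ) : ℤ) = (j + 3 * n) + 3 := by push_cast; ring
    rw [this, h.perv, ih]
    push_cast; ring

theorem Chn.perv_m (h : Chn X c v d) (j : ℤ) (n : ℕ) : v (j - 3 * n) = v j - n := by
  have := h.perv_n (j - 3 * n) n
  rw [sub_add_cancel] at this
  rw [this]; ring

theorem Chn.perc_n (h : Chn X c v d) (j : ℤ) (n : ℕ) : c (j + 3 * n) = c j + n := by
  induction n with
  | zero => simp
  | succ n ih =>
    have : j + 3 * ((n + 1 : ℕ) : ℤ) = (j + 3 * n) + 3 := by push_cast; ring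
    rw [this, h.perc, ih]
    push_cast; ring

theorem Chn.perc_m (h : Chn X c v d) (j : ℤ) (n : ℕ) : c (j - 3 * n) = c j - n := by
  have := h.perc_n (j - 3 * n) n
  rw [sub_add_cancel] at this
  rw [this]; ring

theorem Chn.vl' (h : Chn X c v d) (j : ℤ) : ‖v (j - 1) - c j‖ * ‖X j‖ = 1 := by
  have := h.vl (j - 1)
  rwa [sub_add_cancel] at this

theorem Chn.dl' (h : Chn X c v d) (j : ℤ) : 0 < ((v (j - 1) - c j) * conj d).re := by
  have := h.dl (j - 1)
  rwa [sub_add_cancel] at this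

theorem Chn.v_mem (h : Chn X c v d) (j : ℤ) : v j ∈ Er X c v d := by
  refine ⟨j, h.mono j, le_rfl, ?_, (h.vr j).ge⟩
  have := h.dr j
  rw [sub_mul, sub_re] at this
  linarith

theorem Chn.d0 (h : Chn X c v d) : d ≠ 0 := by
  rintro rfl
  have := h.dim
  simp at this

theorem Chn.conj_div (h : Chn X c v d) (x : ℂ) : x / d = x * conj d := by
  have h1 : d * conj d = 1 := by
    rw [mul_conj, normSq_eq_norm_sq, h.d1]; simp
  rw [div_eq_iff h.d0, mul_assoc, mul_comm (conj d), h1, mul_one]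

theorem re_conj_I (x d : ℂ) : (x * conj (I * d)).re = (x * conj d).im := by
  simp only [map_mul, conj_I, mul_re, mul_im, neg_re, neg_im, I_re, I_im, conj_re, conj_im]
  ring

/-- Chords of the corner polygon do not cross the upward ray. -/
theorem Chn.chord (h : Chn X c v d) (hy : ∀ j, 1 ≤ ‖y - c j‖ * ‖X j‖) (hE : y ∉ Er X c v d)
    (j : ℤ) : ang y (v (j - 1)) (v j) = arg ((v j - y) / d) - arg ((v (j - 1) - y) / d) := by
  have hd := h.d0
  have e : (v j - y) / (v (j - 1) - y) = ((v j - y) / d) / ((v (j - 1) - y) / d) := by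
    rw [div_div_div_cancel_right₀ hd]
  unfold ang
  rw [e]
  have hP : ((v (j - 1) - y) / d).im = (v (j - 1) * conj (I * d)).re - (y * conj (I * d)).re := by
    rw [h.conj_div, re_conj_I, re_conj_I, sub_mul, sub_im]
  have hQ : ((v j - y) / d).im = (v j * conj (I * d)).re - (y * conj (I * d)).re := by
    rw [h.conj_div, re_conj_I, re_conj_I, sub_mul, sub_im]
  rcases lt_or_ge (y * conj (I * d)).re (v (j - 1) * conj (I * d)).re with h1 | h1
  · have h2 := h.mono j
    exact arg_div_of_im_pos (by rw [hP]; linarith) (by rw [hQ]; linarith)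
  rcases lt_or_ge (v j * conj (I * d)).re (y * conj (I * d)).re with h2 | h2
  · have h3 := h.mono j
    exact arg_div_of_im_neg (by rw [hP]; linarith) (by rw [hQ]; linarith)
  have h4 : (y * conj d).re < (c j * conj d).re := by
    by_contra hcon
    exact hE ⟨j, h1, h2, not_lt.mp hcon, hy j⟩
  have h5 := h.dr j
  have h6 := h.dl' j
  rw [sub_mul, sub_re] at h5 h6
  refine arg_div_of_re_pos ?_ ?_
  · rw [h.conj_div, sub_mul, sub_re]; linarith
  · rw [h.conj_div, sub_mul, sub_re]; linarith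

/-- The telescoping function. -/
noncomputable def Ftel (c v : ℤ → ℂ) (d y : ℂ) (j : ℤ) : ℝ :=
  arg ((v (j - 1) - y) / d) + ang y (v (j - 1)) (c j)

theorem Chn.tel (h : Chn X c v d) (hy : ∀ j, 1 ≤ ‖y - c j‖ * ‖X j‖) (hE : y ∉ Er X c v d)
    (j : ℤ) : ang y (c j) (c (j + 1)) = Ftel c v d y (j + 1) - Ftel c v d y j := by
  have hv : ∀ k, y ≠ v k := by
    rintro k rfl
    exact hE (h.v_mem k)
  have hXp : ∀ k, 0 < ‖X k‖ := fun k => norm_pos_iff.mpr (h.nz k)
  have h1 : ang y (c j) (v j) + ang y (v j) (c (j + 1)) = ang y (c j) (c (j + 1)) :=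
    ang_tri (cov_tri2 (h.vr j) (h.vl j) (hXp j) (hXp _) (hy j) (hy _) (hv j))
  have h2 : ang y (v (j - 1)) (c j) + ang y (c j) (v j) = ang y (v (j - 1)) (v j) :=
    ang_tri (cov_tri3 (h.vl' j) (h.vr j) (hXp j) (hy j) (hv _) (hv _))
  have h3 := h.chord hy hE j
  unfold Ftel
  rw [add_sub_cancel_right]
  linarith

theorem arg_lim {s κ d : ℂ} (hd : d ≠ 0) (hs : s / d ∈ slitPlane) :
    Tendsto (fun M : ℕ => arg ((s * M + κ) / d)) atTop (𝓝 (arg (s / d))) := by
  have h1 : Tendsto (fun M : ℕ => (s + κ / M) / d) atTop (𝓝 ((s + 0) / d)) := by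
    refine Tendsto.div_const (tendsto_const_nhds.add ?_) d
    have h2 : Tendsto (fun M : ℕ => κ * ((M : ℂ))⁻¹) atTop (𝓝 (κ * 0)) := by
      refine tendsto_const_nhds.mul ?_
      have h3 : Tendsto (fun M : ℕ => (M : ℂ)) atTop (Bornology.cobounded ℂ) := by
        rw [← tendsto_norm_atTop_iff_cobounded]
        simp only [Complex.norm_natCast]
        exact tendsto_natCast_atTop_atTop
      exact tendsto_inv₀_cobounded.comp h3
    rw [mul_zero] at h2
    simpa only [div_eq_mul_inv] using h2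
  rw [add_zero] at h1
  have h4 := (continuousAt_arg hs).tendsto.comp h1
  refine h4.congr' ?_
  filter_upwards [eventually_gt_atTop 0] with M hM
  have hM' : (0 : ℝ) < (M : ℝ) := by exact_mod_cast hM
  have hMc : (M : ℂ) ≠ 0 := by
    exact_mod_cast hM.ne'
  have e : (s * M + κ) / d = ((M : ℝ) : ℂ) * ((s + κ / M) / d) := by
    push_cast
    field_simp
  rw [Function.comp_apply, e, arg_real_mul _ hM']

theorem Chn.Ftel_pos (h : Chn X c v d) :
    Tendsto (fun M : ℕ => Ftel c v d y (3 * M)) atTop (𝓝 (arg (1 / d))) := by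
  have him : 0 < (1 / d).im := by
    rw [h.conj_div, one_mul, conj_im]; linarith [h.dim]
  have h1 := arg_lim (s := 1) (κ := v (-1) - y) h.d0 (Or.inr him.ne')
  have h2 := ang_tendsto y (v (-1)) (c 0) 1 one_ne_zero
  have h3 := h1.add h2
  rw [add_zero] at h3
  refine h3.congr fun M => ?_
  unfold Ftel
  have e1 : v (3 * (M : ℤ) - 1) = v (-1) + M := by
    rw [show 3 * (M : ℤ) - 1 = -1 + 3 * M by ring, h.perv_n]
  have e2 : c (3 * (M : ℤ)) = c 0 + M := by
    rw [show 3 * (M : ℤ) = 0 + 3 * M by ring, h.perc_n]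
  rw [e1, e2]
  congr 2
  · ring_nf
  · ring_nf
  · ring_nf

theorem Chn.Ftel_neg (h : Chn X c v d) :
    Tendsto (fun M : ℕ => Ftel c v d y (-(3 * M))) atTop (𝓝 (arg (1 / d) - Real.pi)) := by
  have him : 0 < (1 / d).im := by
    rw [h.conj_div, one_mul, conj_im]; linarith [h.dim]
  have e0 : (-1 : ℂ) / d = -(1 / d) := by ring
  have him' : ((-1 : ℂ) / d).im ≠ 0 := by
    rw [e0, neg_im]; linarith
  have h1 := arg_lim (s := -1) (κ := v (-1) - y) h.d0 (Or.inr him')
  rw [e0, arg_neg_eq_arg_sub_pi_of_im_pos him] at h1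
  have h2 := ang_tendsto y (v (-1)) (c 0) (-1) (by norm_num)
  have h3 := h1.add h2
  rw [add_zero] at h3
  refine h3.congr fun M => ?_
  unfold Ftel
  have e1 : v (-(3 * (M : ℤ)) - 1) = v (-1) - M := by
    rw [show -(3 * (M : ℤ)) - 1 = -1 - 3 * M by ring, h.perv_m]
  have e2 : c (-(3 * (M : ℤ))) = c 0 - M := by
    rw [show -(3 * (M : ℤ)) = 0 - 3 * M by ring, h.perc_m]
  rw [e1, e2]
  congr 2
  · ring_nf
  · ring_nf
  · ring_nf

/-- Above the region and outside the discs the zigzag is seen under the angle `π`. -/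
theorem Chn.sum_pi (h : Chn X c v d) (hy : ∀ j, 1 ≤ ‖y - c j‖ * ‖X j‖) (hE : y ∉ Er X c v d) :
    Tendsto (fun M : ℕ => ∑ i ∈ Finset.range (6 * M),
      ang y (c (-(3 * M) + i)) (c (-(3 * M) + i + 1))) atTop (𝓝 Real.pi) := by
  have h1 := (h.Ftel_pos (y := y)).sub (h.Ftel_neg (y := y))
  rw [sub_sub_cancel] at h1
  refine h1.congr fun M => ?_
  have h2 := Finset.sum_range_sub (fun i : ℕ => Ftel c v d y (-(3 * M) + i)) (6 * M)
  have h3 : ∑ i ∈ Finset.range (6 * M), ang y (c (-(3 * M) + i)) (c (-(3 * M) + i + 1)) =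
      ∑ i ∈ Finset.range (6 * M), (Ftel c v d y (-(3 * M) + ((i + 1 : ℕ) : ℤ)) -
        Ftel c v d y (-(3 * M) + (i : ℤ))) := by
    refine Finset.sum_congr rfl fun i _ => ?_
    rw [h.tel hy hE]
    push_cast
    rw [add_assoc]
  rw [h3, h2]
  congr 2
  · push_cast; ring
  · push_cast; ring

end corner

/-! ## The zigzag sums -/

theorem exists_t {A B A' B' : ℂ} {ρ : ℝ} (h : ‖A + B‖ < ρ) (h' : ‖A' + B'‖ < ρ) :
    ∃ t : ℝ, 0 < t ∧ t < 1 ∧ ‖A + t * B‖ < ρ ∧ ‖A' + t * B'‖ < ρ := by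
  have c1 : ContinuousAt (fun t : ℝ => ‖A + t * B‖) 1 := by fun_prop
  have c2 : ContinuousAt (fun t : ℝ => ‖A' + t * B'‖) 1 := by fun_prop
  have h1 : ∀ᶠ t : ℝ in 𝓝 1, ‖A + t * B‖ < ρ :=
    c1.eventually (gt_mem_nhds (by simpa using h))
  have h2 : ∀ᶠ t : ℝ in 𝓝 1, ‖A' + t * B'‖ < ρ :=
    c2.eventually (gt_mem_nhds (by simpa using h'))
  have h3 : ∀ᶠ t : ℝ in 𝓝 1, 0 < t := lt_mem_nhds one_pos
  obtain ⟨t, ⟨⟨ht1, ht2⟩, ht3⟩, ht4⟩ := ((((h1.and h2).and h3).filter_mono
    (nhdsWithin_le_nhds (s := Set.Iio 1))).and self_mem_nhdsWithin).exists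
  exact ⟨t, ht3, ht4, ht1, ht2⟩

/-- The triangle of three centres with a common point near the centre `b`. -/
theorem cov_three {A B C a b c y σ : ℂ} (hA : A ≠ 0) (hB : B ≠ 0) (hC : C ≠ 0)
    (h1 : b - a = C / (A * B)) (h2 : c - b = A / (B * C)) (hσ : ‖σ‖ = 1)
    (k1 : ‖C + σ * A‖ < ‖B‖) (k2 : ‖-A + σ * C‖ < ‖B‖)
    (ya : 1 ≤ ‖y - a‖ * ‖A‖) (yb : 1 ≤ ‖y - b‖ * ‖B‖) (yc : 1 ≤ ‖y - c‖ * ‖C‖) :
    y ∉ convexHull ℝ {a, b, c} := by
  obtain ⟨t, ht0, ht1, ht2, ht3⟩ := exists_t k1 k2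
  have hBp : 0 < ‖B‖ := norm_pos_iff.mpr hB
  refine cov_tri (V := b + σ * t / B) ?_ ?_ ?_ (norm_nonneg _) (norm_nonneg _) (norm_nonneg _)
    ya yb yc
  · have e : b + σ * t / B - a = (C + t * (σ * A)) / (A * B) := by
      have : b - a = C / (A * B) := h1
      have e1 : b + σ * t / B - a = (b - a) + σ * t / B := by ring
      rw [e1, this]
      field_simp
    rw [e, norm_div, norm_mul, div_mul_eq_mul_div, div_lt_one (by positivity)]
    rw [mul_comm ‖A‖]
    exact mul_lt_mul_of_pos_right ht2 (norm_pos_iff.mpr hA)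
  · have e : b + σ * t / B - b = σ * t / B := by ring
    rw [e, norm_div, norm_mul, hσ, one_mul, div_mul_cancel₀ _ hBp.ne', Complex.norm_real,
      Real.norm_of_nonneg ht0.le]
    exact ht1
  · have e : b + σ * t / B - c = (-A + t * (σ * C)) / (B * C) := by
      have e1 : b + σ * t / B - c = σ * t / B - (c - b) := by ring
      rw [e1, h2]
      field_simp
      ring
    rw [e, norm_div, norm_mul, div_mul_eq_mul_div, div_lt_one (by positivity)]
    exact mul_lt_mul_of_pos_right ht3 (norm_pos_iff.mpr hC)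

/-- One period of the zigzag. -/
noncomputable def per (w : List Bool) (z y : ℂ) (m : ℤ) : ℝ :=
  ang y (cL w z + m) (cN w z + m) + ang y (cN w z + m) (cR w z + m) +
    ang y (cR w z + m) (cL w z + m + 1)

/-- The window of the zigzag. -/
noncomputable def SS (w : List Bool) (z y : ℂ) (M : ℕ) : ℝ :=
  ∑ k ∈ Finset.range (2 * M), per w z y (-M + k)

theorem Uo_mono {b : Bool} {w : List Bool} {z : ℂ} : Uo w z ⊆ Uo (b :: w) z := by
  rintro y ⟨v, hv, m, h⟩
  exact ⟨v, hv.trans (List.suffix_cons b w), m, h⟩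

theorem notU {w : List Bool} {z y : ℂ} (hy : y ∉ Uo w z) (m : ℤ) :
    1 ≤ ‖y - (cL w z + m)‖ * ‖Lf w z‖ ∧ 1 ≤ ‖y - (cN w z + m)‖ * ‖Nf w z‖ ∧
      1 ≤ ‖y - (cR w z + m)‖ * ‖Rf w z‖ := by
  refine ⟨?_, ?_, ?_⟩
  · by_contra h
    exact hy ⟨w, List.suffix_refl w, m, Or.inl (not_le.mp h)⟩
  · by_contra h
    exact hy ⟨w, List.suffix_refl w, m, Or.inr (Or.inl (not_le.mp h))⟩
  · by_contra h
    exact hy ⟨w, List.suffix_refl w, m, Or.inr (Or.inr (not_le.mp h))⟩

theorem nI1 {a b c : ℂ} (h : a = -I * b) (hb : ‖b‖ < ‖c‖) : ‖a‖ < ‖c‖ := by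
  rwa [h, norm_mul, norm_neg, norm_I, one_mul]

theorem nI2 {a b c : ℂ} (h : a = I * b) (hb : ‖b‖ < ‖c‖) : ‖a‖ < ‖c‖ := by
  rwa [h, norm_mul, norm_I, one_mul]

theorem nI3 {a b c : ℂ} (h : a = -b) (hb : ‖b‖ < ‖c‖) : ‖a‖ < ‖c‖ := by
  rwa [h, norm_neg]

theorem nI0 {a b c : ℂ} (h : a = b) (hb : ‖b‖ < ‖c‖) : ‖a‖ < ‖c‖ := by
  rwa [h]

theorem per_true {w : List Bool} {z y : ℂ} (hc : Ch (true :: w) z) (hy : y ∉ Uo (true :: w) z)
    (m : ℤ) : per (true :: w) z y m = per w z y m +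
      (ang y (cL w z + (m + 1 : ℤ)) (cN w z + (m + 1 : ℤ)) - ang y (cL w z + m) (cN w z + m)) := by
  have hNZ := NZ_of_Ch hc
  obtain ⟨hz, hL, hN, hR⟩ := hNZ.1.all
  obtain ⟨_, _, hN', _⟩ := hNZ.all
  obtain ⟨h1, h2, h3⟩ := CEN hNZ.1
  obtain ⟨h1', h2', h3'⟩ := CEN hNZ
  rw [Lf_true, Rf_true, cL_true] at h1'
  rw [Lf_true, Rf_true, cR_true] at h2'
  have hgo : GoL (Lf w z) (Nf w z) (Rf w z) := hc.2
  have hadm := (ADM (true :: w) z hc).lo
  rw [Lf_true, Rf_true] at hadm
  have y1 := notU (fun h => hy (Uo_mono h)) (y := y) (w := w) (z := z)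
  have y2 := notU hy
  have t1 : y ∉ convexHull ℝ {cR w z + (m : ℂ), cL w z + ((m + 1 : ℤ) : ℂ),
      cN w z + ((m + 1 : ℤ) : ℂ)} := by
    refine cov_three (A := Rf w z) (B := Lf w z) (C := Nf w z) (σ := -I) hR hL hN ?_ ?_
      (by simp) ?_ ?_ (y1 m).2.2 (y1 (m + 1)).1 (y1 (m + 1)).2.1
    · push_cast
      rw [mul_comm (Rf w z)]
      linear_combination h3
    · linear_combination h1
    · exact nI0 (b := Nf w z - I * Rf w z) (by ring) hgo.lt
    · exact nI1 (b := Nf w z - I * Rf w z) (by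
        linear_combination (-Rf w z) * I_sq) hgo.lt
  have t2 : y ∉ convexHull ℝ {cN w z + (m : ℂ), cN (true :: w) z + (m : ℂ),
      cR w z + (m : ℂ)} := by
    refine cov_three (A := Nf w z) (B := Nf (true :: w) z) (C := Rf w z) (σ := I) hN hN' hR ?_ ?_
      (by simp) ?_ ?_ (y1 m).2.1 (y2 m).2.1 (y1 m).2.2
    · linear_combination h1'
    · linear_combination h2'
    · exact nI2 (b := Nf w z - I * Rf w z) (by
        linear_combination (Rf w z) * I_sq) hadm
    · exact nI3 (b := Nf w z - I * Rf w z) (by ring) hadm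
  have a1 := ang_tri t1
  have a2 := ang_tri t2
  unfold per
  rw [cL_true, cR_true]
  push_cast at a1 a2 ⊢
  have e1 : cL w z + (m : ℂ) + 1 = cL w z + ((m : ℂ) + 1) := by ring
  have e2 : cN w z + (m : ℂ) + 1 = cN w z + ((m : ℂ) + 1) := by ring
  rw [e1, e2]
  linarith

theorem per_false {w : List Bool} {z y : ℂ} (hc : Ch (false :: w) z)
    (hy : y ∉ Uo (false :: w) z) (m : ℤ) : per (false :: w) z y m = per w z y m := by
  have hNZ := NZ_of_Ch hc
  obtain ⟨hz, hL, hN, hR⟩ := hNZ.1.all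
  obtain ⟨_, _, hN', _⟩ := hNZ.all
  obtain ⟨h1, h2, h3⟩ := CEN hNZ.1
  obtain ⟨h1', h2', h3'⟩ := CEN hNZ
  rw [Lf_false, Rf_false, cL_false] at h1'
  rw [Lf_false, Rf_false, cR_false] at h2'
  have hgo : GoR (Lf w z) (Nf w z) (Rf w z) := hc.2
  have hadm := (ADM (false :: w) z hc).lo
  rw [Lf_false, Rf_false] at hadm
  have y1 := notU (fun h => hy (Uo_mono h)) (y := y) (w := w) (z := z)
  have y2 := notU hy
  have t1 : y ∉ convexHull ℝ {cN w z + (m : ℂ), cR w z + (m : ℂ),
      cL w z + ((m + 1 : ℤ) : ℂ)} := by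
    refine cov_three (A := Nf w z) (B := Rf w z) (C := Lf w z) (σ := -I) hN hR hL ?_ ?_
      (by simp) ?_ ?_ (y1 m).2.1 (y1 m).2.2 (y1 (m + 1)).1
    · linear_combination h2
    · push_cast
      rw [mul_comm (Rf w z)]
      linear_combination h3
    · exact nI0 (b := Lf w z - I * Nf w z) (by ring) hgo.lt
    · exact nI1 (b := Lf w z - I * Nf w z) (by
        linear_combination (-Nf w z) * I_sq) hgo.lt
  have t2 : y ∉ convexHull ℝ {cL w z + (m : ℂ), cN (false :: w) z + (m : ℂ),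
      cN w z + (m : ℂ)} := by
    refine cov_three (A := Lf w z) (B := Nf (false :: w) z) (C := Nf w z) (σ := I) hL hN' hN ?_ ?_
      (by simp) ?_ ?_ (y1 m).1 (y2 m).2.1 (y1 m).2.1
    · linear_combination h1'
    · linear_combination h2'
    · exact nI2 (b := Lf w z - I * Nf w z) (by
        linear_combination (Nf w z) * I_sq) hadm
    · exact nI3 (b := Lf w z - I * Nf w z) (by ring) hadm
  have a1 := ang_tri t1
  have a2 := ang_tri t2
  unfold per
  rw [cL_false, cR_false]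
  push_cast at a1 a2 ⊢
  have e1 : cL w z + (m : ℂ) + 1 = cL w z + ((m : ℂ) + 1) := by ring
  rw [e1]
  linarith

/-- Below the real line and outside the discs the zigzag is seen under the angle `-π`. -/
theorem SS_lim {w : List Bool} {z y : ℂ} (hc : Ch w z) (hy : y ∉ Uo w z) (him : y.im < 0) :
    Tendsto (fun M : ℕ => SS w z y M) atTop (𝓝 (-Real.pi)) := by
  induction w with
  | nil =>
    obtain ⟨hq, hlt⟩ := hc
    have hz : z ≠ 0 := by rintro rfl; exact absurd hq.1 (by simp)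
    have hzp : 0 < ‖z‖ := norm_pos_iff.mpr hz
    have y1 := notU hy
    -- the spikes cancel
    have hsp : ∀ m : ℤ, ang y (cL [] z + m) (cN [] z + m) +
        ang y (cN [] z + m) (cR [] z + m) = 0 := by
      intro m
      have hh : y ∉ convexHull ℝ {cL [] z + (m : ℂ), cN [] z + (m : ℂ), cL [] z + (m : ℂ)} := by
        set t : ℝ := min ‖z‖ 1 / 2 with ht
        have ht0 : 0 < t := by rw [ht]; positivity
        have ht1 : t < ‖z‖ := by
          rw [ht]; have := min_le_left ‖z‖ 1; linarith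
        have ht2 : t < 1 := by
          rw [ht]; have := min_le_right ‖z‖ 1; linarith
        have hV1 : ‖(m : ℂ) + t / z ^ 2 - (cL [] z + m)‖ * ‖Lf [] z‖ < 1 := by
          have e : (m : ℂ) + t / z ^ 2 - (cL [] z + m) = t / z ^ 2 := by
            simp only [cL, cen]; ring
          rw [e, norm_div, norm_pow, Complex.norm_real, Real.norm_of_nonneg ht0.le]
          show t / ‖z‖ ^ 2 * ‖z‖ < 1
          rw [div_mul_eq_mul_div, div_lt_one (by positivity)]
          nlinarith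
        have hV2 : ‖(m : ℂ) + t / z ^ 2 - (cN [] z + m)‖ * ‖Nf [] z‖ < 1 := by
          have e : (m : ℂ) + t / z ^ 2 - (cN [] z + m) = (((t - 1 : ℝ)) : ℂ) / z ^ 2 := by
            simp only [cN, cen]; push_cast; field_simp; ring
          rw [e, norm_div, norm_pow, Complex.norm_real, Real.norm_eq_abs]
          have e2 : ‖Nf [] z‖ = ‖z‖ ^ 2 := by
            simp [Nf, Tr, root]
          rw [e2, div_mul_cancel₀ _ (by positivity), abs_lt]
          constructor <;> linarith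
        exact cov_tri hV1 hV2 hV1 (norm_nonneg _) (norm_nonneg _) (norm_nonneg _)
          (y1 m).1 (y1 m).2.1 (y1 m).1
      have := ang_tri hh
      rw [ang_self] at this
      have e : cR [] z = cL [] z := rfl
      rw [e]
      exact this
    have hper : ∀ m : ℤ, per [] z y m = arg (((m + 1 : ℤ) : ℂ) - y) - arg ((m : ℂ) - y) := by
      intro m
      unfold per
      rw [hsp m, zero_add]
      have e1 : cR [] z + (m : ℂ) = m := by simp [cR, cen]
      have e2 : cL [] z + (m : ℂ) + 1 = ((m + 1 : ℤ) : ℂ) := by simp [cL, cen]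
      rw [e1, e2]
      unfold ang
      refine arg_div_of_im_pos ?_ ?_
      · simp only [sub_im, intCast_im]; linarith
      · simp only [sub_im, intCast_im]; linarith
    have hsum : ∀ M : ℕ, SS [] z y M = arg ((M : ℂ) - y) - arg (-(M : ℂ) - y) := by
      intro M
      unfold SS
      have h2 := Finset.sum_range_sub
        (fun k : ℕ => arg ((((-M + k : ℤ)) : ℂ) - y)) (2 * M)
      rw [show ∑ k ∈ Finset.range (2 * M), per [] z y (-M + k) =
        ∑ k ∈ Finset.range (2 * M), (arg ((((-M + ((k + 1 : ℕ) : ℤ) : ℤ)) : ℂ) - y) -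
          arg ((((-M + (k : ℤ) : ℤ)) : ℂ) - y)) from
        Finset.sum_congr rfl fun k _ => by rw [hper]; push_cast; ring_nf]
      rw [h2]
      congr 2
      · push_cast; ring
      · push_cast; ring
    simp_rw [hsum]
    have l1 := arg_lim (s := 1) (κ := -y) (d := 1) one_ne_zero (by simp [slitPlane])
    have l2 : Tendsto (fun M : ℕ => arg (-(M : ℂ) - y)) atTop (𝓝 Real.pi) := by
      have l3 := arg_lim (s := 1) (κ := y) (d := 1) one_ne_zero (by simp [slitPlane])
      rw [div_one, arg_one] at l3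
      have l4 := l3.add_const Real.pi
      rw [zero_add] at l4
      refine l4.congr fun M => ?_
      have hi : 0 < (-(M : ℂ) - y).im := by
        simp only [sub_im, neg_im, natCast_im]; linarith
      have := arg_neg_eq_arg_sub_pi_of_im_pos hi
      have e : -(-(M : ℂ) - y) = (1 * M + y) / 1 := by ring
      rw [e] at this
      rw [this]; ring
    rw [div_one, arg_one] at l1
    have l5 := l1.sub l2
    rw [zero_sub] at l5
    refine l5.congr fun M => ?_
    congr 2
    ring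
  | cons b w ih =>
    have hy' : y ∉ Uo w z := fun h => hy (Uo_mono h)
    have h1 := ih hc.1 hy'
    cases b with
    | false =>
      refine h1.congr fun M => ?_
      unfold SS
      exact (Finset.sum_congr rfl fun k _ => per_false hc hy _).symm
    | true =>
      have hs : ∀ M : ℕ, SS (true :: w) z y M = SS w z y M +
          (ang y (cL w z + 1 * M) (cN w z + 1 * M) -
            ang y (cL w z + (-1) * M) (cN w z + (-1) * M)) := by
        intro M
        unfold SS
        rw [Finset.sum_congr rfl fun k _ => per_true hc hy _, Finset.sum_add_distrib]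
        congr 1
        have h2 := Finset.sum_range_sub (fun k : ℕ => ang y (cL w z + ((-M + k : ℤ) : ℂ))
          (cN w z + ((-M + k : ℤ) : ℂ))) (2 * M)
        rw [show ∑ k ∈ Finset.range (2 * M), (ang y (cL w z + (((-M + k : ℤ) + 1 : ℤ) : ℂ))
            (cN w z + (((-M + k : ℤ) + 1 : ℤ) : ℂ)) -
            ang y (cL w z + ((-M + k : ℤ) : ℂ)) (cN w z + ((-M + k : ℤ) : ℂ))) =
          ∑ k ∈ Finset.range (2 * M), (ang y (cL w z + ((-M + ((k + 1 : ℕ) : ℤ) : ℤ) : ℂ))
            (cN w z + ((-M + ((k + 1 : ℕ) : ℤ) : ℤ) : ℂ)) -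
            ang y (cL w z + ((-M + (k : ℤ) : ℤ) : ℂ)) (cN w z + ((-M + (k : ℤ) : ℤ) : ℂ))) from
          Finset.sum_congr rfl fun k _ => by push_cast; ring_nf]
        rw [h2]
        congr 2
        · push_cast; ring
        · push_cast; ring
        · push_cast; ring
        · push_cast; ring
      have h3 := ang_tendsto y (cL w z) (cN w z) 1 one_ne_zero
      have h4 := ang_tendsto y (cL w z) (cN w z) (-1) (by norm_num)
      have h5 := h1.add (h3.sub h4)
      rw [sub_zero, add_zero] at h5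
      exact h5.congr fun M => (hs M).symm

theorem sum3 (g : ℕ → ℝ) (n : ℕ) : ∑ i ∈ Finset.range (3 * n), g i =
    ∑ k ∈ Finset.range n, (g (3 * k) + g (3 * k + 1) + g (3 * k + 2)) := by
  induction n with
  | zero => simp
  | succ n ih =>
    rw [show 3 * (n + 1) = 3 * n + 1 + 1 + 1 by ring, Finset.sum_range_succ,
      Finset.sum_range_succ, Finset.sum_range_succ, Finset.sum_range_succ, ih]
    ring

theorem cs_0 (w : List Bool) (z : ℂ) (a : ℤ) : cs w z (3 * a) = cL w z + a := by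
  unfold cs
  have h1 : (3 * a) % 3 = 0 := by omega
  have h2 : (3 * a) / 3 = a := by omega
  rw [if_pos h1, h2]

theorem cs_1 (w : List Bool) (z : ℂ) (a : ℤ) : cs w z (3 * a + 1) = cN w z + a := by
  unfold cs
  have h1 : (3 * a + 1) % 3 = 1 := by omega
  have h2 : (3 * a + 1) / 3 = a := by omega
  rw [if_neg (by omega), if_pos h1, h2]

theorem cs_2 (w : List Bool) (z : ℂ) (a : ℤ) : cs w z (3 * a + 2) = cR w z + a := by
  unfold cs
  have h1 : (3 * a + 2) % 3 = 2 := by omega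
  have h2 : (3 * a + 2) / 3 = a := by omega
  rw [if_neg (by omega), if_neg (by omega), h2]

theorem Xs_0 (w : List Bool) (z : ℂ) (a : ℤ) : Xs w z (3 * a) = Lf w z := by
  unfold Xs
  rw [if_pos (by omega)]

theorem Xs_1 (w : List Bool) (z : ℂ) (a : ℤ) : Xs w z (3 * a + 1) = Nf w z := by
  unfold Xs
  rw [if_neg (by omega), if_pos (by omega)]

theorem Xs_2 (w : List Bool) (z : ℂ) (a : ℤ) : Xs w z (3 * a + 2) = Rf w z := by
  unfold Xs
  rw [if_neg (by omega), if_neg (by omega)]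

theorem mod3 (j : ℤ) : (∃ a, j = 3 * a) ∨ (∃ a, j = 3 * a + 1) ∨ ∃ a, j = 3 * a + 2 := by
  rcases (by omega : j % 3 = 0 ∨ j % 3 = 1 ∨ j % 3 = 2) with h | h | h
  · exact Or.inl ⟨j / 3, by omega⟩
  · exact Or.inr (Or.inl ⟨j / 3, by omega⟩)
  · exact Or.inr (Or.inr ⟨j / 3, by omega⟩)

/-- Outside `Uo` one is outside all discs of the bottom chain. -/
theorem notU_cs {w : List Bool} {z y : ℂ} (hy : y ∉ Uo w z) (j : ℤ) :
    1 ≤ ‖y - cs w z j‖ * ‖Xs w z j‖ := by
  rcases mod3 j with ⟨a, rfl⟩ | ⟨a, rfl⟩ | ⟨a, rfl⟩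
  · rw [cs_0, Xs_0]; exact (notU hy a).1
  · rw [cs_1, Xs_1]; exact (notU hy a).2.1
  · rw [cs_2, Xs_2]; exact (notU hy a).2.2

theorem SS_eq (w : List Bool) (z y : ℂ) (M : ℕ) :
    ∑ i ∈ Finset.range (6 * M), ang y (cs w z (-(3 * M) + i)) (cs w z (-(3 * M) + i + 1)) =
      SS w z y M := by
  rw [show 6 * M = 3 * (2 * M) by ring, sum3]
  unfold SS per
  refine Finset.sum_congr rfl fun k _ => ?_
  have e0 : -(3 * (M : ℤ)) + ((3 * k : ℕ) : ℤ) = 3 * (-M + k) := by push_cast; ring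
  have e1 : -(3 * (M : ℤ)) + ((3 * k + 1 : ℕ) : ℤ) = 3 * (-M + k) + 1 := by push_cast; ring
  have e2 : -(3 * (M : ℤ)) + ((3 * k + 2 : ℕ) : ℤ) = 3 * (-M + k) + 2 := by push_cast; ring
  have e3 : (3 * (-(M : ℤ) + k) + 1 + 1) = 3 * (-M + k) + 2 := by ring
  have e4 : (3 * (-(M : ℤ) + k) + 2 + 1) = 3 * ((-M + k) + 1) := by ring
  rw [e0, e1, e2, e3, e4, cs_0, cs_1, cs_2, cs_0]
  congr 2
  push_cast; ring

/-- **COV**. -/
theorem COV {w : List Bool} {z y d : ℂ} {v : ℤ → ℂ} (hc : Ch w z)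
    (hchn : Chn (Xs w z) (cs w z) v d) (hy : y ∉ Uo w z) (him : y.im < 0) :
    y ∈ Er (Xs w z) (cs w z) v d := by
  by_contra hE
  have h1 := hchn.sum_pi (notU_cs hy) hE
  have h2 := SS_lim hc hy him
  have h3 : Tendsto (fun M : ℕ => SS w z y M) atTop (𝓝 Real.pi) :=
    h1.congr fun M => SS_eq w z y M
  have h4 := tendsto_nhds_unique h2 h3
  linarith [Real.pi_pos]

end Pool.Agent.M4
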