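import Pool.Agent.helper95.M4.VDefs

/-!
# Project M4, block V, COV: angle lemmas and covered triangles
-/

set_option autoImplicit false

namespace Pool.Agent.M4

open Complex ComplexConjugate Topology Filter

/-- The angle under which the segment from `p` to `q` is seen from `y`. -/
noncomputable def ang (y p q : ℂ) : ℝ := arg ((q - y) / (p - y))

theorem arg_div_of {P Q : ℂ} (hP : P ≠ 0) (hQ : Q ≠ 0) (h1 : -Real.pi < arg Q - arg P)
    (h2 : arg Q - arg P ≤ Real.pi) : arg (Q / P) = arg Q - arg P := by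
  have h := arg_div_coe_angle hQ hP
  have h3 : ((arg Q - arg P : ℝ) : Real.Angle) = (arg Q : Real.Angle) - (arg P : Real.Angle) := by
    push_cast; rfl
  rw [← h3] at h
  have h4 := congrArg Real.Angle.toReal h
  rw [arg_coe_angle_toReal_eq_arg, Real.Angle.toReal_coe_eq_self_iff.mpr ⟨h1, h2⟩] at h4
  exact h4

theorem arg_div_of_re_pos {P Q : ℂ} (hP : 0 < P.re) (hQ : 0 < Q.re) :
    arg (Q / P) = arg Q - arg P := by
  have h1 := abs_arg_lt_pi_div_two_iff.mpr (Or.inl hP)
  have h2 := abs_arg_lt_pi_div_two_iff.mpr (Or.inl hQ)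
  rw [abs_lt] at h1 h2
  refine arg_div_of (by rintro rfl; simp at hP) (by rintro rfl; simp at hQ) ?_ ?_ <;> linarith

theorem arg_div_of_im_pos {P Q : ℂ} (hP : 0 < P.im) (hQ : 0 < Q.im) :
    arg (Q / P) = arg Q - arg P := by
  have h1 : 0 ≤ arg P := arg_nonneg_iff.mpr hP.le
  have h2 : 0 ≤ arg Q := arg_nonneg_iff.mpr hQ.le
  have h3 : arg P ≤ Real.pi := arg_le_pi P
  have h4 : arg Q ≤ Real.pi := arg_le_pi Q
  have h5 : arg P ≠ Real.pi := by
    intro h
    rw [arg_eq_pi_iff] at h
    linarith [h.2]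
  have h6 : arg P < Real.pi := lt_of_le_of_ne h3 h5
  refine arg_div_of (by rintro rfl; simp at hP) (by rintro rfl; simp at hQ) ?_ ?_ <;> linarith

theorem arg_div_of_im_neg {P Q : ℂ} (hP : P.im < 0) (hQ : Q.im < 0) :
    arg (Q / P) = arg Q - arg P := by
  have h1 : arg P < 0 := arg_neg_iff.mpr hP
  have h2 : arg Q < 0 := arg_neg_iff.mpr hQ
  have h3 : -Real.pi < arg P := neg_pi_lt_arg P
  have h4 : -Real.pi < arg Q := neg_pi_lt_arg Q
  refine arg_div_of (by rintro rfl; simp at hP) (by rintro rfl; simp at hQ) ?_ ?_ <;> linarith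

/-- TRIANGLE LEMMA. -/
theorem ang_tri {y a b c : ℂ} (h : y ∉ convexHull ℝ {a, b, c}) :
    ang y a b + ang y b c = ang y a c := by
  have hcl : IsClosed (convexHull ℝ ({a, b, c} : Set ℂ)) :=
    (Set.Finite.isCompact_convexHull ℝ (by simp)).isClosed
  obtain ⟨f, u, h1, h2⟩ := geometric_hahn_banach_point_closed (convex_convexHull ℝ _) hcl h

  -- the functional is `x ↦ re (conj ω * x)`
  set ω : ℂ := ⟨f 1, f I⟩ with hω
  have hf : ∀ x : ℂ, f x = (conj ω * x).re := by
    intro x
    have e : x = x.re • (1 : ℂ) + x.im • I := by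
      apply Complex.ext <;> simp
    conv_lhs => rw [e]
    rw [map_add, map_smul, map_smul]
    simp [hω, mul_comm]
  have key : ∀ p ∈ ({a, b, c} : Set ℂ), 0 < (conj ω * (p - y)).re := by
    intro p hp
    have h3 := h2 p (subset_convexHull ℝ _ hp)
    have h4 : f p - f y = (conj ω * (p - y)).re := by
      rw [← map_sub, hf]
    linarith
  have hω0 : conj ω ≠ 0 := by
    intro h0
    have := key a (by simp)
    rw [h0] at this
    simp at this
  have ka := key a (by simp)
  have kb := key b (by simp)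
  have kc := key c (by simp)
  have e : ∀ p q : ℂ, (q - y) / (p - y) = (conj ω * (q - y)) / (conj ω * (p - y)) := by
    intro p q
    rw [mul_div_mul_left _ _ hω0]
  unfold ang
  rw [e a b, e b c, e a c, arg_div_of_re_pos ka kb, arg_div_of_re_pos kb kc,
    arg_div_of_re_pos ka kc]
  ring

theorem ang_self {y p : ℂ} : ang y p p = 0 := by
  unfold ang
  rcases eq_or_ne (p - y) 0 with h | h
  · rw [h]; simp
  · rw [div_self h, arg_one]

theorem ang_swap {y a b : ℂ} (h : y ∉ convexHull ℝ {a, b}) : ang y a b + ang y b a = 0 := by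
  have h1 : ({a, b, a} : Set ℂ) = {a, b} := by
    ext x; simp; tauto
  have := ang_tri (y := y) (a := a) (b := b) (c := a) (by rw [h1]; exact h)
  rw [this, ang_self]

theorem ang_add (y p q s : ℂ) : ang (y + s) (p + s) (q + s) = ang y p q := by
  unfold ang
  congr 2 <;> ring

/-- The half plane of the points closer to `V` than to `y` is convex. -/
theorem convex_closer (V y : ℂ) : Convex ℝ {x : ℂ | ‖V - x‖ < ‖y - x‖} := by
  have e : {x : ℂ | ‖V - x‖ < ‖y - x‖} =
      {x : ℂ | (2 : ℝ) * ((y - V).re * x.re + (y - V).im * x.im) < normSq y - normSq V} := by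
    ext x
    simp only [Set.mem_ofPred_eq]
    rw [← sq_lt_sq₀ (norm_nonneg _) (norm_nonneg _), ← normSq_eq_norm_sq, ← normSq_eq_norm_sq]
    simp only [normSq_apply, sub_re, sub_im]
    constructor <;> intro h <;> nlinarith
  rw [e]
  have h := convex_halfSpace_lt (𝕜 := ℝ)
    (f := fun x : ℂ => (2 : ℝ) * ((y - V).re * x.re + (y - V).im * x.im))
    ⟨fun a b => by simp only [add_re, add_im]; ring,
     fun a b => by simp only [real_smul, mul_re, mul_im, ofReal_re, ofReal_im, smul_eq_mul]; ring⟩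
    (normSq y - normSq V)
  exact h

theorem convex_closer' (V y : ℂ) : Convex ℝ {x : ℂ | ‖V - x‖ ≤ ‖y - x‖} := by
  have e : {x : ℂ | ‖V - x‖ ≤ ‖y - x‖} =
      {x : ℂ | (2 : ℝ) * ((y - V).re * x.re + (y - V).im * x.im) ≤ normSq y - normSq V} := by
    ext x
    simp only [Set.mem_ofPred_eq]
    rw [← sq_le_sq₀ (norm_nonneg _) (norm_nonneg _), ← normSq_eq_norm_sq, ← normSq_eq_norm_sq]
    simp only [normSq_apply, sub_re, sub_im]
    constructor <;> intro h <;> nlinarith
  rw [e]
  have h := convex_halfSpace_le (𝕜 := ℝ)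
    (f := fun x : ℂ => (2 : ℝ) * ((y - V).re * x.re + (y - V).im * x.im))
    ⟨fun a b => by simp only [add_re, add_im]; ring,
     fun a b => by simp only [real_smul, mul_re, mul_im, ofReal_re, ofReal_im, smul_eq_mul]; ring⟩
    (normSq y - normSq V)
  exact h

/-- COVERED TRIANGLE: three discs with a common interior point cover the triangle of their
centres. -/
theorem cov_tri {V y a b c : ℂ} {ra rb rc : ℝ} (ha : ‖V - a‖ * ra < 1) (hb : ‖V - b‖ * rb < 1)
    (hc : ‖V - c‖ * rc < 1) (hra : 0 ≤ ra) (hrb : 0 ≤ rb) (hrc : 0 ≤ rc)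
    (ya : 1 ≤ ‖y - a‖ * ra) (yb : 1 ≤ ‖y - b‖ * rb) (yc : 1 ≤ ‖y - c‖ * rc) :
    y ∉ convexHull ℝ {a, b, c} := by
  intro hy
  have h1 : convexHull ℝ {a, b, c} ⊆ {x : ℂ | ‖V - x‖ < ‖y - x‖} := by
    apply convexHull_min _ (convex_closer V y)
    rintro x (rfl | rfl | rfl)
    · by_contra h
      rw [Set.mem_ofPred_eq, not_lt] at h
      have := mul_le_mul_of_nonneg_right h hra
      linarith
    · by_contra h
      rw [Set.mem_ofPred_eq, not_lt] at h
      have := mul_le_mul_of_nonneg_right h hrb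
      linarith
    · by_contra h
      rw [Set.mem_ofPred_eq, not_lt] at h
      have := mul_le_mul_of_nonneg_right h hrc
      linarith
  have h2 := h1 hy
  simp only [Set.mem_ofPred_eq, sub_self, norm_zero] at h2
  exact absurd h2 (not_lt.mpr (norm_nonneg _))

/-- The triangle of two centres and a corner. -/
theorem cov_tri2 {V y a b : ℂ} {ra rb : ℝ} (ha : ‖V - a‖ * ra = 1) (hb : ‖V - b‖ * rb = 1)
    (hra : 0 < ra) (hrb : 0 < rb) (ya : 1 ≤ ‖y - a‖ * ra) (yb : 1 ≤ ‖y - b‖ * rb) (hV : y ≠ V) :
    y ∉ convexHull ℝ {a, V, b} := by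
  intro hy
  have h1 : convexHull ℝ {a, V, b} ⊆ {x : ℂ | ‖V - x‖ ≤ ‖y - x‖} := by
    apply convexHull_min _ (convex_closer' V y)
    rintro x (rfl | rfl | rfl)
    · by_contra h
      rw [Set.mem_ofPred_eq, not_le] at h
      have := mul_lt_mul_of_pos_right h hra
      linarith
    · simp
    · by_contra h
      rw [Set.mem_ofPred_eq, not_le] at h
      have := mul_lt_mul_of_pos_right h hrb
      linarith
  have h2 := h1 hy
  simp only [Set.mem_ofPred_eq, sub_self, norm_zero] at h2
  have h3 : V - y = 0 := norm_le_zero_iff.mp h2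
  exact hV (sub_eq_zero.mp h3).symm

/-- The triangle of a centre and two points of the circle. -/
theorem cov_tri3 {y a b c : ℂ} {r : ℝ} (ha : ‖a - c‖ * r = 1) (hb : ‖b - c‖ * r = 1)
    (hr : 0 < r) (yc : 1 ≤ ‖y - c‖ * r) (hya : y ≠ a) (hyb : y ≠ b) :
    y ∉ convexHull ℝ {a, c, b} := by
  intro hy
  have hpos : 0 < ‖y - c‖ := by
    by_contra h
    have : ‖y - c‖ = 0 := le_antisymm (not_lt.mp h) (norm_nonneg _)
    rw [this] at yc; linarith
  have hge : ∀ p : ℂ, ‖p - c‖ * r = 1 → ‖p - c‖ ≤ ‖y - c‖ := by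
    intro p hp
    by_contra h
    rw [not_le] at h
    have := mul_lt_mul_of_pos_right h hr
    linarith
  have key : ∀ p : ℂ, ‖p - c‖ ≤ ‖y - c‖ → p ≠ y →
      ((y - c).re * (p - c).re + (y - c).im * (p - c).im) < normSq (y - c) := by
    intro p hp hpy
    have h1 : normSq (p - c) ≤ normSq (y - c) := by
      rw [normSq_eq_norm_sq, normSq_eq_norm_sq]
      exact pow_le_pow_left₀ (norm_nonneg _) hp 2
    have h2 : 0 < normSq (p - y) := normSq_pos.mpr (sub_ne_zero.mpr hpy)
    simp only [normSq_apply, sub_re, sub_im] at h1 h2 ⊢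
    nlinarith
  have hconv : Convex ℝ {x : ℂ | ((y - c).re * (x - c).re + (y - c).im * (x - c).im)
      < normSq (y - c)} := by
    have e : {x : ℂ | ((y - c).re * (x - c).re + (y - c).im * (x - c).im) < normSq (y - c)} =
      {x : ℂ | ((y - c).re * x.re + (y - c).im * x.im) <
        normSq (y - c) + (y - c).re * c.re + (y - c).im * c.im} := by
      ext x
      simp only [Set.mem_ofPred_eq, sub_re, sub_im]
      constructor <;> intro h <;> nlinarith
    rw [e]
    exact convex_halfSpace_lt (𝕜 := ℝ)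
      (f := fun x : ℂ => ((y - c).re * x.re + (y - c).im * x.im))
      ⟨fun a b => by simp only [add_re, add_im]; ring,
       fun a b => by simp only [real_smul, mul_re, mul_im, ofReal_re, ofReal_im, smul_eq_mul]; ring⟩ _
  have h1 : convexHull ℝ {a, c, b} ⊆ {x : ℂ |
      ((y - c).re * (x - c).re + (y - c).im * (x - c).im) < normSq (y - c)} := by
    apply convexHull_min _ hconv
    rintro x (rfl | rfl | rfl)
    · exact key _ (hge _ ha) hya.symm
    · simp only [Set.mem_ofPred_eq, sub_self, zero_re, zero_im, mul_zero, add_zero]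
      rw [normSq_eq_norm_sq]; positivity
    · exact key _ (hge _ hb) hyb.symm
  have h2 := h1 hy
  simp only [Set.mem_ofPred_eq, normSq_apply] at h2
  linarith

/-- Far away segments are seen under small angles. -/
theorem ang_tendsto (y p q : ℂ) (s : ℂ) (hs : s ≠ 0) :
    Tendsto (fun M : ℕ => ang y (p + s * M) (q + s * M)) atTop (𝓝 0) := by
  have h1 : Tendsto (fun M : ℕ => (q + s * M - y) / (p + s * M - y)) atTop (𝓝 1) := by
    have h2 : Tendsto (fun M : ℕ => 1 + (q - p) / (p + s * M - y)) atTop (𝓝 (1 + 0)) := by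
      refine tendsto_const_nhds.add ?_
      have h3 : Tendsto (fun M : ℕ => p + s * M - y) atTop (Bornology.cobounded ℂ) := by
        have h4 : Tendsto (fun M : ℕ => s * (M : ℂ)) atTop (Bornology.cobounded ℂ) := by
          rw [← tendsto_norm_atTop_iff_cobounded]
          have : (fun M : ℕ => ‖s * (M : ℂ)‖) = fun M : ℕ => ‖s‖ * (M : ℝ) := by
            ext M; rw [norm_mul, Complex.norm_natCast]
          rw [this]
          exact Tendsto.const_mul_atTop (norm_pos_iff.mpr hs) tendsto_natCast_atTop_atTop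
        have h5 : (fun M : ℕ => p + s * M - y) = fun M : ℕ => s * (M : ℂ) + (p - y) := by
          ext M; ring
        rw [h5]
        exact (tendsto_add_const_cobounded (p - y)).comp h4
      have h6 : Tendsto (fun M : ℕ => (q - p) * (p + s * M - y)⁻¹) atTop (𝓝 ((q - p) * 0)) :=
        tendsto_const_nhds.mul (tendsto_inv₀_cobounded.comp h3)
      rw [mul_zero] at h6
      simpa only [div_eq_mul_inv] using h6
    rw [add_zero] at h2
    have h7 : ∀ᶠ M : ℕ in atTop, p + s * M - y ≠ 0 := by
      have h8 : Tendsto (fun M : ℕ => ‖p + s * M - y‖) atTop atTop := by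
        have h9 : ∀ M : ℕ, ‖s‖ * M - ‖p - y‖ ≤ ‖p + s * M - y‖ := by
          intro M
          have : s * M = (p + s * M - y) - (p - y) := by ring
          have h10 : ‖s * (M : ℂ)‖ ≤ ‖p + s * M - y‖ + ‖p - y‖ := by
            conv_lhs => rw [this]
            exact norm_sub_le _ _
          rw [norm_mul, Complex.norm_natCast] at h10
          linarith
        refine tendsto_atTop_mono h9 ?_
        exact tendsto_atTop_add_const_right _ _
          (Tendsto.const_mul_atTop (norm_pos_iff.mpr hs) tendsto_natCast_atTop_atTop)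
      filter_upwards [h8.eventually_gt_atTop 0] with M hM
      exact norm_pos_iff.mp hM
    refine h2.congr' ?_
    filter_upwards [h7] with M hM
    field_simp
    ring
  have h11 : ContinuousAt arg (1 : ℂ) := continuousAt_arg (by simp [slitPlane])
  have := h11.tendsto.comp h1
  rw [arg_one] at this
  exact this

end Pool.Agent.M4
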