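import Pool.Agent.helper95.M4.Final

/-! The hopping spectrum is closed, and the frozen statement S03975 follows from the inclusion
`hoppingSpectrum ⊆ periodicPart`. -/

set_option autoImplicit false

namespace Pool.Agent.M4

open Complex Pool.Agent.FZ

theorem hopping_closed : IsClosed hoppingSpectrum := by
  rw [← closure_subset_iff_isClosed]
  intro l hl
  rw [mem_hopping_iff]
  apply bs_of_windows
  intro N
  have hε : (0 : ℝ) < 1 / (2 * ((N : ℝ) + 1)) := by positivity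
  obtain ⟨l', hl', hd⟩ := Metric.mem_closure_iff.mp hl _ hε
  rw [mem_hopping_iff] at hl'
  obtain ⟨c, φ, hc, hs, h0, hb⟩ := hl'
  refine ⟨c, φ, hc, h0, fun m _ => hb m, fun m _ => ?_⟩
  have e : φ (m + 1) + c m * φ (m - 1) - l * φ m = (l' - l) * φ m := by
    linear_combination hs m
  rw [e, norm_mul]
  rw [dist_comm, dist_eq_norm] at hd
  calc ‖l' - l‖ * ‖φ m‖ ≤ (1 / (2 * ((N : ℝ) + 1))) * 2 := by
        gcongr
        exact hb m
    _ = 1 / ((N : ℝ) + 1) := by field_simp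

theorem periodic_sub_hopping : periodicPart ⊆ hoppingSpectrum := by
  refine closure_minimal ?_ hopping_closed
  rintro z ⟨c, hc, _, hz⟩
  exact ⟨c, hc, hz⟩

theorem eq_of_sub (h : hoppingSpectrum ⊆ periodicPart) : periodicPart = hoppingSpectrum :=
  periodic_sub_hopping.antisymm h

/-- The frozen statement, from the inclusion. -/
theorem frozen_of_sub (h : hoppingSpectrum ⊆ periodicPart) :
    closure {z : ℂ | ∃ c : ℤ → ℂ, (∀ n, c n = 1 ∨ c n = -1) ∧
        (∃ p : ℕ, 0 < p ∧ ∀ n : ℤ, c (n + (p : ℤ)) = c n) ∧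
        ∃ T : lp (fun _ : ℤ => ℂ) 2 →L[ℂ] lp (fun _ : ℤ => ℂ) 2,
          (∀ (x : lp (fun _ : ℤ => ℂ) 2) (n : ℤ), (T x) n = x (n + 1) + c n * x (n - 1)) ∧
          z ∈ spectrum ℂ T}
      = {z : ℂ | ∃ c : ℤ → ℂ, (∀ n, c n = 1 ∨ c n = -1) ∧
        ∃ T : lp (fun _ : ℤ => ℂ) 2 →L[ℂ] lp (fun _ : ℤ => ℂ) 2,
          (∀ (x : lp (fun _ : ℤ => ℂ) 2) (n : ℤ), (T x) n = x (n + 1) + c n * x (n - 1)) ∧
          z ∈ spectrum ℂ T} := eq_of_sub h

end Pool.Agent.M4
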