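import Mathlib

/-!
# Project M4 (MP_1b8d20, frozen statement S03975: Sigma_pi = Sigma): common definitions

Convention (page MP_1b8d20_M4_helper30_ford.md): chain `L -> N -> R -> L + 1`, Markoff triples
`L^2 + N^2 + R^2 = L N R`, root `(z, -i z^2, -i z)`.  Moves: drop L: `(N, N R - L, R)`;
drop R: `(L, L N - R, N)`.  Words are `List Bool`, the LAST move is the head
(`true` = drop L, `false` = drop R): parent = tail, ancestors = suffixes, depth = length.
-/

set_option autoImplicit false

namespace Pool.Agent.M4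

open Complex ComplexConjugate

/-- The open first quadrant. -/
def Qd : Set ℂ := {z : ℂ | 0 < z.re ∧ 0 < z.im}

/-- A triple of complex numbers. -/
@[ext] structure Tri where
  /-- left entry -/
  L : ℂ
  /-- newest entry -/
  N : ℂ
  /-- right entry -/
  R : ℂ

/-- The root triple. -/
def root (z : ℂ) : Tri := ⟨z, -I * z ^ 2, -I * z⟩

/-- The move which drops the left entry. -/
def dropL (t : Tri) : Tri := ⟨t.N, t.N * t.R - t.L, t.R⟩

/-- The move which drops the right entry. -/
def dropR (t : Tri) : Tri := ⟨t.L, t.L * t.N - t.R, t.N⟩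

/-- One move. -/
def mv : Bool → Tri → Tri
  | true, t => dropL t
  | false, t => dropR t

/-- The triple at a word (last move at the head of the list). -/
def Tr : List Bool → ℂ → Tri
  | [], z => root z
  | b :: w, z => mv b (Tr w z)

/-- The left entry at the word `w`, as a function (polynomial) of `z`. -/
def Lf (w : List Bool) (z : ℂ) : ℂ := (Tr w z).L
/-- The newest entry at the word `w`. -/
def Nf (w : List Bool) (z : ℂ) : ℂ := (Tr w z).N
/-- The right entry at the word `w`. -/
def Rf (w : List Bool) (z : ℂ) : ℂ := (Tr w z).R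

/-- The Markoff equation. -/
def Mk (L N R : ℂ) : Prop := L ^ 2 + N ^ 2 + R ^ 2 = L * N * R

/-- Condition (I) of the page: `L` in the first, `R` in the fourth open quadrant, angle from `R`
to `L` at most a right angle, `|L - iR| < |N| < |L + iR|`. -/
structure Adm (L N R : ℂ) : Prop where
  reL : 0 < L.re
  imL : 0 < L.im
  reR : 0 < R.re
  imR : R.im < 0
  gam : 0 ≤ (L * conj R).re
  lo : ‖L - I * R‖ < ‖N‖
  hi : ‖N‖ < ‖L + I * R‖

/-- The algorithm drops `L`. -/
structure GoL (L N R : ℂ) : Prop where
  im : 0 < N.im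
  re : 0 < (N * conj R).re
  lt : ‖N - I * R‖ < ‖L‖

/-- The algorithm drops `R`. -/
structure GoR (L N R : ℂ) : Prop where
  im : N.im < 0
  re : 0 < (L * conj N).re
  lt : ‖L - I * N‖ < ‖R‖

/-- The algorithm makes the move `b` at the triple `(L, N, R)`. -/
def Go : Bool → ℂ → ℂ → ℂ → Prop
  | true, L, N, R => GoL L N R
  | false, L, N, R => GoR L N R

/-- The top condition: all three visible angles are nonnegative, and not both of
`theta_L, theta_R` vanish (`theta_N > 0` is `Adm.hi`). -/
structure Top (L N R : ℂ) : Prop where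
  reNR : 0 < (N * conj R).re
  reLN : 0 < (L * conj N).re
  thL : ‖L‖ ≤ ‖N - I * R‖
  thR : ‖R‖ ≤ ‖L - I * N‖
  ne : ‖L‖ < ‖N - I * R‖ ∨ ‖R‖ < ‖L - I * N‖

/-- FAIL, left version. -/
def FailL (N R : ℂ) : Prop := 0 < N.im ∧ (N * conj R).re ≤ 0

/-- FAIL, right version. -/
def FailR (L N : ℂ) : Prop := N.im < 0 ∧ (L * conj N).re ≤ 0

/-- The algorithm started at the root runs through the word `w` at the point `z`. -/
def Ch : List Bool → ℂ → Prop
  | [], z => z ∈ Qd ∧ ‖z‖ < 2
  | b :: w, z => Ch w z ∧ Go b (Lf w z) (Nf w z) (Rf w z)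

/-- The algorithm stops at the word `w` with a top triple. -/
def InT (w : List Bool) (z : ℂ) : Prop := Ch w z ∧ Top (Lf w z) (Nf w z) (Rf w z)

/-- The set of the points at which the algorithm stops with a top triple. -/
def TT : Set ℂ := {z | ∃ w, InT w z}

/-- Logarithmic derivative with respect to `log z`. -/
noncomputable def dl (f : ℂ → ℂ) (z : ℂ) : ℂ := z * deriv f z / f z

/-- `zeta` of the left entry. -/
noncomputable def zL (w : List Bool) (z : ℂ) : ℂ := dl (Lf w) z
/-- `zeta` of the newest entry. -/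
noncomputable def zN (w : List Bool) (z : ℂ) : ℂ := dl (Nf w) z
/-- `zeta` of the right entry. -/
noncomputable def zR (w : List Bool) (z : ℂ) : ℂ := dl (Rf w) z

/-- The symplectic area of the triangle of the zetas (sign convention of the lower side:
it is `0` at the root and increases at each move of the algorithm). -/
noncomputable def Om (w : List Bool) (z : ℂ) : ℝ :=
  (conj (zL w z) * zN w z + conj (zN w z) * zR w z + conj (zR w z) * zL w z).im

/-- A fan with pivot `R`: a solution of the recursion with the Markoff normalisation. -/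
structure Fan (R : ℂ) (x : ℤ → ℂ) : Prop where
  step : ∀ k, x (k + 1) = R * x k - x (k - 1)
  mar : ∀ k, x k ^ 2 + x (k + 1) ^ 2 + R ^ 2 = R * x k * x (k + 1)

/-- The group generated by `x ↦ x + 1`, `x ↦ -x`, `x ↦ -1/(z^2 x)`, as a set of matrices of
determinant one (`z ≠ 0`). -/
def Gp (z : ℂ) : Submonoid (Matrix (Fin 2) (Fin 2) ℂ) :=
  Submonoid.closure {!![1, 1; 0, 1], !![1, -1; 0, 1], !![I, 0; 0, -I], !![0, -z⁻¹; z, 0]}

/-- The lower left entries of the elements of the group are zero or bounded from below. -/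
def PPc (z : ℂ) : Prop := ∃ δ : ℝ, 0 < δ ∧ ∀ g ∈ Gp z, g 1 0 = 0 ∨ δ ≤ ‖g 1 0‖

end Pool.Agent.M4
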