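import Pool.Agent.helper95.M4.AsmF
import Pool.Agent.helper26.M4.R2
import Pool.Agent.helper30.M4F.R1

/-!
# Project M4: the explicit description of the periodic part by the Farey polynomials
-/

set_option autoImplicit false

namespace Pool.Agent.M4

open Complex ComplexConjugate Pool.Agent.FZ Topology Filter

/-- The points of the small quadrant at which some Farey polynomial is small, or takes a value
in the real segment `[-2, 2]`. -/
def Bd : Set ℂ := {y : ℂ | y ∈ Qd ∧ ‖y‖ < 2 ∧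
  (‖y‖ < 1 ∨ ∃ w, ‖Nf w y‖ < 1 ∨ ((Nf w y).im = 0 ∧ |(Nf w y).re| ≤ 2))}

theorem Bd_sub : Bd ⊆ periodicPart := by
  rintro y ⟨hq, h2, h⟩
  by_contra hp
  have hG := GOOD y hq h2 hp
  rcases h with h | ⟨w, h | ⟨h, h'⟩⟩
  · exact absurd hG.one (not_le.mpr h)
  · exact absurd (hG.big w) (not_le.mpr h)
  · exact absurd (hG.nonreal w h) (not_lt.mpr h')

theorem good_of_not {y : ℂ} (hq : y ∈ Qd) (h2 : ‖y‖ < 2) (h : y ∉ Bd) : Good y := by
  refine ⟨hq, h2, ?_, fun w => ?_, fun w hw => ?_⟩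
  · by_contra hc
    exact h ⟨hq, h2, Or.inl (not_le.mp hc)⟩
  · by_contra hc
    exact h ⟨hq, h2, Or.inr ⟨w, Or.inl (not_le.mp hc)⟩⟩
  · by_contra hc
    exact h ⟨hq, h2, Or.inr ⟨w, Or.inr ⟨hw, not_lt.mp hc⟩⟩⟩

/-- The algorithm stops at every point of an open set of good points. -/
theorem alg_open {U : Set ℂ} (hU : IsOpen U) (hG : ∀ y ∈ U, Good y) {z : ℂ} (hz : z ∈ U) :
    z ∈ TT := by
  by_contra hT
  have hF : FAIL_stmt := M4F.FAIL_of2 M4F.LC1b M4F.R1 Cov.R2
  refine INF U z hU hz hG ?_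
  intro n
  induction n with
  | zero => exact ⟨[], rfl, (hG z hz).q, (hG z hz).lt⟩
  | succ n ih =>
    obtain ⟨w, hw, hc⟩ := ih
    obtain ⟨b, hb⟩ := step_alg ADM (fun _ _ _ hM h him hre hth => RULEL hM h him hre hth)
      (fun _ _ _ hM h him hre hth => RULER hM h him hre hth) REALT hF (hG z hz) hc hT
    exact ⟨b :: w, by simp [hw], hb⟩

/-- The periodic part in the open quadrant. -/
theorem mem_per_iff {z : ℂ} (hz : z ∈ Qd) : z ∈ periodicPart ↔ z ∈ closure Bd := by
  constructor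
  · intro hp
    by_contra hc
    have h2 : ‖z‖ < 2 := by
      by_contra h
      exact Wd_disj WIDE (Wd_of_norm hz (not_lt.mp h)) hp
    have hop : IsOpen ((closure Bd)ᶜ ∩ (Qd ∩ Metric.ball (0 : ℂ) 2)) := by
      refine isClosed_closure.isOpen_compl.inter (IsOpen.inter ?_ Metric.isOpen_ball)
      exact (isOpen_lt continuous_const continuous_re).inter
        (isOpen_lt continuous_const continuous_im)
    have hT : z ∈ TT := by
      refine alg_open hop (fun y hy => ?_) ⟨hc, hz, by simpa using h2⟩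
      exact good_of_not hy.2.1 (by simpa using hy.2.2) fun h => hy.1 (subset_closure h)
    exact tt_disj TT_open (CLOPEN CLS) PP_V END z hT hp
  · intro hc
    exact closure_minimal Bd_sub isClosed_closure hc

theorem per_conj {z : ℂ} : conj z ∈ periodicPart ↔ z ∈ periodicPart :=
  ⟨fun h => by simpa using SYM.2 _ h, fun h => SYM.2 _ h⟩

theorem per_neg {z : ℂ} : -z ∈ periodicPart ↔ z ∈ periodicPart :=
  ⟨fun h => by simpa using SYM.1 _ h, fun h => SYM.1 _ h⟩

theorem per_abs (z : ℂ) : (⟨|z.re|, |z.im|⟩ : ℂ) ∈ periodicPart ↔ z ∈ periodicPart := by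
  rcases abs_choice z.re with h1 | h1 <;> rcases abs_choice z.im with h2 | h2
  · have e : (⟨|z.re|, |z.im|⟩ : ℂ) = z := by
      apply Complex.ext <;> simp [h1, h2]
    rw [e]
  · have e : (⟨|z.re|, |z.im|⟩ : ℂ) = conj z := by
      apply Complex.ext <;> simp [h1, h2]
    rw [e, per_conj]
  · have e : (⟨|z.re|, |z.im|⟩ : ℂ) = -conj z := by
      apply Complex.ext <;> simp [h1, h2]
    rw [e, per_neg, per_conj]
  · have e : (⟨|z.re|, |z.im|⟩ : ℂ) = -z := by
      apply Complex.ext <;> simp [h1, h2]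
    rw [e, per_neg]

/-- The spectrum is the periodic part. -/
theorem per_eq : periodicPart = hoppingSpectrum :=
  eq_of_sub (main_of_rows M4F.R1 Cov.R2)

/-- The whole spectrum off the axes. -/
theorem mem_hop_iff {z : ℂ} (h1 : z.re ≠ 0) (h2 : z.im ≠ 0) :
    z ∈ hoppingSpectrum ↔ (⟨|z.re|, |z.im|⟩ : ℂ) ∈ closure Bd := by
  rw [← per_eq, ← per_abs, mem_per_iff]
  exact ⟨abs_pos.mpr h1, abs_pos.mpr h2⟩

end Pool.Agent.M4
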