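import Pool.Agent.helper95.M4.LT

/-!
# Project M4, block V: limits of chains (closedness, interior, local tiling LT)
-/

set_option autoImplicit false

namespace Pool.Agent.M4

open Complex ComplexConjugate Topology Filter

/-- Convergence of chains. -/
structure Cvg {ι : Type*} (l : Filter ι) (X c v : ι → ℤ → ℂ) (d : ι → ℂ) (X0 c0 v0 : ℤ → ℂ)
    (d0 : ℂ) : Prop where
  hn : ∀ᶠ i in l, ChS (X i) (c i) (v i) (d i)
  h0 : ChS X0 c0 v0 d0
  tX : ∀ j, Tendsto (fun i => X i j) l (𝓝 (X0 j))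
  tc : ∀ j, Tendsto (fun i => c i j) l (𝓝 (c0 j))
  tv : ∀ j, Tendsto (fun i => v i j) l (𝓝 (v0 j))
  td : Tendsto d l (𝓝 d0)

section lim

variable {ι : Type*} {l : Filter ι} {X c v : ι → ℤ → ℂ} {d : ι → ℂ} {X0 c0 v0 : ℤ → ℂ} {d0 : ℂ}
  {y : ι → ℂ} {p : ℂ}

theorem tendsto_xi (hd : Tendsto d l (𝓝 d0)) (hy : Tendsto y l (𝓝 p)) :
    Tendsto (fun i => xi (d i) (y i)) l (𝓝 (xi d0 p)) := by
  have h : Continuous fun q : ℂ × ℂ => xi q.1 q.2 := by unfold xi; fun_prop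
  exact (h.tendsto (d0, p)).comp (hd.prodMk_nhds hy)

theorem tendsto_dn (hd : Tendsto d l (𝓝 d0)) (hy : Tendsto y l (𝓝 p)) :
    Tendsto (fun i => dn (d i) (y i)) l (𝓝 (dn d0 p)) := by
  have h : Continuous fun q : ℂ × ℂ => dn q.1 q.2 := by unfold dn; fun_prop
  exact (h.tendsto (d0, p)).comp (hd.prodMk_nhds hy)

theorem Cvg.tq (h : Cvg l X c v d X0 c0 v0 d0) (hy : Tendsto y l (𝓝 p)) (j : ℤ) :
    Tendsto (fun i => qd (X i j) (c i j) (y i)) l (𝓝 (qd (X0 j) (c0 j) p)) :=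
  (hy.sub (h.tc j)).norm.mul (h.tX j).norm

theorem Cvg.tiv (h : Cvg l X c v d X0 c0 v0 d0) (hy : Tendsto y l (𝓝 p)) {j : ℤ}
    (hp : p ≠ c0 j) :
    Tendsto (fun i => iv (X i j) (c i j) (y i)) l (𝓝 (iv (X0 j) (c0 j) p)) := by
  unfold iv
  refine (h.tc j).sub (tendsto_const_nhds.div (((h.tX j).pow 2).mul (hy.sub (h.tc j))) ?_)
  exact mul_ne_zero (pow_ne_zero 2 (h.h0.nz j)) (sub_ne_zero.mpr hp)

/-- The slabs of a point form an open interval of integers. -/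
theorem Chn.slab_ioo {X c v : ℤ → ℂ} {d : ℂ} (h : Chn X c v d) (p : ℂ) :
    ∃ a b : ℤ, xi d (v a) < xi d p ∧ xi d p < xi d (v (b - 1)) ∧
      (∀ j, InS v d j p ↔ a < j ∧ j < b) := by
  have hpos := h.xi1
  -- left end
  obtain ⟨n, hn⟩ := exists_nat_gt ((xi d (v 0) - xi d p) / xi d 1)
  obtain ⟨m, hm⟩ := exists_nat_gt ((xi d p - xi d (v 0)) / xi d 1)
  rw [div_lt_iff₀ hpos] at hn hm
  have hl1 : xi d (v (0 - 3 * (n : ℤ))) < xi d p := by
    rw [h.xiv_m 0 n]; linarith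
  have hr1 : xi d p < xi d (v (0 + 3 * (m : ℤ))) := by
    rw [h.xiv_n 0 m]; linarith
  have hl2 : ∀ j : ℤ, xi d (v j) < xi d p → j ≤ 0 + 3 * (m : ℤ) := by
    intro j hj
    by_contra hcon
    have := h.ximono (le_of_lt (not_le.mp hcon))
    linarith
  have hr2 : ∀ j : ℤ, xi d p < xi d (v (j - 1)) → 0 - 3 * (n : ℤ) ≤ j := by
    intro j hj
    by_contra hcon
    have := h.ximono (show j - 1 ≤ 0 - 3 * (n : ℤ) by linarith [not_le.mp hcon])
    linarith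
  obtain ⟨a, ha1, ha2⟩ := Int.exists_greatest_of_bdd (P := fun j => xi d (v j) < xi d p)
    ⟨_, hl2⟩ ⟨_, hl1⟩
  obtain ⟨b, hb1, hb2⟩ := Int.exists_least_of_bdd (P := fun j => xi d p < xi d (v (j - 1)))
    ⟨_, hr2⟩ ⟨0 + 3 * (m : ℤ) + 1, by simpa using hr1⟩
  refine ⟨a, b, ha1, hb1, fun j => ⟨fun hj => ⟨?_, ?_⟩, fun hj => ⟨?_, ?_⟩⟩⟩
  · by_contra hcon
    have := h.ximono (not_lt.mp hcon)
    linarith [hj.2]
  · by_contra hcon
    have := h.ximono (show b - 1 ≤ j - 1 by linarith [not_lt.mp hcon])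
    linarith [hj.1]
  · by_contra hcon
    have := hb2 j (not_le.mp hcon)
    linarith [hj.2]
  · by_contra hcon
    have := ha2 j (not_le.mp hcon)
    linarith [hj.1]

/-- Eventually the slabs of the points are slabs of the limit. -/
theorem Cvg.slabs (h : Cvg l X c v d X0 c0 v0 d0) (hy : Tendsto y l (𝓝 p)) :
    ∃ a b : ℤ, (∀ j, InS v0 d0 j p ↔ a < j ∧ j < b) ∧
      ∀ᶠ i in l, ∀ j, InS (v i) (d i) j (y i) → a < j ∧ j < b := by
  obtain ⟨a, b, ha, hb, hJ⟩ := h.h0.toChn.slab_ioo p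
  refine ⟨a, b, hJ, ?_⟩
  have e1 := (tendsto_xi h.td (h.tv a)).eventually_lt (tendsto_xi h.td hy) ha
  have e2 := (tendsto_xi h.td hy).eventually_lt (tendsto_xi h.td (h.tv (b - 1))) hb
  filter_upwards [e1, e2, h.hn] with i h1 h2 h3 j hj
  constructor
  · by_contra hcon
    have := h3.toChn.ximono (not_lt.mp hcon)
    linarith [hj.2]
  · by_contra hcon
    have := h3.toChn.ximono (show b - 1 ≤ j - 1 by linarith [not_lt.mp hcon])
    linarith [hj.1]

/-- Interior and corners: it suffices to avoid the circles of the slabs of the limit. -/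
theorem Cvg.mem (h : Cvg l X c v d X0 c0 v0 d0) (hy : Tendsto y l (𝓝 p))
    (hp : ∀ j, InS v0 d0 j p → dn d0 (c0 j) < dn d0 p) :
    ∀ᶠ i in l, (∀ j, InS v0 d0 j p → 1 ≤ qd (X i j) (c i j) (y i)) →
      y i ∈ Er (X i) (c i) (v i) (d i) := by
  obtain ⟨a, b, hJ, hev⟩ := h.slabs hy
  have e1 : ∀ᶠ i in l, ∀ j ∈ Finset.Ioo a b, dn (d i) (c i j) < dn (d i) (y i) := by
    rw [Filter.eventually_all_finset]
    intro j hj
    rw [Finset.mem_Ioo] at hj
    exact (tendsto_dn h.td (h.tc j)).eventually_lt (tendsto_dn h.td hy) (hp j ((hJ j).mpr hj))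
  filter_upwards [e1, hev, h.hn] with i h1 h2 h3 h4
  obtain ⟨j, hj⟩ := h3.toChn.exists_slab (y i)
  have h5 := h2 j hj
  exact mem_Er.mpr ⟨j, hj, (h1 j (Finset.mem_Ioo.mpr h5)).le, h4 j ((hJ j).mpr h5)⟩

/-- Closedness. -/
theorem Cvg.closed (h : Cvg l X c v d X0 c0 v0 d0) (hy : Tendsto y l (𝓝 p))
    (hp : p ∉ Er X0 c0 v0 d0) : ∀ᶠ i in l, y i ∉ Er (X i) (c i) (v i) (d i) := by
  obtain ⟨a, b, hJ, hev⟩ := h.slabs hy
  have e1 : ∀ᶠ i in l, ∀ j ∈ Finset.Ioo a b, ¬ Bel (X i) (c i) (d i) j (y i) := by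
    rw [Filter.eventually_all_finset]
    intro j hj
    rw [Finset.mem_Ioo] at hj
    have h1 : ¬ Bel X0 c0 d0 j p := fun h => hp (mem_Er.mpr ⟨j, (hJ j).mpr hj, h⟩)
    unfold Bel at h1
    rw [not_and_or, not_le, not_le] at h1
    rcases h1 with h1 | h1
    · filter_upwards [(tendsto_dn h.td hy).eventually_lt (tendsto_dn h.td (h.tc j)) h1] with i h2
      exact fun h => absurd h.1 (not_le.mpr h2)
    · filter_upwards [(h.tq hy j).eventually_lt_const h1] with i h2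
      exact fun h => absurd h.2 (not_le.mpr h2)
  filter_upwards [e1, hev] with i h1 h2 h3
  obtain ⟨j, hj, hb⟩ := mem_Er.mp h3
  exact h1 j (Finset.mem_Ioo.mpr (h2 j hj)) hb

/-- Moving down leads to the interior. -/
theorem Chn.down {X c v : ℤ → ℂ} {d : ℂ} (h : Chn X c v d) {p : ℂ} (hp : p ∈ Er X c v d)
    {t : ℝ} (ht : 0 < t) {j : ℤ} (hj : InS v d j (p + t * d)) :
    dn d (c j) < dn d (p + t * d) ∧ 1 < qd (X j) (c j) (p + t * d) := by
  have hx : xi d (t * d) = 0 := by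
    have e : (t : ℂ) * d * conj (I * d) = ((t * ‖d‖ ^ 2 : ℝ) : ℂ) * (-I) := by
      rw [map_mul, conj_I]
      push_cast
      rw [← Complex.mul_conj' d]
      ring
    unfold xi
    rw [e, re_ofReal_mul]
    simp
  have hdn : dn d (t * d) = t := by
    have e : (t : ℂ) * d * conj d = ((t * ‖d‖ ^ 2 : ℝ) : ℂ) := by
      push_cast
      rw [← Complex.mul_conj' d]
      ring
    unfold dn
    rw [e, ofReal_re, h.d1]
    ring
  have hx' : xi d (p + t * d) = xi d p := by rw [xi_add, hx, add_zero]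
  have hdn' : dn d (p + t * d) = dn d p + t := by rw [dn_add, hdn]
  have hj' : InS v d j p := by
    unfold InS at hj ⊢
    rw [hx'] at hj
    exact hj
  have hb := h.bel_of_mem hp hj'
  have hs := h.bel_strict hj' hb
  refine ⟨by rw [hdn']; linarith, ?_⟩
  have e1 := norm_sq_coord h.d1 (p - c j)
  have e2 := norm_sq_coord h.d1 (p + t * d - c j)
  rw [xi_sub, dn_sub] at e1 e2
  rw [hx', hdn'] at e2
  have h1 : ‖p - c j‖ ^ 2 < ‖p + t * d - c j‖ ^ 2 := by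
    rw [e1, e2]; nlinarith
  have h2 : ‖p - c j‖ < ‖p + t * d - c j‖ := lt_of_pow_lt_pow_left₀ 2 (norm_nonneg _) h1
  have h3 := hb.2
  unfold qd at h3 ⊢
  exact lt_of_le_of_lt h3 (mul_lt_mul_of_pos_right h2 (norm_pos_iff.mpr (h.nz j)))

end lim

end Pool.Agent.M4
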