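import Pool.Agent.helper95.M4.LT2

/-!
# Project M4, block V: the local tiling theorem LT
-/

set_option autoImplicit false

namespace Pool.Agent.M4

open Complex ComplexConjugate Topology Filter

/-! ### Corners -/

section corner

variable {X c v : ℤ → ℂ} {d y : ℂ}

/-- A point of the lower half circle is determined by its horizontal coordinate. -/
theorem eq_of_coord {C p : ℂ} {r : ℝ} (hd : ‖d‖ = 1) (hr : 0 < r) (hp : ‖p - C‖ * r = 1)
    (hdp : dn d C < dn d p) (hx : xi d y = xi d p) (hq : ‖y - C‖ * r = 1)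
    (hdy : dn d C < dn d y) : y = p := by
  have e1 := norm_sq_coord hd (p - C)
  have e2 := norm_sq_coord hd (y - C)
  have e3 := norm_sq_coord hd (y - p)
  rw [xi_sub, dn_sub] at e1 e2 e3
  rw [hx] at e2 e3
  have h1 : ‖y - C‖ = ‖p - C‖ := by
    have : (‖y - C‖ - ‖p - C‖) * r = 0 := by linarith
    rcases mul_eq_zero.mp this with h | h
    · linarith
    · exact absurd h hr.ne'
  rw [h1] at e2
  have h2 : (dn d y - dn d p) * (dn d y + dn d p - 2 * dn d C) = 0 := by nlinarith
  have h3 : dn d y - dn d p = 0 := by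
    rcases mul_eq_zero.mp h2 with h | h
    · exact h
    · linarith
  rw [h3] at e3
  have h4 : ‖y - p‖ ^ 2 = 0 := by rw [e3]; ring
  have h5 : ‖y - p‖ = 0 := by
    rcases pow_eq_zero_iff (two_ne_zero) |>.mp h4 with h
    exact h
  exact sub_eq_zero.mp (norm_eq_zero.mp h5)

theorem Chn.eq_r (h : Chn X c v d) {k : ℤ} (hx : xi d y = xi d (v k))
    (hq : qd (X k) (c k) y = 1) (hdy : dn d (c k) < dn d y) : y = v k :=
  eq_of_coord h.d1 (norm_pos_iff.mpr (h.nz k)) (h.vr k) (h.dnr k) hx hq hdy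

theorem Chn.eq_l (h : Chn X c v d) {k : ℤ} (hx : xi d y = xi d (v (k - 1)))
    (hq : qd (X k) (c k) y = 1) (hdy : dn d (c k) < dn d y) : y = v (k - 1) :=
  eq_of_coord h.d1 (norm_pos_iff.mpr (h.nz k)) (h.vl' k) (h.dnl k) hx hq hdy

/-- A slab of width zero is a degenerate arc. -/
theorem Chn.deg (h : Chn X c v d) {k : ℤ} (hx : xi d (v k) ≤ xi d (v (k - 1))) :
    v (k - 1) = v k :=
  h.eq_r (le_antisymm (h.ximono (by linarith)) hx) (h.vl' k) (h.dnl k)

/-- The slabs of a corner. -/
theorem Chn.slab_v (h : Chn X c v d) (nd : ∀ j, v (j - 1) = v j → v j ≠ v (j + 1)) {j k : ℤ}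
    (hj : InS v d j (v k)) : j = k ∨ j = k + 1 ∨ (j = k - 1 ∧ v (k - 1) = v k) ∨
      (j = k + 2 ∧ v k = v (k + 1)) := by
  obtain ⟨h1, h2⟩ := hj
  rcases lt_trichotomy j k with hjk | hjk | hjk
  · rcases (Int.le_sub_one_of_lt hjk).lt_or_eq with hjk1 | hjk1
    · exfalso
      have a1 : xi d (v j) ≤ xi d (v (k - 1 - 1)) := h.ximono (Int.le_sub_one_of_lt hjk1)
      have a2 : xi d (v (k - 1 - 1)) ≤ xi d (v (k - 1)) := h.ximono (by linarith)
      have a3 : xi d (v (k - 1)) ≤ xi d (v k) := h.ximono (by linarith)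
      have b1 := h.deg (k := k - 1) (by linarith)
      have b2 := h.deg (k := k) (by linarith)
      have := nd (k - 1) b1
      rw [sub_add_cancel] at this
      exact this b2
    · right; right; left
      refine ⟨hjk1, h.deg ?_⟩
      rw [← hjk1]; exact h2
  · exact Or.inl hjk
  · rcases (Int.add_one_le_iff.mpr hjk).eq_or_lt with hjk1 | hjk1
    · exact Or.inr (Or.inl hjk1.symm)
    · rcases (Int.add_one_le_iff.mpr hjk1).eq_or_lt with hjk2 | hjk2
      · right; right; right
        have e : j = k + 2 := by linarith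
        refine ⟨e, ?_⟩
        have := h.deg (k := k + 1) (by
          rw [add_sub_cancel_right]
          have e2 : j - 1 = k + 1 := by linarith
          rw [e2] at h1
          exact h1)
        rw [add_sub_cancel_right] at this
        exact this
      · exfalso
        have a1 : xi d (v (k + 2)) ≤ xi d (v (j - 1)) := h.ximono (by linarith)
        have a2 : xi d (v (k + 1)) ≤ xi d (v (k + 2)) := h.ximono (by linarith)
        have a3 : xi d (v k) ≤ xi d (v (k + 1)) := h.ximono (by linarith)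
        have b1 := h.deg (k := k + 1) (by rw [add_sub_cancel_right]; linarith)
        have b2 := h.deg (k := k + 2) (by
          rw [show k + 2 - 1 = k + 1 by ring]; linarith)
        rw [add_sub_cancel_right] at b1
        rw [show k + 2 - 1 = k + 1 by ring] at b2
        refine nd (k + 1) (by rw [add_sub_cancel_right]; exact b1) ?_
        rw [show k + 1 + 1 = k + 2 by ring]
        exact b2

/-- A corner is in the region. -/
theorem Chn.vk_mem (h : Chn X c v d) (k : ℤ) : v k ∈ Er X c v d :=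
  mem_Er.mpr ⟨k, ⟨h.ximono (by linarith), le_refl _⟩, (h.dnr k).le, (h.vr k).ge⟩

theorem Chn.v_dn (h : Chn X c v d) {j k : ℤ} (hj : InS v d j (v k)) :
    dn d (c j) < dn d (v k) := h.bel_strict hj (h.bel_of_mem (h.vk_mem k) hj)

/-- A corner is on the circles of its slabs. -/
theorem Chn.v_q (h : Chn X c v d) (nd : ∀ j, v (j - 1) = v j → v j ≠ v (j + 1)) {j k : ℤ}
    (hj : InS v d j (v k)) : qd (X j) (c j) (v k) = 1 := by
  rcases h.slab_v nd hj with rfl | rfl | ⟨rfl, h1⟩ | ⟨rfl, h1⟩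
  · exact h.vr _
  · exact h.vl _
  · rw [← h1]; exact h.vr _
  · rw [h1]
    have := h.vl (k + 1)
    rw [show k + 1 + 1 = k + 2 by ring] at this
    exact this

/-- The involution swaps the corners. -/
theorem ChS.iv_r (h : ChS X c v d) (k : ℤ) : iv (X k) (c k) (v k) = v (k - 1) := by
  have h1 := h.sw k
  have h2 : v k - c k ≠ 0 := by
    intro h0
    have := h.vr k
    rw [h0, norm_zero, zero_mul] at this
    exact zero_ne_one this
  have h3 := h.nz k
  have h4 : v (k - 1) - c k = -1 / X k ^ 2 / (v k - c k) := by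
    rw [← h1]; field_simp
  unfold iv
  rw [show v (k - 1) = c k + (v (k - 1) - c k) by ring, h4]
  field_simp
  ring

theorem ChS.iv_l (h : ChS X c v d) (k : ℤ) : iv (X k) (c k) (v (k - 1)) = v k := by
  have h1 := h.sw k
  have h2 : v (k - 1) - c k ≠ 0 := by
    intro h0
    have := h.vl' k
    rw [h0, norm_zero, zero_mul] at this
    exact zero_ne_one this
  have h3 := h.nz k
  have h4 : v k - c k = -1 / X k ^ 2 / (v (k - 1) - c k) := by
    rw [← h1]; field_simp
  unfold iv
  rw [show v k = c k + (v k - c k) by ring, h4]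
  field_simp
  ring

theorem Chn.v_ne (h : Chn X c v d) (k : ℤ) : v k ≠ c k := by
  intro h0
  have := h.vr k
  rw [h0, sub_self, norm_zero, zero_mul] at this
  exact zero_ne_one this

theorem Chn.v_ne' (h : Chn X c v d) (k : ℤ) : v k ≠ c (k + 1) := by
  intro h0
  have := h.vl k
  rw [h0, sub_self, norm_zero, zero_mul] at this
  exact zero_ne_one this

end corner

/-! ### Arcs -/

/-- Reflection of an arc. -/
theorem arc_reflect {a b u : ℂ} (ha : ‖a‖ = 1) (hb : ‖b‖ = 1) (hu : ‖u‖ = 1) (ra : 0 < a.re)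
    (rb : 0 < b.re) (ru : 0 < u.re) (h1 : a.im < u.im) (h2 : u.im < b.im) :
    0 < (conj u * (a * b)).re ∧ a.im < (conj u * (a * b)).im ∧
      (conj u * (a * b)).im < b.im := by
  have key : ∀ w : ℂ, ‖w‖ = 1 → 0 < w.re → ∃ φ : ℝ, -(Real.pi / 2) < φ ∧ φ < Real.pi / 2 ∧
      w = exp (φ * I) := by
    intro w hw hr
    refine ⟨arg w, ?_, ?_, ?_⟩
    · have := abs_lt.mp (Complex.abs_arg_lt_pi_div_two_iff.mpr (Or.inl hr))
      exact this.1
    · have := abs_lt.mp (Complex.abs_arg_lt_pi_div_two_iff.mpr (Or.inl hr))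
      exact this.2
    · have := Complex.norm_mul_exp_arg_mul_I w
      rw [hw, ofReal_one, one_mul] at this
      exact this.symm
  obtain ⟨α, α1, α2, rfl⟩ := key a ha ra
  obtain ⟨β, β1, β2, rfl⟩ := key b hb rb
  obtain ⟨ω, ω1, ω2, rfl⟩ := key u hu ru
  have e : conj (exp (ω * I)) * (exp (α * I) * exp (β * I)) =
      exp (((α + β - ω : ℝ) : ℂ) * I) := by
    rw [← exp_conj, ← exp_add, ← exp_add, map_mul, conj_I, conj_ofReal]
    congr 1
    push_cast
    ring
  rw [e]
  rw [exp_ofReal_mul_I_im] at h1 h2 ⊢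
  rw [exp_ofReal_mul_I_im] at h1 h2 ⊢
  rw [exp_ofReal_mul_I_im, exp_ofReal_mul_I_re]
  have i1 : α < ω := by
    by_contra hcon
    have := Real.sin_le_sin_of_le_of_le_pi_div_two ω1.le α2.le (not_lt.mp hcon)
    linarith
  have i2 : ω < β := by
    by_contra hcon
    have := Real.sin_le_sin_of_le_of_le_pi_div_two β1.le ω2.le (not_lt.mp hcon)
    linarith
  refine ⟨Real.cos_pos_of_mem_Ioo ⟨by linarith, by linarith⟩, ?_, ?_⟩
  · exact Real.sin_lt_sin_of_lt_of_le_pi_div_two α1.le (by linarith) (by linarith)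
  · exact Real.sin_lt_sin_of_lt_of_le_pi_div_two (by linarith) β2.le (by linarith)


/-- The interior of an arc is mapped to itself. -/
theorem ChS.arc {X c v : ℤ → ℂ} {d y : ℂ} (h : ChS X c v d) {k : ℤ}
    (h1 : xi d (v (k - 1)) < xi d y) (h2 : xi d y < xi d (v k)) (hq : qd (X k) (c k) y = 1)
    (hdy : dn d (c k) < dn d y) :
    xi d (v (k - 1)) < xi d (iv (X k) (c k) y) ∧ xi d (iv (X k) (c k) y) < xi d (v k) ∧
      dn d (c k) < dn d (iv (X k) (c k) y) := by
  have hX := h.nz k
  have hd := h.d1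
  have hXp : 0 < ‖X k‖ := norm_pos_iff.mpr hX
  have hr : (‖X k‖ : ℂ) ≠ 0 := by exact_mod_cast hXp.ne'
  have hy : y ≠ c k := by
    intro h0
    rw [h0] at hdy
    exact lt_irrefl _ hdy
  have hy' : y - c k ≠ 0 := sub_ne_zero.mpr hy
  -- unit vectors
  have nrm : ∀ x : ℂ, ‖x - c k‖ * ‖X k‖ = 1 → ‖(x - c k) * ‖X k‖ * conj d‖ = 1 := by
    intro x hx
    rw [norm_mul, norm_mul, Complex.norm_conj, hd, mul_one, Complex.norm_real, norm_norm]
    exact hx
  have rre : ∀ x : ℂ, ((x - c k) * ‖X k‖ * conj d).re = ‖X k‖ * (dn d x - dn d (c k)) := by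
    intro x
    rw [← dn_sub]
    unfold dn
    rw [show (x - c k) * ‖X k‖ * conj d = ‖X k‖ * ((x - c k) * conj d) by ring, re_ofReal_mul]
  have rim : ∀ x : ℂ, ((x - c k) * ‖X k‖ * conj d).im = ‖X k‖ * (xi d x - xi d (c k)) := by
    intro x
    rw [← xi_sub]
    unfold xi
    rw [show (x - c k) * ‖X k‖ * conj d = ‖X k‖ * ((x - c k) * conj d) by ring, im_ofReal_mul,
      re_conj_I]
  have hsw := h.sw k
  have hdd : conj d * d = 1 := by
    rw [mul_comm, Complex.mul_conj']
    rw [hd]; simp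
  have key := arc_reflect (nrm _ (h.vl' k)) (nrm _ (h.vr k)) (nrm _ hq)
    (by rw [rre]; exact mul_pos hXp (sub_pos.mpr (h.dnl k)))
    (by rw [rre]; exact mul_pos hXp (sub_pos.mpr (h.dnr k)))
    (by rw [rre]; exact mul_pos hXp (sub_pos.mpr hdy))
    (by rw [rim, rim]; exact mul_lt_mul_of_pos_left (by linarith) hXp)
    (by rw [rim, rim]; exact mul_lt_mul_of_pos_left (by linarith) hXp)
  have e : conj ((y - c k) * ‖X k‖ * conj d) * (((v (k - 1) - c k) * ‖X k‖ * conj d) *
      ((v k - c k) * ‖X k‖ * conj d)) = (iv (X k) (c k) y - c k) * ‖X k‖ * conj d := by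
    have e1 : conj (y - c k) * (y - c k) = 1 / (‖X k‖ : ℂ) ^ 2 := by
      rw [mul_comm, Complex.mul_conj']
      have : ‖y - c k‖ = 1 / ‖X k‖ := by
        unfold qd at hq
        rw [eq_div_iff hXp.ne']; exact hq
      rw [this]; push_cast; ring
    have e2 : iv (X k) (c k) y - c k = ((v (k - 1) - c k) * (v k - c k)) / (y - c k) := by
      unfold iv
      rw [hsw]
      field_simp
      ring
    have e3 : conj (y - c k) = 1 / (‖X k‖ : ℂ) ^ 2 / (y - c k) := by
      rw [← e1]; field_simp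
    rw [map_mul, map_mul, conj_conj, conj_ofReal, e2, e3]
    have : d = 1 / conj d := by
      rw [eq_div_iff (by
        intro h0
        rw [h0, zero_mul] at hdd
        exact zero_ne_one hdd), mul_comm]
      exact hdd
    have hcd : conj d ≠ 0 := by
      intro h0
      rw [h0, zero_mul] at hdd
      exact zero_ne_one hdd
    generalize v (k - 1) - c k = A
    generalize v k - c k = B
    have h5 : 1 / (‖X k‖ : ℂ) ^ 2 / (y - c k) * ‖X k‖ * d * (A * ‖X k‖ * conj d *
        (B * ‖X k‖ * conj d)) = (conj d * d) * (A * B / (y - c k) * ‖X k‖ * conj d) := by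
      field_simp
    rw [h5, hdd, one_mul]
  rw [e, rre, rim, rim, rim] at key
  obtain ⟨k1, k2, k3⟩ := key
  refine ⟨?_, ?_, ?_⟩
  · have := lt_of_mul_lt_mul_left k2 hXp.le
    linarith
  · have := lt_of_mul_lt_mul_left k3 hXp.le
    linarith
  · have := pos_of_mul_pos_right k1 hXp.le
    linarith

end Pool.Agent.M4
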