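import Pool.Agent.helper95.M4.LT3

/-!
# Project M4, block V: the local tiling theorem LT
-/

set_option autoImplicit false

namespace Pool.Agent.M4

open Complex ComplexConjugate Topology Filter

/-- One of the involutions, or the composition of two neighbouring ones with the translation in
between, moves `y` into the region. -/
def HitN (X c v : ℤ → ℂ) (d y : ℂ) : Prop :=
  (∃ k, y ≠ c k ∧ iv (X k) (c k) y ∈ Er X c v d) ∨
  (∃ k, y ≠ c k ∧ iv (X k) (c k) y + 1 ≠ c (k + 1) ∧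
    iv (X (k + 1)) (c (k + 1)) (iv (X k) (c k) y + 1) ∈ Er X c v d)

section main

variable {ι : Type*} {l : Filter ι} {X c v : ι → ℤ → ℂ} {d : ι → ℂ} {X0 c0 v0 : ℤ → ℂ} {d0 : ℂ}
  {y : ι → ℂ} {p : ℂ}

theorem Cvg.mem_v (h : Cvg l X c v d X0 c0 v0 d0) {k : ℤ} (hy : Tendsto y l (𝓝 (v0 k))) :
    ∀ᶠ i in l, (∀ j, InS v0 d0 j (v0 k) → 1 ≤ qd (X i j) (c i j) (y i)) →
      y i ∈ Er (X i) (c i) (v i) (d i) :=
  h.mem hy fun _ hj => h.h0.toChn.v_dn hj

theorem Cvg.ne_c (h : Cvg l X c v d X0 c0 v0 d0) (hy : Tendsto y l (𝓝 p)) {k : ℤ}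
    (hp : p ≠ c0 k) : ∀ᶠ i in l, y i ≠ c i k := by
  have h1 : Tendsto (fun i => y i - c i k) l (𝓝 (p - c0 k)) := hy.sub (h.tc k)
  filter_upwards [h1.eventually_ne (sub_ne_zero.mpr hp)] with i hi
  exact sub_ne_zero.mp hi

theorem qd_nonneg (X c y : ℂ) : 0 ≤ qd X c y := mul_nonneg (norm_nonneg _) (norm_nonneg _)

theorem qd_pos {X c y : ℂ} (hX : X ≠ 0) (hy : y ≠ c) : 0 < qd X c y :=
  mul_pos (norm_pos_iff.mpr (sub_ne_zero.mpr hy)) (norm_pos_iff.mpr hX)

/-- Case of a regular corner. -/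
theorem Cvg.reg (h : Cvg l X c v d X0 c0 v0 d0) (nd : ∀ j, v0 (j - 1) = v0 j → v0 j ≠ v0 (j + 1))
    {k : ℤ} (hy : Tendsto y l (𝓝 (v0 k))) (g1 : v0 (k - 1) ≠ v0 k) (g2 : v0 k ≠ v0 (k + 1)) :
    ∀ᶠ i in l, y i ∉ Er (X i) (c i) (v i) (d i) → HitN (X i) (c i) (v i) (d i) (y i) := by
  have H := h.h0.toChn
  have T1 : Tendsto (fun i => iv (X i k) (c i k) (y i)) l (𝓝 (v0 (k - 1))) := by
    have := h.tiv hy (H.v_ne k)
    rwa [h.h0.iv_r k] at this
  have T2 : Tendsto (fun i => iv (X i (k + 1)) (c i (k + 1)) (y i)) l (𝓝 (v0 (k + 1))) := by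
    have := h.tiv hy (H.v_ne' k)
    have e := h.h0.iv_l (k + 1)
    rw [add_sub_cancel_right] at e
    rwa [e] at this
  have M0 := h.mem_v hy
  have M1 := h.mem_v T1
  have M2 := h.mem_v T2
  have N1 := h.ne_c hy (H.v_ne k)
  have N2 := h.ne_c hy (H.v_ne' k)
  have J0 : ∀ j, InS v0 d0 j (v0 k) → j = k ∨ j = k + 1 := by
    intro j hj
    rcases H.slab_v nd hj with h1 | h1 | ⟨_, h1⟩ | ⟨_, h1⟩
    · exact Or.inl h1
    · exact Or.inr h1
    · exact absurd h1 g1
    · exact absurd h1 g2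
  have J1 : ∀ j, InS v0 d0 j (v0 (k - 1)) → j = k - 1 ∨ j = k ∨
      (j = k - 2 ∧ v0 (k - 2) = v0 (k - 1)) := by
    intro j hj
    rcases H.slab_v nd hj with h1 | h1 | ⟨h1, h2⟩ | ⟨_, h1⟩
    · exact Or.inl h1
    · exact Or.inr (Or.inl (by linarith))
    · refine Or.inr (Or.inr ⟨by linarith, ?_⟩)
      rw [show k - 2 = k - 1 - 1 by ring]; exact h2
    · rw [sub_add_cancel] at h1
      exact absurd h1 g1
  have J2 : ∀ j, InS v0 d0 j (v0 (k + 1)) → j = k + 1 ∨ j = k + 2 ∨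
      (j = k + 3 ∧ v0 (k + 1) = v0 (k + 2)) := by
    intro j hj
    rcases H.slab_v nd hj with h1 | h1 | ⟨_, h2⟩ | ⟨h1, h2⟩
    · exact Or.inl h1
    · exact Or.inr (Or.inl (by linarith))
    · rw [add_sub_cancel_right] at h2
      exact absurd h2 g2
    · refine Or.inr (Or.inr ⟨by linarith, ?_⟩)
      rw [show k + 2 = k + 1 + 1 by ring]; exact h2
  by_cases hdeg : v0 (k + 1) = v0 (k + 2)
  · -- the third arc is degenerate
    have T3' : Tendsto (fun i => iv (X i k) (c i k) (y i) + 1) l (𝓝 (v0 (k + 1))) := by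
      have := T1.add_const 1
      have e : v0 (k - 1) + 1 = v0 (k + 1) := by
        rw [hdeg, ← h.h0.perv (k - 1)]; congr 1; ring
      rwa [e] at this
    have T3 : Tendsto (fun i => iv (X i (k + 1)) (c i (k + 1)) (iv (X i k) (c i k) (y i) + 1)) l
        (𝓝 (v0 k)) := by
      have := h.tiv T3' (H.v_ne (k + 1))
      have e := h.h0.iv_r (k + 1)
      rw [add_sub_cancel_right] at e
      rwa [e] at this
    have M3 := h.mem_v T3
    have N3 := h.ne_c T3' (H.v_ne (k + 1))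
    filter_upwards [M0, M1, M2, M3, N1, N2, N3, h.hn] with i m0 m1 m2 m3 n1 n2 n3 hc hE
    have C := hc.toChn
    have r1 := qd_iv_self (C.nz k) n1
    have r3 := C.qd_pred n1
    have r4 := C.qd_pp n1
    have r5 := qd_iv_self (C.nz (k + 1)) n2
    have r6 := C.qd_succ n2
    have r7 := C.qd_ss n2
    rw [show k + 1 + 1 = k + 2 by ring, add_sub_cancel_right] at r6
    have q1 := qd_pos (C.nz k) n1
    have q2 := qd_pos (C.nz (k + 1)) n2
    -- the composition
    have s1 := qd_iv_self (C.nz (k + 1)) n3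
    have s2 := C.qd_pred n3
    have s3 : qd (X i (k + 1)) (c i (k + 1)) (iv (X i k) (c i k) (y i) + 1) =
        qd (X i (k - 2)) (c i (k - 2)) (iv (X i k) (c i k) (y i)) := by
      have e1 := C.perX (k - 2)
      have e2 := C.perc (k - 2)
      rw [show k - 2 + 3 = k + 1 by ring] at e1 e2
      unfold qd
      rw [e1, e2]
      congr 2
      ring
    have s4 : qd (X i (k + 1 + 1)) (c i (k + 1 + 1)) (iv (X i k) (c i k) (y i) + 1) =
        qd (X i (k - 1)) (c i (k - 1)) (iv (X i k) (c i k) (y i)) := by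
      have e1 := C.perX (k - 1)
      have e2 := C.perc (k - 1)
      rw [show k - 1 + 3 = k + 1 + 1 by ring] at e1 e2
      unfold qd
      rw [e1, e2]
      congr 2
      ring
    rw [add_sub_cancel_right] at s2
    have q3 := qd_pos (C.nz (k + 1)) n3
    rw [s3] at s1 s2 q3
    rw [s4] at s2
    obtain ⟨A, hA⟩ : ∃ A, A = qd (X i k) (c i k) (y i) := ⟨_, rfl⟩
    obtain ⟨B, hB⟩ : ∃ B, B = qd (X i (k + 1)) (c i (k + 1)) (y i) := ⟨_, rfl⟩
    obtain ⟨Q, hQ⟩ : ∃ Q, Q = Qf (X i) (c i) k (y i) := ⟨_, rfl⟩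
    rw [← hA] at r1 r3 r4 r6 q1
    rw [← hB] at r3 r5 r6 r7 q2
    rw [← hQ] at r4 r7
    have hlt : A < 1 ∨ B < 1 := by
      by_contra hcon
      push Not at hcon
      refine hE (m0 fun j hj => ?_)
      rcases J0 j hj with rfl | rfl
      · rw [← hA]; exact hcon.1
      · rw [← hB]; exact hcon.2
    by_cases c1 : A ≤ Q ∧ A ≤ B
    · refine Or.inl ⟨k, n1, m1 fun j hj => ?_⟩
      have hA1 : A < 1 := by
        rcases hlt with h | h
        · exact h
        · linarith [c1.2]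
      rcases J1 j hj with rfl | rfl | ⟨rfl, _⟩
      · rw [← mul_le_mul_iff_left₀ q1, r3, one_mul]; exact c1.2
      · rw [r1, le_div_iff₀ q1]; linarith
      · rw [← mul_le_mul_iff_left₀ q1, r4, one_mul]; exact c1.1
    by_cases c2 : B ≤ Q ∧ B ≤ A
    · refine Or.inl ⟨k + 1, n2, m2 fun j hj => ?_⟩
      have hB1 : B < 1 := by
        rcases hlt with h | h
        · linarith [c2.2]
        · exact h
      rcases J2 j hj with rfl | rfl | ⟨rfl, _⟩
      · rw [r5, le_div_iff₀ q2]; linarith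
      · rw [← mul_le_mul_iff_left₀ q2, r6, one_mul]; exact c2.2
      · rw [← mul_le_mul_iff_left₀ q2, r7, one_mul]; exact c2.1
    have hQA : Q < A ∧ Q < B := by
      rcases le_total A B with h | h
      · have : Q < A := by
          by_contra hcon
          exact c1 ⟨not_lt.mp hcon, h⟩
        exact ⟨this, by linarith⟩
      · have : Q < B := by
          by_contra hcon
          exact c2 ⟨not_lt.mp hcon, h⟩
        exact ⟨by linarith, this⟩
    refine Or.inr ⟨k, n1, n3, m3 fun j hj => ?_⟩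
    obtain ⟨a, ha⟩ : ∃ a, a = qd (X i (k - 2)) (c i (k - 2)) (iv (X i k) (c i k) (y i)) := ⟨_, rfl⟩
    obtain ⟨b, hb⟩ : ∃ b, b = qd (X i (k - 1)) (c i (k - 1)) (iv (X i k) (c i k) (y i)) := ⟨_, rfl⟩
    rw [← ha] at s1 s2 q3 r4
    rw [← hb] at s2 r3
    have ha1 : a < 1 := by
      by_contra hcon
      have := mul_le_mul_of_nonneg_right (not_lt.mp hcon) q1.le
      linarith
    have hab : a ≤ b := by
      by_contra hcon
      have := mul_lt_mul_of_pos_right (not_le.mp hcon) q1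
      linarith
    rcases J0 j hj with rfl | rfl
    · rw [← mul_le_mul_iff_left₀ q3, s2, one_mul]; exact hab
    · rw [s1, le_div_iff₀ q3]; linarith
  · -- all arcs are nondegenerate
    have hdeg' : v0 (k - 2) ≠ v0 (k - 1) := by
      intro h0
      apply hdeg
      have e1 := h.h0.perv (k - 2)
      have e2 := h.h0.perv (k - 1)
      rw [show k - 2 + 3 = k + 1 by ring] at e1
      rw [show k - 1 + 3 = k + 2 by ring] at e2
      rw [e1, e2, h0]
    filter_upwards [M0, M1, M2, N1, N2, h.hn] with i m0 m1 m2 n1 n2 hc hE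
    have C := hc.toChn
    have r1 := qd_iv_self (C.nz k) n1
    have r3 := C.qd_pred n1
    have r5 := qd_iv_self (C.nz (k + 1)) n2
    have r6 := C.qd_succ n2
    rw [show k + 1 + 1 = k + 2 by ring, add_sub_cancel_right] at r6
    have q1 := qd_pos (C.nz k) n1
    have q2 := qd_pos (C.nz (k + 1)) n2
    obtain ⟨A, hA⟩ : ∃ A, A = qd (X i k) (c i k) (y i) := ⟨_, rfl⟩
    obtain ⟨B, hB⟩ : ∃ B, B = qd (X i (k + 1)) (c i (k + 1)) (y i) := ⟨_, rfl⟩
    rw [← hA] at r1 r3 r6 q1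
    rw [← hB] at r3 r5 r6 q2
    have hlt : A < 1 ∨ B < 1 := by
      by_contra hcon
      push Not at hcon
      refine hE (m0 fun j hj => ?_)
      rcases J0 j hj with rfl | rfl
      · rw [← hA]; exact hcon.1
      · rw [← hB]; exact hcon.2
    rcases le_total A B with c1 | c2
    · refine Or.inl ⟨k, n1, m1 fun j hj => ?_⟩
      have hA1 : A < 1 := by
        rcases hlt with h | h
        · exact h
        · linarith
      rcases J1 j hj with rfl | rfl | ⟨rfl, h0⟩
      · rw [← mul_le_mul_iff_left₀ q1, r3, one_mul]; exact c1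
      · rw [r1, le_div_iff₀ q1]; linarith
      · exact absurd h0 hdeg'
    · refine Or.inl ⟨k + 1, n2, m2 fun j hj => ?_⟩
      have hB1 : B < 1 := by
        rcases hlt with h | h
        · linarith
        · exact h
      rcases J2 j hj with rfl | rfl | ⟨rfl, h0⟩
      · rw [r5, le_div_iff₀ q2]; linarith
      · rw [← mul_le_mul_iff_left₀ q2, r6, one_mul]; exact c2
      · exact absurd h0 hdeg

/-- Case of a degenerate arc. -/
theorem Cvg.dgn (h : Cvg l X c v d X0 c0 v0 d0) (nd : ∀ j, v0 (j - 1) = v0 j → v0 j ≠ v0 (j + 1))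
    {k : ℤ} (hy : Tendsto y l (𝓝 (v0 k))) (g : v0 (k - 1) = v0 k) :
    ∀ᶠ i in l, y i ∉ Er (X i) (c i) (v i) (d i) → HitN (X i) (c i) (v i) (d i) (y i) := by
  have H := h.h0.toChn
  have g2 : v0 k ≠ v0 (k + 1) := nd k g
  have g3 : v0 (k - 2) ≠ v0 (k - 1) := by
    intro h0
    have := nd (k - 1) (by rw [show k - 1 - 1 = k - 2 by ring]; exact h0)
    rw [sub_add_cancel] at this
    exact this g
  have g4 : v0 (k + 1) ≠ v0 (k + 2) := by
    intro h0
    apply g3
    have e1 := h.h0.perv (k - 2)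
    have e2 := h.h0.perv (k - 1)
    rw [show k - 2 + 3 = k + 1 by ring] at e1
    rw [show k - 1 + 3 = k + 2 by ring] at e2
    rw [e1, e2] at h0
    exact add_right_cancel h0
  have g5 : v0 (k - 3) ≠ v0 (k - 2) := by
    intro h0
    apply g2
    have e1 := h.h0.perv (k - 3)
    have e2 := h.h0.perv (k - 2)
    rw [show k - 3 + 3 = k by ring] at e1
    rw [show k - 2 + 3 = k + 1 by ring] at e2
    rw [e1, e2, h0]
  have hy' : Tendsto y l (𝓝 (v0 (k - 1))) := by rwa [g]
  have T1 : Tendsto (fun i => iv (X i k) (c i k) (y i)) l (𝓝 (v0 k)) := by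
    have := h.tiv hy (H.v_ne k)
    rwa [h.h0.iv_r k, g] at this
  have T2 : Tendsto (fun i => iv (X i (k + 1)) (c i (k + 1)) (y i)) l (𝓝 (v0 (k + 1))) := by
    have := h.tiv hy (H.v_ne' k)
    have e := h.h0.iv_l (k + 1)
    rw [add_sub_cancel_right] at e
    rwa [e] at this
  have T3 : Tendsto (fun i => iv (X i (k - 1)) (c i (k - 1)) (y i)) l (𝓝 (v0 (k - 2))) := by
    have := h.tiv hy' (H.v_ne (k - 1))
    rwa [h.h0.iv_r (k - 1), show k - 1 - 1 = k - 2 by ring] at this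
  have M0 := h.mem_v hy
  have M1 := h.mem_v T1
  have M2 := h.mem_v T2
  have M3 := h.mem_v T3
  have N1 := h.ne_c hy (H.v_ne k)
  have N2 := h.ne_c hy (H.v_ne' k)
  have N3 := h.ne_c hy' (H.v_ne (k - 1))
  have J0 : ∀ j, InS v0 d0 j (v0 k) → j = k ∨ j = k + 1 ∨ j = k - 1 := by
    intro j hj
    rcases H.slab_v nd hj with h1 | h1 | ⟨h1, _⟩ | ⟨_, h1⟩
    · exact Or.inl h1
    · exact Or.inr (Or.inl h1)
    · exact Or.inr (Or.inr h1)
    · exact absurd h1 g2
  have J2 : ∀ j, InS v0 d0 j (v0 (k + 1)) → j = k + 1 ∨ j = k + 2 := by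
    intro j hj
    rcases H.slab_v nd hj with h1 | h1 | ⟨_, h2⟩ | ⟨_, h2⟩
    · exact Or.inl h1
    · exact Or.inr (by linarith)
    · rw [add_sub_cancel_right] at h2
      exact absurd h2 g2
    · rw [show k + 1 + 1 = k + 2 by ring] at h2
      exact absurd h2 g4
  have J3 : ∀ j, InS v0 d0 j (v0 (k - 2)) → j = k - 2 ∨ j = k - 1 := by
    intro j hj
    rcases H.slab_v nd hj with h1 | h1 | ⟨_, h2⟩ | ⟨_, h2⟩
    · exact Or.inl h1
    · exact Or.inr (by linarith)
    · rw [show k - 2 - 1 = k - 3 by ring] at h2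
      exact absurd h2 g5
    · rw [show k - 2 + 1 = k - 1 by ring] at h2
      exact absurd h2 g3
  filter_upwards [M0, M1, M2, M3, N1, N2, N3, h.hn] with i m0 m1 m2 m3 n1 n2 n3 hc hE
  have C := hc.toChn
  have r1 := qd_iv_self (C.nz k) n1
  have r2 := C.qd_succ n1
  have r3 := C.qd_pred n1
  have r5 := qd_iv_self (C.nz (k + 1)) n2
  have r6 := C.qd_succ n2
  rw [show k + 1 + 1 = k + 2 by ring, add_sub_cancel_right] at r6
  have r7 := qd_iv_self (C.nz (k - 1)) n3
  have r8 := C.qd_pred n3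
  rw [show k - 1 - 1 = k - 2 by ring, sub_add_cancel] at r8
  have q1 := qd_pos (C.nz k) n1
  have q2 := qd_pos (C.nz (k + 1)) n2
  have q3 := qd_pos (C.nz (k - 1)) n3
  obtain ⟨A, hA⟩ : ∃ A, A = qd (X i k) (c i k) (y i) := ⟨_, rfl⟩
  obtain ⟨B, hB⟩ : ∃ B, B = qd (X i (k + 1)) (c i (k + 1)) (y i) := ⟨_, rfl⟩
  obtain ⟨D, hD⟩ : ∃ D, D = qd (X i (k - 1)) (c i (k - 1)) (y i) := ⟨_, rfl⟩
  rw [← hA] at r1 r2 r3 r6 r8 q1
  rw [← hB] at r3 r5 r6 q2
  rw [← hD] at r2 r7 r8 q3
  have hlt : A < 1 ∨ B < 1 ∨ D < 1 := by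
    by_contra hcon
    push Not at hcon
    refine hE (m0 fun j hj => ?_)
    rcases J0 j hj with rfl | rfl | rfl
    · rw [← hA]; exact hcon.1
    · rw [← hB]; exact hcon.2.1
    · rw [← hD]; exact hcon.2.2
  by_cases c1 : A ≤ B ∧ A ≤ D
  · refine Or.inl ⟨k, n1, m1 fun j hj => ?_⟩
    have hA1 : A < 1 := by
      rcases hlt with h | h | h
      · exact h
      · linarith [c1.1]
      · linarith [c1.2]
    rcases J0 j hj with rfl | rfl | rfl
    · rw [r1, le_div_iff₀ q1]; linarith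
    · rw [← mul_le_mul_iff_left₀ q1, r2, one_mul]; exact c1.2
    · rw [← mul_le_mul_iff_left₀ q1, r3, one_mul]; exact c1.1
  by_cases c2 : B ≤ A ∧ B ≤ D
  · refine Or.inl ⟨k + 1, n2, m2 fun j hj => ?_⟩
    have hB1 : B < 1 := by
      rcases hlt with h | h | h
      · linarith [c2.1]
      · exact h
      · linarith [c2.2]
    rcases J2 j hj with rfl | rfl
    · rw [r5, le_div_iff₀ q2]; linarith
    · rw [← mul_le_mul_iff_left₀ q2, r6, one_mul]; exact c2.1
  have c3 : D ≤ A ∧ D ≤ B := by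
    rcases le_total A B with h | h
    · have : D < A := by
        by_contra hcon
        exact c1 ⟨h, not_lt.mp hcon⟩
      exact ⟨this.le, by linarith⟩
    · have : D < B := by
        by_contra hcon
        exact c2 ⟨h, not_lt.mp hcon⟩
      exact ⟨by linarith, this.le⟩
  refine Or.inl ⟨k - 1, n3, m3 fun j hj => ?_⟩
  have hD1 : D < 1 := by
    rcases hlt with h | h | h
    · linarith [c3.1]
    · linarith [c3.2]
    · exact h
  rcases J3 j hj with rfl | rfl
  · rw [← mul_le_mul_iff_left₀ q3, r8, one_mul]; exact c3.1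
  · rw [r7, le_div_iff₀ q3]; linarith

/-- All corners. -/
theorem Cvg.cor (h : Cvg l X c v d X0 c0 v0 d0) (nd : ∀ j, v0 (j - 1) = v0 j → v0 j ≠ v0 (j + 1))
    {k : ℤ} (hy : Tendsto y l (𝓝 (v0 k))) :
    ∀ᶠ i in l, y i ∉ Er (X i) (c i) (v i) (d i) → HitN (X i) (c i) (v i) (d i) (y i) := by
  by_cases g : v0 (k - 1) = v0 k
  · exact h.dgn nd hy g
  by_cases g2 : v0 k = v0 (k + 1)
  · refine h.dgn nd (k := k + 1) (by rwa [← g2]) ?_
    rw [add_sub_cancel_right]; exact g2
  exact h.reg nd hy g g2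

/-- Points on a vertical line through a corner. -/
theorem Cvg.vert (h : Cvg l X c v d X0 c0 v0 d0)
    (nd : ∀ j, v0 (j - 1) = v0 j → v0 j ≠ v0 (j + 1)) (hy : Tendsto y l (𝓝 p))
    (hp : p ∈ Er X0 c0 v0 d0) {k : ℤ} (hx : xi d0 p = xi d0 (v0 k)) :
    ∀ᶠ i in l, y i ∉ Er (X i) (c i) (v i) (d i) → HitN (X i) (c i) (v i) (d i) (y i) := by
  have H := h.h0.toChn
  have hS : InS v0 d0 k p := ⟨by rw [hx]; exact H.ximono (by linarith), hx.le⟩
  have hb := H.bel_of_mem hp hS
  have hd := (H.bel_r hx).mp hb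
  rcases hd.lt_or_eq with hd | hd
  · -- below the corner
    have hq : ∀ j, InS v0 d0 j p → 1 < qd (X0 j) (c0 j) p := by
      intro j hj
      have hj' : InS v0 d0 j (v0 k) := by
        unfold InS at hj ⊢
        rwa [hx] at hj
      exact ((low_iff' H.d1 (norm_pos_iff.mpr (H.nz j)) (H.v_q nd hj') (H.v_dn hj') hx).mpr hd).2
    obtain ⟨a, b, hJ, _⟩ := h.slabs hy
    have e1 : ∀ᶠ i in l, ∀ j ∈ Finset.Ioo a b, 1 < qd (X i j) (c i j) (y i) := by
      rw [Filter.eventually_all_finset]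
      intro j hj
      rw [Finset.mem_Ioo] at hj
      exact (h.tq hy j).eventually_const_lt (hq j ((hJ j).mpr hj))
    filter_upwards [e1, h.mem hy fun j hj => H.bel_strict hj (H.bel_of_mem hp hj)] with i h1 h2 h3
    exact absurd (h2 fun j hj => (h1 j (Finset.mem_Ioo.mpr ((hJ j).mp hj))).le) h3
  · -- the corner
    have hpv : p = v0 k := by
      have e := norm_sq_coord H.d1 (p - v0 k)
      rw [xi_sub, dn_sub, hx, ← hd] at e
      have h4 : ‖p - v0 k‖ ^ 2 = 0 := by rw [e]; ring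
      have h5 : ‖p - v0 k‖ = 0 := pow_eq_zero_iff (two_ne_zero) |>.mp h4
      exact sub_eq_zero.mp (norm_eq_zero.mp h5)
    rw [hpv] at hy
    exact h.cor nd hy

/-- **LT** : local tiling, sequence form. -/
theorem Cvg.LT (h : Cvg l X c v d X0 c0 v0 d0)
    (nd : ∀ j, v0 (j - 1) = v0 j → v0 j ≠ v0 (j + 1)) (hy : Tendsto y l (𝓝 p))
    (hp : p ∈ Er X0 c0 v0 d0) :
    ∀ᶠ i in l, y i ∉ Er (X i) (c i) (v i) (d i) → HitN (X i) (c i) (v i) (d i) (y i) := by
  have H := h.h0.toChn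
  obtain ⟨k, hk⟩ := H.exists_slab p
  rcases hk.2.lt_or_eq with h2 | h2
  · rcases hk.1.lt_or_eq with h1 | h1
    · -- the interior of the slab
      have hb := H.bel_of_mem hp hk
      have hs := H.bel_strict hk hb
      have hJ : ∀ j, ∀ q : ℂ, xi d0 (v0 (k - 1)) < xi d0 q → xi d0 q < xi d0 (v0 k) →
          InS v0 d0 j q → j = k := by
        intro j q g1 g2 hj
        rcases lt_trichotomy j k with hjk | hjk | hjk
        · have := H.ximono (Int.le_sub_one_of_lt hjk)
          linarith [hj.2]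
        · exact hjk
        · have := H.ximono (show k ≤ j - 1 by linarith [Int.add_one_le_iff.mpr hjk])
          linarith [hj.1]
      have M0 := h.mem hy fun j hj => H.bel_strict hj (H.bel_of_mem hp hj)
      rcases hb.2.lt_or_eq with h3 | h3
      · have e1 := (h.tq hy k).eventually_const_lt h3
        filter_upwards [e1, M0] with i g1 g2 g3
        exact absurd (g2 fun j hj => by rw [hJ j p h1 h2 hj]; exact g1.le) g3
      · have hne : p ≠ c0 k := by
          intro h0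
          rw [h0] at hs
          exact lt_irrefl _ hs
        have T1 := h.tiv hy hne
        obtain ⟨a1, a2, a3⟩ := h.h0.arc h1 h2 h3.symm hs
        have M1 := h.mem T1 fun j hj => by rw [hJ j _ a1 a2 hj]; exact a3
        filter_upwards [M0, M1, h.ne_c hy hne, h.hn] with i m0 m1 n1 hc hE
        refine Or.inl ⟨k, n1, m1 fun j hj => ?_⟩
        rw [hJ j _ a1 a2 hj, qd_iv_self (hc.nz k) n1]
        have hlt : qd (X i k) (c i k) (y i) < 1 := by
          by_contra hcon
          exact hE (m0 fun j hj => by rw [hJ j p h1 h2 hj]; exact not_lt.mp hcon)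
        rw [le_div_iff₀ (qd_pos (hc.nz k) n1)]
        linarith
    · exact h.vert nd hy hp h1.symm
  · exact h.vert nd hy hp h2

end main

end Pool.Agent.M4
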