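import Pool.Agent.helper95.M4.Final

/-!
# Project M4, block V: definitions (words, centres, discs, region)
-/

set_option autoImplicit false

namespace Pool.Agent.M4

open Complex ComplexConjugate

/-- Letters of the group words: `x ↦ x + 1`, `x ↦ x - 1`, `x ↦ -x`, `x ↦ -1/(z^2 x)`. -/
inductive Lt
  | T | Ti | N | J
  deriving DecidableEq

/-- The matrix of a letter. -/
noncomputable def lm (z : ℂ) : Lt → Matrix (Fin 2) (Fin 2) ℂ
  | .T => !![1, 1; 0, 1]
  | .Ti => !![1, -1; 0, 1]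
  | .N => !![I, 0; 0, -I]
  | .J => !![0, -z⁻¹; z, 0]

/-- The matrix of a word. -/
noncomputable def ev (z : ℂ) : List Lt → Matrix (Fin 2) (Fin 2) ℂ
  | [] => 1
  | a :: g => lm z a * ev z g

/-- The lower left entry. -/
noncomputable def cc (g : List Lt) (z : ℂ) : ℂ := ev z g 1 0

/-- The image of infinity. -/
noncomputable def aa (g : List Lt) (z : ℂ) : ℂ := ev z g 0 0 / ev z g 1 0

/-- The words which are identically `x ↦ u^2 x + m`, `|u| = 1`. -/
def Stb (g : List Lt) : Prop :=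
  ∃ (u : ℂ) (m : ℤ), ‖u‖ = 1 ∧ ∀ z : ℂ, z ≠ 0 → ev z g = !![u, m / u; 0, 1 / u]

/-- All other words have a lower left entry bounded from below. -/
def PP (z : ℂ) : Prop := ∃ δ : ℝ, 0 < δ ∧ ∀ g, ¬ Stb g → δ ≤ ‖cc g z‖

/-- Three centres. -/
@[ext] structure Cen where
  /-- left -/
  L : ℂ
  /-- newest -/
  N : ℂ
  /-- right -/
  R : ℂ

/-- The centres at a word. -/
noncomputable def cen : List Bool → ℂ → Cen
  | [], z => ⟨0, (z ^ 2)⁻¹, 0⟩
  | true :: w, z => ⟨(cen w z).N, (cen w z).N + Rf w z / (Nf w z * Nf (true :: w) z),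
      (cen w z).R⟩
  | false :: w, z => ⟨(cen w z).L, (cen w z).L + Nf w z / (Lf w z * Nf (false :: w) z),
      (cen w z).N⟩

/-- centre of the left entry -/
noncomputable def cL (w : List Bool) (z : ℂ) : ℂ := (cen w z).L
/-- centre of the newest entry -/
noncomputable def cN (w : List Bool) (z : ℂ) : ℂ := (cen w z).N
/-- centre of the right entry -/
noncomputable def cR (w : List Bool) (z : ℂ) : ℂ := (cen w z).R

/-- The involution with centre `c` and isometric radius `1/|X|`. -/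
noncomputable def Pm (X c : ℂ) : Matrix (Fin 2) (Fin 2) ℂ :=
  !![X * c, -X⁻¹ - X * c ^ 2; X, -X * c]

/-- Words of the involutions of the three entries. -/
structure PW where
  /-- left -/
  L : List Lt
  /-- newest -/
  N : List Lt
  /-- right -/
  R : List Lt

/-- The words of the involutions at a word of the algorithm. -/
def pw : List Bool → PW
  | [] => ⟨[.J], [.N, .N, .J, .Ti, .N, .J], [.N, .J]⟩
  | true :: w => ⟨(pw w).N, (pw w).R ++ .T :: (pw w).N, (pw w).R⟩
  | false :: w => ⟨(pw w).L, (pw w).N ++ .T :: (pw w).L, (pw w).N⟩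

/-- The entries at all suffixes of the word are nonzero. -/
def NZ : List Bool → ℂ → Prop
  | [], z => z ≠ 0
  | b :: w, z => NZ w z ∧ Nf (b :: w) z ≠ 0

/-- The union of the open discs of the chain (all levels, lower side). -/
def Uo (w : List Bool) (z : ℂ) : Set ℂ :=
  {y | ∃ v, v <:+ w ∧ ∃ m : ℤ, ‖y - (cL v z + m)‖ * ‖Lf v z‖ < 1 ∨
    ‖y - (cN v z + m)‖ * ‖Nf v z‖ < 1 ∨ ‖y - (cR v z + m)‖ * ‖Rf v z‖ < 1}

/-- The entries of the bottom chain, period three. -/
noncomputable def Xs (w : List Bool) (z : ℂ) (j : ℤ) : ℂ :=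
  if j % 3 = 0 then Lf w z else if j % 3 = 1 then Nf w z else Rf w z

/-- The centres of the bottom chain. -/
noncomputable def cs (w : List Bool) (z : ℂ) (j : ℤ) : ℂ :=
  (if j % 3 = 0 then cL w z else if j % 3 = 1 then cN w z else cR w z) + ((j / 3 : ℤ) : ℂ)

/-- A chain of circles with corners `v j` (between the circles `j` and `j + 1`) and a unit vector
`d` (down); `I * d` points to the right. -/
structure Chn (X c v : ℤ → ℂ) (d : ℂ) : Prop where
  perX : ∀ j, X (j + 3) = X j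
  perc : ∀ j, c (j + 3) = c j + 1
  perv : ∀ j, v (j + 3) = v j + 1
  nz : ∀ j, X j ≠ 0
  st : ∀ j, c (j + 1) - c j = X (j + 2) / (X j * X (j + 1))
  vr : ∀ j, ‖v j - c j‖ * ‖X j‖ = 1
  vl : ∀ j, ‖v j - c (j + 1)‖ * ‖X (j + 1)‖ = 1
  d1 : ‖d‖ = 1
  dim : d.im < 0
  dr : ∀ j, 0 < ((v j - c j) * conj d).re
  dl : ∀ j, 0 < ((v j - c (j + 1)) * conj d).re
  mono : ∀ j, (v (j - 1) * conj (I * d)).re ≤ (v j * conj (I * d)).re

/-- The closed region below the chain, by slabs. -/
def Er (X c v : ℤ → ℂ) (d : ℂ) : Set ℂ :=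
  {y | ∃ j : ℤ, (v (j - 1) * conj (I * d)).re ≤ (y * conj (I * d)).re ∧
    (y * conj (I * d)).re ≤ (v j * conj (I * d)).re ∧
    (c j * conj d).re ≤ (y * conj d).re ∧ 1 ≤ ‖y - c j‖ * ‖X j‖}

end Pool.Agent.M4
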